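import Pool.Agent.Y158.GR.FixV

/-!
# Rigidity of sections
-/

set_option autoImplicit false
set_option linter.all false

open Polynomial FF Pool.Agent.Y157.PS

namespace Pool.Agent.Y158.GR

variable {ℓ : ℕ} [hℓ : Fact ℓ.Prime] {κ R M : Type} [Field κ] [IsAlgClosed κ] [CharZero κ]
  [Field R] [Field M] [Algebra κ R] [Algebra R M] [Algebra κ M] [IsScalarTower κ R M] {x : R}
  {B : Finset κ} {Y : M} {k : Type} [Field k] [Algebra k κ]

/-- a semilinear action of `Gal(κ/k)` on `M` which fixes `x` -/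
structure Act (k κ R M : Type) [Field k] [Field κ] [Field R] [Field M] [Algebra k κ] [Algebra κ R]
    [Algebra R M] [Algebra κ M] (x : R) (s : (κ ≃ₐ[k] κ) →* RingAut M) : Prop where
  const : ∀ σ c, s σ (algebraMap κ M c) = algebraMap κ M (σ c)
  fixx : ∀ σ, s σ (algebraMap R M x) = algebraMap R M x
  cont : ∀ z : M, ∃ E : IntermediateField k κ, FiniteDimensional k E ∧
    ∀ σ ∈ E.fixingSubgroup, s σ z = z

theorem Act.of_sec {δ : κ} {s : (κ ≃ₐ[k] κ) →* RingAut M} (h : Sec k κ R M x Y δ s) :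
    Act k κ R M x s := ⟨h.const, h.fixx, h.cont⟩

theorem Act.mem {s : (κ ≃ₐ[k] κ) →* RingAut M} (h : Act k κ R M x s) (σ : κ ≃ₐ[k] κ) :
    s σ ∈ GG (κ := κ) k M x := ⟨σ, h.const σ, h.fixx σ⟩

/-- two actions agree on `κ(x)` -/
theorem Act.eq_R (hR : RatF κ x) {s t : (κ ≃ₐ[k] κ) →* RingAut M} (hs : Act k κ R M x s)
    (ht : Act k κ R M x t) (σ : κ ≃ₐ[k] κ) (z : R) :
    s σ (algebraMap R M z) = t σ (algebraMap R M z) := by
  have hz : z ∈ IntermediateField.adjoin κ {x} := by rw [hR.gen]; trivial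
  induction hz using IntermediateField.adjoin_induction with
  | mem y hy =>
    rw [Set.mem_singleton_iff] at hy
    subst hy
    rw [hs.fixx, ht.fixx]
  | algebraMap c =>
    rw [← IsScalarTower.algebraMap_apply, hs.const, ht.const]
  | add a b _ _ ha hb => rw [map_add, map_add, map_add, ha, hb]
  | inv a _ ha => rw [map_inv₀, map_inv₀, map_inv₀, ha]
  | mul a b _ _ ha hb => rw [map_mul, map_mul, map_mul, ha, hb]

/-- the field of the elements on whose conjugates the two actions agree -/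
def LD (hR : RatF κ x) {s t : (κ ≃ₐ[k] κ) →* RingAut M} (hs : Act k κ R M x s)
    (ht : Act k κ R M x t) : IntermediateField R M where
  carrier := {z | ∀ ψ ∈ GG (κ := κ) k M x, ∀ σ, s σ (ψ z) = t σ (ψ z)}
  mul_mem' := fun ha hb ψ hψ σ => by
    rw [map_mul, map_mul, map_mul, ha ψ hψ σ, hb ψ hψ σ]
  one_mem' := fun ψ hψ σ => by rw [map_one, map_one, map_one]
  add_mem' := fun ha hb ψ hψ σ => by
    rw [map_add, map_add, map_add, ha ψ hψ σ, hb ψ hψ σ]
  zero_mem' := fun ψ hψ σ => by rw [map_zero, map_zero, map_zero]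
  algebraMap_mem' := fun r ψ hψ σ => by
    obtain ⟨σ', hσ'⟩ := mem_GG.1 hψ
    obtain ⟨r', hr'⟩ := hσ'.mapR hR r
    rw [hr']
    exact hs.eq_R hR ht σ r'
  inv_mem' := fun a ha ψ hψ σ => by
    rw [map_inv₀, map_inv₀, map_inv₀, ha ψ hψ σ]

theorem mem_LD {hR : RatF κ x} {s t : (κ ≃ₐ[k] κ) →* RingAut M} {hs : Act k κ R M x s}
    {ht : Act k κ R M x t} {z : M} : z ∈ LD hR hs ht ↔
      ∀ ψ ∈ GG (κ := κ) k M x, ∀ σ, s σ (ψ z) = t σ (ψ z) := Iff.rfl

/-- **rigidity**: two sections are equal if every character of order `ℓ` which is trivial where they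
agree is trivial -/
theorem rigid (hk : Algebra.IsAlgebraic k κ) (hC : Cov ℓ κ R M x B Y)
    (hB : ∀ σ : κ ≃ₐ[k] κ, ∀ e ∈ B, σ e = e) (hμ : ∀ σ : κ ≃ₐ[k] κ, ∀ c : κ, c ^ ℓ = 1 → σ c = c)
    {s t : (κ ≃ₐ[k] κ) →* RingAut M} (hs : Act k κ R M x s) (ht : Act k κ R M x t)
    (hχ : ∀ χ : (κ ≃ₐ[k] κ) → κ, (∀ σ, χ σ ^ ℓ = 1) → (∀ σ τ, χ (σ * τ) = χ σ * χ τ) →
      (∃ E : IntermediateField k κ, FiniteDimensional k E ∧
        ∀ σ ∈ E.fixingSubgroup, χ σ = 1) → (∀ σ, s σ = t σ → χ σ = 1) → ∀ σ, χ σ = 1) :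
    s = t := by
  classical
  have hR := hC.rat
  haveI := hC.gal
  haveI : CharZero R := charZero_of_injective_algebraMap (algebraMap κ R).injective
  have hroot : ∀ h : M, h ^ ℓ ∈ LD hR hs ht → h ∈ LD hR hs ht := by
    intro h0 h0ℓ
    by_contra h0L
    obtain ⟨h, hhL, hhℓ, hfix⟩ := exists_fixed hk hC hB hμ (LD hR hs ht) (by
      intro ψ hψ z hz
      rw [mem_LD] at hz ⊢
      intro ψ' hψ' σ
      exact hz (ψ' * ψ) (mul_mem hψ' hψ) σ) h0 h0L h0ℓ
    apply hhL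
    have hh0 : h ≠ 0 := by
      rintro rfl
      exact hhL (zero_mem _)
    have hself : ∀ z ∈ LD hR hs ht, ∀ σ, s σ z = t σ z := fun z hz σ =>
      mem_LD.1 hz 1 (one_mem _) σ
    have htinv : ∀ (σ : κ ≃ₐ[k] κ) (z : M), t σ (t σ⁻¹ z) = z := fun σ z =>
      Pool.Agent.Y748.PS.s_apply_inv t σ z
    -- `s σ (t σ⁻¹ h) = χ σ h`
    have h1 : ∀ σ : κ ≃ₐ[k] κ, ∃ c : κ, c ^ ℓ = 1 ∧ s σ (t σ⁻¹ h) = algebraMap κ M c * h := by
      intro σ
      have h2 : (s σ (t σ⁻¹ h) / h) ^ ℓ = 1 := by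
        have h3 : t σ⁻¹ (h ^ ℓ) ∈ LD hR hs ht := by
          rw [mem_LD] at hhℓ ⊢
          intro ψ hψ τ
          exact hhℓ (ψ * t σ⁻¹) (mul_mem hψ (ht.mem _)) τ
        rw [div_pow, ← map_pow, ← map_pow, hself _ h3, htinv, div_self (pow_ne_zero _ hh0)]
      obtain ⟨c, hc, hc'⟩ := Pool.Agent.Y748.PS.rou_const (κ := κ) hℓ.out.pos h2
      exact ⟨c, hc, by rw [hc', div_mul_cancel₀ _ hh0]⟩
    choose χ hχ1 hχ2 using h1
    have hχall : ∀ σ, χ σ = 1 := by
      apply hχ χ hχ1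
      · intro σ τ
        -- `t σ⁻¹ h = a h`
        obtain ⟨a, ha, haL⟩ : ∃ a : M, t σ⁻¹ h = a * h ∧ a ∈ LD hR hs ht :=
          ⟨t σ⁻¹ h / h, by rw [div_mul_cancel₀ _ hh0], hfix _ (ht.mem _)⟩
        have haτ : s τ (t τ⁻¹ a) = a := by
          have h3 : t τ⁻¹ a ∈ LD hR hs ht := by
            rw [mem_LD] at haL ⊢
            intro ψ hψ ρ
            exact haL (ψ * t τ⁻¹) (mul_mem hψ (ht.mem _)) ρ
          rw [hself _ h3, htinv]
        have e1 : s (σ * τ) (t (σ * τ)⁻¹ h) = s σ (s τ (t τ⁻¹ (t σ⁻¹ h))) := by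
          rw [mul_inv_rev, map_mul, map_mul]
          rfl
        have e2 : s τ (t τ⁻¹ (t σ⁻¹ h)) = algebraMap κ M (χ τ) * t σ⁻¹ h := by
          rw [ha, map_mul, map_mul, haτ, hχ2]
          ring
        have e3 := hχ2 (σ * τ)
        rw [e1, e2, map_mul, hs.const, hμ σ _ (hχ1 τ), hχ2 σ, ← mul_assoc, ← map_mul] at e3
        have e4 := (algebraMap κ M).injective (mul_right_cancel₀ hh0 e3)
        rw [← e4, mul_comm]
      · obtain ⟨E1, hE1, hE1'⟩ := hs.cont h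
        obtain ⟨E2, hE2, hE2'⟩ := ht.cont h
        haveI := hE1
        haveI := hE2
        refine ⟨E1 ⊔ E2, inferInstance, fun σ hσE => ?_⟩
        rw [IntermediateField.mem_fixingSubgroup_iff] at hσE
        have h4 : s σ h = h := hE1' σ (by
          rw [IntermediateField.mem_fixingSubgroup_iff]
          exact fun y hy => hσE y ((le_sup_left : E1 ≤ _) hy))
        have h5 : t σ h = h := hE2' σ (by
          rw [IntermediateField.mem_fixingSubgroup_iff]
          exact fun y hy => hσE y ((le_sup_right : E2 ≤ _) hy))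
        have h6 : t σ⁻¹ h = h := by
          conv_lhs => rw [← h5]
          exact Pool.Agent.Y748.PS.s_inv_apply t σ h
        have h7 := hχ2 σ
        rw [h6, h4] at h7
        have h8 : algebraMap κ M 1 * h = algebraMap κ M (χ σ) * h := by rw [map_one, one_mul, ← h7]
        exact ((algebraMap κ M).injective (mul_right_cancel₀ hh0 h8)).symm
      · intro σ hσ
        have h7 := hχ2 σ
        rw [hσ, htinv] at h7
        have h8 : algebraMap κ M 1 * h = algebraMap κ M (χ σ) * h := by rw [map_one, one_mul, ← h7]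
        exact ((algebraMap κ M).injective (mul_right_cancel₀ hh0 h8)).symm
    have heq : ∀ σ, s σ h = t σ h := by
      intro σ
      have h7 := hχ2 σ⁻¹
      rw [hχall, map_one, one_mul, inv_inv] at h7
      have h8 := congrArg (s σ) h7
      rw [Pool.Agent.Y748.PS.s_apply_inv] at h8
      exact h8.symm
    rw [mem_LD]
    intro ψ hψ σ
    obtain ⟨a, ha, haL⟩ : ∃ a : M, ψ h = a * h ∧ a ∈ LD hR hs ht :=
      ⟨ψ h / h, by rw [div_mul_cancel₀ _ hh0], hfix _ hψ⟩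
    rw [ha, map_mul, map_mul, hself a haL σ, heq]
  have hprim : ∃ ζ : R, IsPrimitiveRoot ζ ℓ := by
    haveI : NeZero ℓ := ⟨hℓ.out.ne_zero⟩
    haveI : NeZero (ℓ : κ) := ⟨Nat.cast_ne_zero.2 hℓ.out.ne_zero⟩
    obtain ⟨ζ, hζ⟩ := HasEnoughRootsOfUnity.exists_primitiveRoot κ ℓ
    exact ⟨algebraMap κ R ζ, hζ.map_of_injective (algebraMap κ R).injective⟩
  have htop := Pool.Agent.Y705.PS.prol ℓ R M hprim hC.gal hC.pow (LD hR hs ht) hroot
  ext σ z
  have h1 : z ∈ LD hR hs ht := by rw [htop]; trivial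
  exact mem_LD.1 h1 1 (one_mem _) σ

/-- inertia elements at places of good reduction act in the same way under two sections -/
theorem eq_of_ine (hG2 : S_G2) (hC : Cov ℓ κ R M x B Y) {V : ValuationSubring κ}
    (hl : IsU V (ℓ : κ)) {O : ValuationSubring M} (hO : Gauss V (algebraMap R M x) O)
    {s t : (κ ≃ₐ[k] κ) →* RingAut M} (hs : Act k κ R M x s) (ht : Act k κ R M x t)
    {σ : κ ≃ₐ[k] κ} (h1 : ∀ z ∈ O, s σ z - z ∈ O.nonunits)
    (h2 : ∀ z ∈ O, t σ z - z ∈ O.nonunits) : s σ = t σ := by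
  have htinv : ∀ (z : M), t σ (t σ⁻¹ z) = z := fun z =>
    Pool.Agent.Y748.PS.s_apply_inv t σ z
  have hR := hC.rat
  -- `γ = (t σ)⁻¹ (s σ)`
  let γ : M ≃ₐ[R] M := AlgEquiv.ofRingEquiv (f := (t σ⁻¹ * s σ : RingAut M)) (by
    intro r
    change t σ⁻¹ (s σ (algebraMap R M r)) = _
    rw [hs.eq_R hR ht, Pool.Agent.Y748.PS.s_inv_apply])
  have hγ : ∀ z, γ z = t σ⁻¹ (s σ z) := fun z => rfl
  -- `t σ` maps `O` to itself
  have htO : ∀ z ∈ O, t σ z ∈ O := by
    intro z hz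
    have h3 := add_mem (Pool.Agent.Y748.PS.nu_mem (h2 z hz)) hz
    rwa [sub_add_cancel] at h3
  have htU : ∀ z, IsU O z → IsU O (t σ z) := by
    intro z hz
    refine ⟨(map_ne_zero_iff _ (t σ).injective).2 hz.1, htO z hz.2.1, ?_⟩
    rw [← map_inv₀]
    exact htO _ hz.2.2
  have htN : ∀ z, t σ z ∈ O.nonunits → z ∈ O → z ∈ O.nonunits := by
    intro z hz hzO
    by_contra hno
    have h3 : IsU O z := isU_of_not_nonunit hzO hno
    exact (htU z h3).not_nonunit hz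
  have key : ∀ z ∈ O, γ z ∈ O → γ z - z ∈ O.nonunits := by
    intro z hz hγz
    have h3 : t σ (γ z - z) = (s σ z - z) - (t σ z - z) := by
      rw [map_sub, hγ, htinv]
      ring
    refine htN _ ?_ (sub_mem hγz hz)
    rw [h3]
    exact non_sub (h1 z hz) (h2 z hz)
  have hγO : ∀ z ∈ O, γ z ∈ O := by
    intro z hz
    by_contra hno
    have h3 : (γ z)⁻¹ ∈ O := (O.mem_or_inv_mem (γ z)).resolve_left hno
    have h4 : (γ z)⁻¹ ∈ O.nonunits := by
      rw [nonunits_iff]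
      exact ⟨h3, Or.inr (by rwa [inv_inv])⟩
    -- `t σ ((γ z)⁻¹) = (s σ z)⁻¹`
    have h5 : t σ ((γ z)⁻¹) = (s σ z)⁻¹ := by rw [map_inv₀, hγ, htinv]
    have h6 : s σ z ∈ O := by
      have := add_mem (Pool.Agent.Y748.PS.nu_mem (h1 z hz)) hz
      rwa [sub_add_cancel] at this
    have h7 : t σ ((γ z)⁻¹) ∈ O.nonunits := by
      have := non_add (h2 _ h3) h4
      rwa [sub_add_cancel] at this
    rw [h5] at h7
    have h8 := non_mul h6 h7
    have hz0 : s σ z ≠ 0 := by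
      intro h0
      have hz0 : z = 0 := (map_eq_zero_iff _ (s σ).injective).1 h0
      apply hno
      rw [hz0, map_zero]
      exact zero_mem _
    rw [mul_inv_cancel₀ hz0] at h8
    exact Pool.Agent.Y748.PS.nu_one h8
  have h3 := (hG2 ℓ κ R M x B Y hC V O hO).2 hl
  ext z
  obtain ⟨N, hzN, hN⟩ := hC.pow z
  have h4 := h3 N hN γ (fun z hz _ => key z hz (hγO z hz)) z hzN
  have h5 := congrArg (t σ) h4
  rw [hγ, htinv] at h5
  exact h5

end Pool.Agent.Y158.GR
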