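import Pool.Agent.Y157.PS.All
import Pool.Agent.Y158.GR.Rig

/-!
# Sections which are locally given by a branch point
-/

set_option autoImplicit false
set_option linter.all false

open Polynomial FF Pool.Agent.Y157.PS

namespace Pool.Agent.Y158.GR

variable {ℓ : ℕ} [hℓ : Fact ℓ.Prime] {κ R M : Type} [Field κ] [IsAlgClosed κ] [CharZero κ]
  [Field R] [Field M] [Algebra κ R] [Algebra R M] [Algebra κ M] [IsScalarTower κ R M] {x : R}
  {B : Finset κ} {Y : M} {k : Type} [Field k] [Algebra k κ]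

/-- an inertia generator at every place above a branch point -/
theorem exists_rot' (hC : Cov ℓ κ R M x B Y) {V : ValuationSubring κ}
    (hR : HasRot κ R M x B Y V) (W : Place κ M) {e : κ} (he : e ∈ B)
    (hW : 0 < W.ord (algebraMap R M x - algebraMap κ M e)) :
    ∃ c : M ≃ₐ[R] M, Fixes W c ∧ c Y ≠ Y := by
  haveI := hC.gal
  haveI : Normal R M := hC.gal.to_normal
  obtain ⟨O, c, W₀, -, -, hcW, hW₀, hcY⟩ := hR e he
  obtain ⟨γ, hγ⟩ := a_conj R M W₀.O W.O (trace_eq hC.rat e hW₀ hW)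
  have hγs : ∀ z, γ (γ⁻¹ z) = z := fun z => γ.apply_symm_apply z
  have hc' : ∀ z, (γ⁻¹ * c * γ : M ≃ₐ[R] M) z = γ⁻¹ (c (γ z)) := fun z => rfl
  have hYW := hC.ordY W he hW
  have hY0 : Y ≠ 0 := by
    rintro rfl
    rw [W.ord_zero] at hYW
    exact zero_ne_one hYW
  refine ⟨γ⁻¹ * c * γ, ?_, ?_⟩
  · refine fixes_of_O W ((γ⁻¹ * c * γ : M ≃ₐ[R] M) : M ≃+* M) (RingEquiv.refl κ) (fun b => ?_)
      fun z => ?_
    · exact Pool.Agent.Y748.PS.gal_const _ b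
    · change (γ⁻¹ * c * γ : M ≃ₐ[R] M) z ∈ W.O ↔ _
      rw [hγ, hc', hγs, hγ z]
      exact O_of_fixes W₀ (c : M ≃+* M) hcW (γ z)
  · intro h1
    obtain ⟨ξ, hξ, hγY⟩ := hC.actY hY0 γ
    rw [hc'] at h1
    have h2 := congrArg γ h1
    rw [hγs, hγY, map_mul, Pool.Agent.Y748.PS.gal_const] at h2
    have hξ0 : algebraMap κ M ξ ≠ 0 := by
      rw [Ne, FaithfulSMul.algebraMap_eq_zero_iff]
      rintro rfl
      rw [zero_pow hℓ.out.ne_zero] at hξ
      exact zero_ne_one hξ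
    exact hcY (mul_left_cancel₀ hξ0 h2)

/-- the conjugate action -/
def cjA (c : M ≃ₐ[R] M) (s : (κ ≃ₐ[k] κ) →* RingAut M) : (κ ≃ₐ[k] κ) →* RingAut M :=
  (MulAut.conj ((c : M ≃+* M) : RingAut M)).toMonoidHom.comp s

theorem cjA_apply (c : M ≃ₐ[R] M) (s : (κ ≃ₐ[k] κ) →* RingAut M) (σ : κ ≃ₐ[k] κ) (z : M) :
    cjA c s σ z = c (s σ (c⁻¹ z)) := rfl

theorem c_inv (c : M ≃ₐ[R] M) (z : M) : c (c⁻¹ z) = z := c.apply_symm_apply z

theorem inv_c (c : M ≃ₐ[R] M) (z : M) : c⁻¹ (c z) = z := c.symm_apply_apply z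

theorem cjA_act (c : M ≃ₐ[R] M) {s : (κ ≃ₐ[k] κ) →* RingAut M} (hs : Act k κ R M x s) :
    Act k κ R M x (cjA c s) := by
  refine ⟨fun σ b => ?_, fun σ => ?_, fun z => ?_⟩
  · rw [cjA_apply, Pool.Agent.Y748.PS.gal_const, hs.const, Pool.Agent.Y748.PS.gal_const]
  · rw [cjA_apply, c⁻¹.commutes, hs.fixx, c.commutes]
  · obtain ⟨E, hE, hE'⟩ := hs.cont (c⁻¹ z)
    refine ⟨E, hE, fun σ hσ => ?_⟩
    rw [cjA_apply, hE' σ hσ, c_inv]

/-- elements which fix the place `W` commute with the inertia generator -/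
theorem comm_of_fixes (hC : Cov ℓ κ R M x B Y) {s : (κ ≃ₐ[k] κ) →* RingAut M}
    (hs : Act k κ R M x s) (hμ : ∀ σ : κ ≃ₐ[k] κ, ∀ c : κ, c ^ ℓ = 1 → σ c = c) (W : Place κ M)
    {e : κ} (he : e ∈ B) (hW : 0 < W.ord (algebraMap R M x - algebraMap κ M e))
    {c : M ≃ₐ[R] M} (hcW : Fixes W c) {σ : κ ≃ₐ[k] κ} (hY : s σ Y = Y) (hσ : Fixes W (s σ)) :
    s σ = cjA c s σ := by
  have hYW := hC.ordY W he hW
  have hY0 : Y ≠ 0 := by
    rintro rfl
    rw [W.ord_zero] at hYW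
    exact zero_ne_one hYW
  have hsi : ∀ z : M, s σ⁻¹ (s σ z) = z := fun z => Pool.Agent.Y748.PS.s_inv_apply s σ z
  have his : ∀ z : M, s σ (s σ⁻¹ z) = z := fun z => Pool.Agent.Y748.PS.s_apply_inv s σ z
  -- `η = (s σ)⁻¹ c (s σ)`
  obtain ⟨η, hη⟩ := conjR hC.rat (s σ) (σ : κ ≃+* κ) (fun b => hs.const σ b) (hs.fixx σ) c
  have hη' : ∀ z, η z = s σ⁻¹ (c (s σ z)) := by
    intro z
    rw [hη, map_inv]
    rfl
  have hηW : Fixes W η := by
    intro z
    have h1 : W.ord (s σ (η z)) = W.ord (η z) := hσ _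
    rw [hη', his, hcW, hσ] at h1
    rw [hη', ← h1]
  obtain ⟨ξ, hξ, hcY⟩ := hC.actY hY0 c
  have hηY : η Y = c Y := by
    rw [hη', hY, hcY, map_mul, hs.const, hμ _ ξ hξ]
    congr 1
    have h1 := hsi Y
    rwa [hY] at h1
  have h1 : (c⁻¹ * η : M ≃ₐ[R] M) = 1 := by
    refine hC.stabR a_stab W _ (hcW.inv.mul hηW) Y hYW ?_
    change c⁻¹ (η Y) = Y
    rw [hηY, inv_c]
  have h2 : η = c := by
    have h3 := congrArg (fun g => c * g) h1
    simp only [mul_inv_cancel_left, mul_one] at h3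
    exact h3
  ext z
  rw [cjA_apply]
  have h3 : s σ (η (c⁻¹ z)) = c (s σ (c⁻¹ z)) := by rw [hη', his]
  rw [← h3, h2, c_inv]

/-- elements which act trivially on the residue field commute with the inertia generator -/
theorem comm_of_ine (hC : Cov ℓ κ R M x B Y) {V : ValuationSubring κ} (hl : IsU V (ℓ : κ))
    {O : ValuationSubring M} (hO : Gauss V (algebraMap R M x) O)
    (hu : ∀ O' : ValuationSubring M, Gauss V (algebraMap R M x) O' → O' = O)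
    {s : (κ ≃ₐ[k] κ) →* RingAut M} (hs : Act k κ R M x s) (c : M ≃ₐ[R] M) {σ : κ ≃ₐ[k] κ}
    (h1 : ∀ z ∈ O, s σ z - z ∈ O.nonunits) : s σ = cjA c s σ := by
  refine eq_of_ine a_g2 hC hl hO hs (cjA_act c hs) h1 fun z hz => ?_
  have hcO : ∀ (g : M ≃ₐ[R] M) (w : M), g w ∈ O ↔ w ∈ O := fun g w => hO.stable' hu g w
  have h2 := h1 (c⁻¹ z) ((hcO _ _).2 hz)
  have h3 : cjA c s σ z - z = c (s σ (c⁻¹ z) - c⁻¹ z) := by
    rw [cjA_apply, map_sub, c_inv]
  rw [h3]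
  exact (stable_non (τ := (c : M ≃+* M)) (fun w => hcO c w) _).2 h2

/-- if the section commutes with the inertia generator then it fixes the place -/
theorem fixes_of_comm (hC : Cov ℓ κ R M x B Y) {s : (κ ≃ₐ[k] κ) →* RingAut M}
    (hs : Act k κ R M x s) (W : Place κ M) {e : κ} (he : e ∈ B)
    (hW : 0 < W.ord (algebraMap R M x - algebraMap κ M e))
    {c : M ≃ₐ[R] M} (hcW : Fixes W c) (hcY : c Y ≠ Y) {σ : κ ≃ₐ[k] κ}
    (hσ : s σ = cjA c s σ) : Fixes W (s σ) := by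
  have hYW := hC.ordY W he hW
  have hY0 : Y ≠ 0 := by
    rintro rfl
    rw [W.ord_zero] at hYW
    exact zero_ne_one hYW
  have hcomm : ∀ z, s σ (c z) = c (s σ z) := by
    intro z
    have h1 : s σ (c z) = cjA c s σ (c z) := by rw [← hσ]
    rw [h1, cjA_apply, inv_c]
  -- `c` has order `ℓ`
  obtain ⟨ξ, hξ, hcξ⟩ := hC.actY hY0 c
  have hcn : ∀ n : ℕ, (c ^ n) Y = algebraMap κ M (ξ ^ n) * Y := by
    intro n
    induction n with
    | zero => rw [pow_zero, pow_zero, map_one, one_mul]; rfl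
    | succ n ih =>
      rw [pow_succ', AlgEquiv.mul_apply, ih, map_mul, Pool.Agent.Y748.PS.gal_const, hcξ, pow_succ,
        map_mul]
      ring
  have hcℓ : c ^ ℓ = 1 := by
    refine hC.stabR a_stab W _ (hcW.pow ℓ) Y hYW ?_
    rw [hcn, hξ, map_one, one_mul]
  have hc1 : c ≠ 1 := by
    rintro rfl
    exact hcY rfl
  let W' : Place κ M := Place.comapEquiv W (s σ) (σ : κ ≃+* κ) (fun b => hs.const σ b)
  have hW' : ∀ z, W'.ord z = W.ord (s σ z) := fun z => rfl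
  have h2 : Fixes W' c := by
    intro z
    rw [hW', hW', hcomm, hcW]
  have h3 := a_unq ℓ κ R M x B Y hC c hcℓ hc1 W W' hcW h2
  intro z
  rw [← hW', ← h3]

end Pool.Agent.Y158.GR
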