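import Pool.Agent.Y157.PS.Ind2
import Pool.Agent.Y158.GR.Prb

/-!
# The covering field of a superelliptic curve with rational branch points
-/

set_option autoImplicit false
set_option linter.all false

open Polynomial FF Pool.Agent.Y157.PS

namespace Pool.Agent.Y158.GR

section glue

variable {k F Ω : Type} [Field k] [CharZero k]
    [Field F] [Field Ω] [Algebra k F] [Algebra F Ω] [Algebra k Ω] [IsScalarTower k F Ω]
    [IsAlgClosed Ω] [Algebra.IsAlgebraic F Ω]

/-- the covering field as an extension of `κ(x)` -/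
theorem glue {ℓ : ℕ} [hℓ : Fact ℓ.Prime] (B : Finset (algebraicClosure k Ω)) (hdvd : ℓ ∣ B.card)
    (h3 : 3 ≤ B.card) (δ : algebraicClosure k Ω) (hδ0 : δ ≠ 0) (x y : F) (hx : Transcendental k x)
    (hF : IntermediateField.adjoin k {x, y} = (⊤ : IntermediateField k F))
    (hY : ((δ : Ω) * algebraMap F Ω y) ^ ℓ = ∏ e ∈ B, (algebraMap F Ω x - (e : Ω))) :
    ∃ (R M : Type) (_ : Field R) (_ : Field M) (_ : Algebra (algebraicClosure k Ω) R)
      (_ : Algebra R M) (_ : Algebra (algebraicClosure k Ω) M)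
      (_ : IsScalarTower (algebraicClosure k Ω) R M) (x' : R) (Y : M)
      (eqv : M ≃+* geomPro ℓ k F Ω), Cov ℓ (algebraicClosure k Ω) R M x' B Y ∧
      (∀ c : algebraicClosure k Ω, ((eqv (algebraMap (algebraicClosure k Ω) M c) :
        geomPro ℓ k F Ω) : Ω) = (c : Ω)) ∧
      ((eqv (algebraMap R M x') : geomPro ℓ k F Ω) : Ω) = algebraMap F Ω x ∧
      ((eqv Y : geomPro ℓ k F Ω) : Ω) = (δ : Ω) * algebraMap F Ω y := by
  classical
  have hac : IsAlgClosure k (algebraicClosure k Ω) := inferInstance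
  have hkb : IsAlgClosed (algebraicClosure k Ω) := hac.1
  have hch : CharZero (algebraicClosure k Ω) :=
    charZero_of_injective_algebraMap (algebraMap k (algebraicClosure k Ω)).injective
  have hX0 : Transcendental k (algebraMap F Ω x) :=
    (transcendental_algebraMap_iff (R := k) (algebraMap F Ω).injective (a := x)).2 hx
  have hrat := ratF_adj (trans_up hX0)
  obtain ⟨Y0, hY0⟩ : ∃ Y0 : Ω, Y0 = (δ : Ω) * algebraMap F Ω y := ⟨_, rfl⟩
  rw [← hY0] at hY
  have hYR : Y0 ^ ℓ ∈ IntermediateField.adjoin (algebraicClosure k Ω) {algebraMap F Ω x} := by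
    rw [hY]
    exact prod_mem fun e _ => sub_mem (IntermediateField.mem_adjoin_simple_self _ _)
      (IntermediateField.algebraMap_mem _ e)
  have hclR := closure_R hF δ hδ0 hℓ.out.pos (by rw [← hY0]; exact hYR)
  obtain ⟨R, hR⟩ : ∃ R : IntermediateField (algebraicClosure k Ω) Ω,
      R = IntermediateField.adjoin (algebraicClosure k Ω) {algebraMap F Ω x} := ⟨_, rfl⟩
  obtain ⟨M, hM⟩ : ∃ M : IntermediateField
      (IntermediateField.adjoin (algebraicClosure k Ω) {algebraMap F Ω x}) Ω,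
      ∀ z, z ∈ M ↔ z ∈ maxPro ℓ (algebraicClosure k Ω) (IntermediateField.adjoin
        (IntermediateField.adjoin (algebraicClosure k Ω) {algebraMap F Ω x}) {Y0}) Ω :=
    ⟨(maxPro ℓ (algebraicClosure k Ω) (IntermediateField.adjoin
        (IntermediateField.adjoin (algebraicClosure k Ω) {algebraMap F Ω x}) {Y0})
        Ω).restrictScalars _, fun z => Iff.rfl⟩
  have hYM : Y0 ∈ M := by
    rw [hM]
    exact (maxPro ℓ (algebraicClosure k Ω) (IntermediateField.adjoin
      (IntermediateField.adjoin (algebraicClosure k Ω) {algebraMap F Ω x}) {Y0})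
      Ω).algebraMap_mem ⟨Y0, IntermediateField.mem_adjoin_simple_self _ _⟩
  have hCov : Cov ℓ (algebraicClosure k Ω)
      (IntermediateField.adjoin (algebraicClosure k Ω) {algebraMap F Ω x}) M
      ⟨algebraMap F Ω x, IntermediateField.mem_adjoin_simple_self _ _⟩ B ⟨Y0, hYM⟩ :=
    a_cov ℓ (algebraicClosure k Ω)
      (IntermediateField.adjoin (algebraicClosure k Ω) {algebraMap F Ω x}) Ω
      ⟨algebraMap F Ω x, IntermediateField.mem_adjoin_simple_self _ _⟩ hrat B hdvd h3 Y0 hY M hM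
      ⟨Y0, hYM⟩ rfl
  have hMN : ∀ z, z ∈ M ↔ z ∈ geomPro ℓ k F Ω := fun z => (hM z).trans (by
    rw [hY0]
    exact maxPro_geom ℓ k hF δ hδ0 z)
  let eqv : M ≃+* geomPro ℓ k F Ω :=
    { toFun := fun w => ⟨w.1, (hMN _).1 w.2⟩
      invFun := fun w => ⟨w.1, (hMN _).2 w.2⟩
      left_inv := fun w => rfl
      right_inv := fun w => rfl
      map_mul' := fun w w' => rfl
      map_add' := fun w w' => rfl }
  exact ⟨_, M, inferInstance, inferInstance, inferInstance, inferInstance, inferInstance,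
    inferInstance, _, _, eqv, hCov, fun c => rfl, rfl, hY0⟩

/-- the action attached to a section -/
theorem sec_of {ℓ : ℕ} {δ : algebraicClosure k Ω}
    (hδ0 : δ ≠ 0) {x y : F} {R M : Type} [Field R] [Field M] [Algebra (algebraicClosure k Ω) R]
    [Algebra R M] [Algebra (algebraicClosure k Ω) M] {x' : R} {Y : M}
    {eqv : M ≃+* geomPro ℓ k F Ω}
    (hc : ∀ c : algebraicClosure k Ω, ((eqv (algebraMap (algebraicClosure k Ω) M c) :
        geomPro ℓ k F Ω) : Ω) = (c : Ω))
    (hx : ((eqv (algebraMap R M x') : geomPro ℓ k F Ω) : Ω) = algebraMap F Ω x)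
    (hy : ((eqv Y : geomPro ℓ k F Ω) : Ω) = (δ : Ω) * algebraMap F Ω y)
    (S : (algebraicClosure k Ω ≃ₐ[k] algebraicClosure k Ω) →*
      (geomPro ℓ k F Ω ≃ₐ[F] geomPro ℓ k F Ω)) (hcont : Continuous S)
    (hcompat : ∀ σ (c : algebraicClosure k Ω) (z : geomPro ℓ k F Ω), (z : Ω) = (c : Ω) →
      (S σ z : Ω) = (σ c : Ω)) :
    Sec k (algebraicClosure k Ω) R M x' Y δ (conjSec eqv S) := by
  have hs' : ∀ σ z, eqv (conjSec eqv S σ z) = S σ (eqv z) := fun σ z => conjSec_apply eqv S σ z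
  have hconst : ∀ σ c, conjSec eqv S σ (algebraMap (algebraicClosure k Ω) M c) =
      algebraMap (algebraicClosure k Ω) M (σ c) := by
    intro σ c
    apply eqv.injective
    apply Subtype.ext
    rw [hs', hc, hcompat σ c _ (hc c)]
  have hbase : ∀ σ (z : F) (w : M), ((eqv w : geomPro ℓ k F Ω) : Ω) = algebraMap F Ω z →
      conjSec eqv S σ w = w := by
    intro σ z w hw
    apply eqv.injective
    have h1 : eqv w = algebraMap F (geomPro ℓ k F Ω) z := Subtype.ext hw
    rw [hs', h1]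
    exact (S σ).commutes z
  refine ⟨hconst, fun σ => hbase σ x _ hx, fun σ => ?_, fun z => ?_⟩
  · obtain ⟨w, hw⟩ : ∃ w : M, ((eqv w : geomPro ℓ k F Ω) : Ω) = algebraMap F Ω y :=
      ⟨eqv.symm (algebraMap F (geomPro ℓ k F Ω) y), by rw [eqv.apply_symm_apply]; rfl⟩
    have hyY : Y = algebraMap (algebraicClosure k Ω) M δ * w := by
      apply eqv.injective
      apply Subtype.ext
      rw [hy, map_mul]
      change _ = ((eqv (algebraMap (algebraicClosure k Ω) M δ) : geomPro ℓ k F Ω) : Ω) *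
        ((eqv w : geomPro ℓ k F Ω) : Ω)
      rw [hc, hw]
    have h2 : algebraMap (algebraicClosure k Ω) M (σ δ / δ) * Y =
        algebraMap (algebraicClosure k Ω) M (σ δ) * w := by
      rw [hyY, ← mul_assoc, ← map_mul, div_mul_cancel₀ _ hδ0]
    rw [h2]
    conv_lhs => rw [hyY]
    rw [map_mul, hconst, hbase σ y w hw]
  · obtain ⟨E, hE, hE'⟩ := cont_fix S hcont (eqv z)
    refine ⟨E, hE, fun σ hσ => eqv.injective ?_⟩
    rw [hs', hE' σ hσ]

end glue

end Pool.Agent.Y158.GR
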