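import Pool.Agent.Y158.GR.Glb
import Pool.Agent.Y158.GR.Rig
import Pool.Agent.Y158.K2.Core

/-!
# The fixed field of a section: Kummer theory and the Gauss valuations
-/

set_option autoImplicit false
set_option linter.all false

open Polynomial FF Pool.Agent.Y157.PS IsDedekindDomain NumberField

namespace Pool.Agent.Y158.GR

theorem isU_comap {L M : Type} [Field L] [Field M] (φ : L →+* M) (O : ValuationSubring M) (z : L) :
    (O.comap φ).valuation z = 1 ↔ IsU O (φ z) := by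
  rw [← Pool.Agent.Y655.PS.isU_iff]
  unfold IsU
  rw [ValuationSubring.mem_comap, ValuationSubring.mem_comap, map_inv₀, ne_eq, ne_eq,
    map_eq_zero_iff φ φ.injective]

theorem isU_of_val {L M : Type} [Field L] [Field M] (φ : L →+* M) (O : ValuationSubring M)
    {w t : L} (ht : t ≠ 0) {n : ℕ}
    (h : (O.comap φ).valuation w = (O.comap φ).valuation t ^ n) : IsU O (φ (w / t ^ n)) := by
  rw [← isU_comap, map_div₀, map_pow, h, div_self]
  exact pow_ne_zero _ ((Valuation.ne_zero_iff _).2 ht)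

theorem ord_of_isU {κ M : Type} [Field κ] [Field M] [Algebra κ M] (W : Place κ M) {z : M}
    (h : IsU W.O z) : W.ord z = 0 := by
  have h1 := (O_iff W h.1).1 h.2.1
  have h2 := (O_iff W (inv_ne_zero h.1)).1 h.2.2
  rw [W.ord_inv] at h2
  omega

variable {K κ : Type} [Field K] [NumberField K] [Field κ] [Algebra K κ] [IsAlgClosure K κ] {ℓ : ℕ}
  [hp : Fact ℓ.Prime] [hK : IsCyclotomicExtension {ℓ} ℚ K] {ζ : K} (hζ : IsPrimitiveRoot ζ ℓ)
  {R M : Type} [Field R] [Field M] [Algebra κ R] [Algebra R M] [Algebra κ M]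
  [IsScalarTower κ R M] {x : R} {B : Finset κ} {Y : M}

/-- `L` is the fixed field of the action `s` on `M` -/
structure Fx (s : (κ ≃ₐ[K] κ) →* RingAut M) {L : Type} [Field L] [Algebra K L] (φ : L →+* M) :
    Prop where
  const : ∀ c : K, φ (algebraMap K L c) = algebraMap κ M (algebraMap K κ c)
  fix : ∀ (l : L) (σ : κ ≃ₐ[K] κ), s σ (φ l) = φ l
  surj : ∀ z : M, (∀ σ, s σ z = z) → ∃ l, φ l = z

variable {s : (κ ≃ₐ[K] κ) →* RingAut M} {L : Type} [Field L] [Algebra K L] {φ : L →+* M}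

include hK hζ in
/-- Kummer theory for the fixed field -/
theorem kumG (hC : Cov ℓ κ R M x B Y) (hs : Act K κ R M x s) (hφ : Fx (κ := κ) s φ) :
    Pool.Agent.Y158.KL.Kum ℓ K L := by
  intro w hw hloc
  have : Algebra.IsAlgebraic K κ := IsAlgClosure.isAlgebraic
  have : IsAlgClosed κ := IsAlgClosure.isAlgClosed K
  have : Normal K κ := IsAlgClosure.normal K κ
  have : IsGalois K κ := IsGalois.mk
  have : CharZero κ := charZero_of_injective_algebraMap (algebraMap K κ).injective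
  have hℓ0 : ℓ ≠ 0 := hp.out.ne_zero
  have hμ := mu_fixed (κ := κ) hζ
  have hφw : φ w ≠ 0 := (map_ne_zero_iff _ φ.injective).2 hw
  obtain ⟨h, hh⟩ := hC.root (φ w) hφw (fun W => by
    obtain ⟨t, ht, hwt⟩ := hloc (W.O.comap φ) (fun c => by
      rw [ValuationSubring.mem_comap, hφ.const, Place.mem_O]
      exact W.reg_const _)
    have h1 := ord_of_isU W (isU_of_val φ W.O ht hwt)
    have hφt : φ t ≠ 0 := (map_ne_zero_iff _ φ.injective).2 ht
    rw [map_div₀, map_pow, W.ord_div hφw (pow_ne_zero _ hφt), W.ord_pow] at h1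
    exact ⟨W.ord (φ t), by linarith⟩)
  have hh0 : h ≠ 0 := by
    rintro rfl
    rw [zero_pow hℓ0] at hh
    exact hφw hh.symm
  have h1 : ∀ σ : κ ≃ₐ[K] κ, ∃ c : κ, c ^ ℓ = 1 ∧ s σ h = algebraMap κ M c * h := by
    intro σ
    have h2 : (s σ h / h) ^ ℓ = 1 := by
      rw [div_pow, ← map_pow, hh, hφ.fix, div_self hφw]
    obtain ⟨c, hc, hc'⟩ := Pool.Agent.Y748.PS.rou_const (κ := κ) hp.out.pos h2
    exact ⟨c, hc, by rw [hc', div_mul_cancel₀ _ hh0]⟩
  choose χ hχ1 hχ2 using h1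
  obtain ⟨E, hE, hE'⟩ := hs.cont h
  obtain ⟨c, hc, hcχ⟩ := Pool.Agent.Y655.PS.resolvent (⊤ : Subgroup (κ ≃ₐ[K] κ)) χ
    (fun σ _ h => by
      have := hχ1 σ
      rw [h, zero_pow hℓ0] at this
      exact zero_ne_one this)
    (fun σ _ σ' _ => by
      have e1 : s (σ * σ') h = s σ (s σ' h) := by rw [map_mul]; rfl
      rw [hχ2, hχ2 σ', map_mul, hs.const, hμ σ _ (hχ1 σ'), hχ2 σ, ← mul_assoc, ← map_mul] at e1
      rw [(algebraMap κ M).injective (mul_right_cancel₀ hh0 e1), mul_comm])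
    (fun σ _ σ' _ => hμ σ _ (hχ1 σ')) E (fun σ hσ _ => by
      have h3 := hE' σ hσ
      rw [hχ2] at h3
      have h4 : algebraMap κ M (χ σ) * h = algebraMap κ M 1 * h := by rw [h3, map_one, one_mul]
      exact (algebraMap κ M).injective (mul_right_cancel₀ hh0 h4))
  have hcM : algebraMap κ M c ≠ 0 := (map_ne_zero_iff _ (algebraMap κ M).injective).2 hc
  obtain ⟨g, hg⟩ := hφ.surj (h / algebraMap κ M c) (fun σ => by
    have hχ0 : algebraMap κ M (χ σ) ≠ 0 := by
      refine (map_ne_zero_iff _ (algebraMap κ M).injective).2 fun h3 => ?_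
      have := hχ1 σ
      rw [h3, zero_pow hℓ0] at this
      exact zero_ne_one this
    rw [map_div₀, hs.const, hcχ σ trivial, hχ2, map_mul, mul_div_mul_left _ _ hχ0])
  obtain ⟨a, ha⟩ : ∃ a : K, algebraMap K κ a = c ^ ℓ := by
    have h1 : c ^ ℓ ∈ (⊥ : IntermediateField K κ) := by
      rw [InfiniteGalois.mem_bot_iff_fixed]
      intro σ
      rw [map_pow, hcχ σ trivial, mul_pow, hχ1, one_mul]
    exact IntermediateField.mem_bot.1 h1
  refine ⟨a, ?_, g, ?_⟩
  · rintro rfl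
    rw [map_zero] at ha
    exact pow_ne_zero ℓ hc ha.symm
  · apply φ.injective
    rw [map_mul, map_pow, hφ.const, ha, hg, map_pow, ← mul_pow, mul_div_cancel₀ _ hcM, hh]

include hK hζ in
/-- the Gauss valuations -/
theorem datG (hC : Cov ℓ κ R M x B Y)
    (hGood : ∀ (v : HeightOneSpectrum (𝓞 K)) (V : ValuationSubring κ),
      v ≠ Pool.Agent.Y158.KL.lam hζ → Above v V → Good V B) {δ : κ} (hδ0 : δ ≠ 0)
    (hδ : ∀ (v : HeightOneSpectrum (𝓞 K)) (V : ValuationSubring κ),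
      v ≠ Pool.Agent.Y158.KL.lam hζ → Above v V → ∀ σ : κ ≃ₐ[K] κ, Ine V σ → σ δ = δ)
    (hs : Sec K κ R M x Y δ s) (hφ : Fx (κ := κ) s φ) : Pool.Agent.Y158.K2.Dat hζ L := by
  intro v hv
  have : Algebra.IsAlgebraic K κ := IsAlgClosure.isAlgebraic
  have : IsAlgClosed κ := IsAlgClosure.isAlgClosed K
  have : CharZero κ := charZero_of_injective_algebraMap (algebraMap K κ).injective
  have hℓ0 : ℓ ≠ 0 := hp.out.ne_zero
  have hℓv : (ℓ : 𝓞 K) ∉ v.asIdeal := by
    intro h1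
    have h2 := Pool.Agent.Y158.KL.other_pi hζ hv
    have h3 : v.intValuation (ℓ : 𝓞 K) = 1 := by
      rw [← Pool.Agent.Y158.KL.lam_assoc (v := v)
        (IsCyclotomicExtension.Rat.associated_zeta_sub_one_pow_prime ℓ hζ), map_pow, h2, one_pow]
    rw [HeightOneSpectrum.intValuation_eq_one_iff] at h3
    exact h3 h1
  obtain ⟨V, hV⟩ := exists_above (K := K) κ v
  obtain ⟨hl, -, O, hO, hu, hI⟩ := hV.wgt hℓv hC (hGood v V hv hV)
  have hI' := hI δ hδ0 (hδ v V hv hV) s hs
  refine ⟨O.comap φ, fun a ha => ?_, fun c g t hc hg ht hval => ?_⟩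
  · rw [isU_comap, Pool.Agent.Y158.KL.oo_apply, hφ.const, hO.isU, hV.isU,
      v.valuation_of_algebraMap, ha]
  · obtain ⟨α, hα⟩ := IsAlgClosed.exists_pow_nat_eq (algebraMap K κ c) hp.out.pos
    have hcκ : algebraMap K κ c ≠ 0 := (_root_.map_ne_zero _).2 hc
    have hα0 : α ≠ 0 := by
      rintro rfl
      rw [zero_pow hℓ0] at hα
      exact hcκ hα.symm
    have hαM : algebraMap κ M α ≠ 0 := (map_ne_zero_iff _ (algebraMap κ M).injective).2 hα0
    have hU : IsU O (algebraMap κ M α * φ (g / t)) := by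
      refine isU_of_pow hp.out.pos ?_
      have h1 := isU_of_val φ O ht hval
      have h2 : (algebraMap κ M α * φ (g / t)) ^ ℓ = φ (algebraMap K L c * g ^ ℓ / t ^ ℓ) := by
        rw [mul_pow, ← map_pow, hα, ← hφ.const, ← map_pow, ← map_mul, div_pow, mul_div_assoc]
      rw [h2]
      exact h1
    have hfix : ∀ σ : κ ≃ₐ[K] κ, Ine V σ → σ α = α := by
      intro σ hσ
      have h1 := hI' σ hσ _ hU.2.1
      have h2 : s σ (algebraMap κ M α * φ (g / t)) - algebraMap κ M α * φ (g / t) =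
          (algebraMap κ M α * φ (g / t)) * algebraMap κ M (σ α / α - 1) := by
        rw [map_mul, hs.const, hφ.fix, map_sub (algebraMap κ M), map_div₀ (algebraMap κ M), map_one]
        field_simp
      rw [h2] at h1
      have h3 := non_of_isU_mul hU h1
      rw [hO.nonunit] at h3
      have h4 : (σ α / α) ^ ℓ = 1 := by
        rw [div_pow, ← map_pow, hα, σ.commutes, div_self hcκ]
      have h5 := Pool.Agent.Y748.PS.rou_eq_one hl h4 h3
      exact (div_eq_one_iff_eq hα0).1 h5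
    obtain ⟨t', ht'⟩ := hV.pow hℓv hα0 hfix hα.symm
    exact ⟨_, ht'⟩

end Pool.Agent.Y158.GR
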