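import Pool.Agent.Y158.GR.Glb
import Pool.Agent.Y158.KL.Sec

/-!
# Local points of a section
-/

set_option autoImplicit false
set_option linter.all false

open Polynomial Pool.Agent.TH954

namespace Pool.Agent.Y158.GR

section

variable {K F N κ Lv C : Type} [Field K] [Field F] [Field N] [Field κ] [Field Lv] [Field C]
  [Algebra K F] [Algebra F N] [Algebra K N] [IsScalarTower K F N] [Algebra K κ] [Algebra K Lv]
  [Algebra Lv C] [Algebra K C] [IsScalarTower K Lv C] [Algebra.IsAlgebraic K κ]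

/-- the fixed field -/
def fixL (s : GalSection K F N κ) : IntermediateField K N where
  carrier := {z | ∀ σ, s.s σ z = z}
  mul_mem' := by
    intro a b ha hb σ
    rw [map_mul, ha σ, hb σ]
  one_mem' := fun σ => map_one _
  add_mem' := by
    intro a b ha hb σ
    rw [map_add, ha σ, hb σ]
  zero_mem' := fun σ => map_zero _
  algebraMap_mem' := by
    intro c σ
    rw [IsScalarTower.algebraMap_apply K F N, (s.s σ).commutes]
  inv_mem' := by
    intro a ha σ
    rw [map_inv₀, ha σ]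

theorem mem_fixL {s : GalSection K F N κ} {z : N} : z ∈ fixL s ↔ ∀ σ, s.s σ z = z := Iff.rfl

theorem F_fixL (s : GalSection K F N κ) (z : F) : algebraMap F N z ∈ fixL s :=
  fun σ => (s.s σ).commutes z

variable {s : GalSection K F N κ} {p : Plc K N C}

theorem iot_val (s : GalSection K F N κ) (p : Plc K N C) (z : κ) : p.val (s.j z) (p.iot s.j z) :=
  p.iot_spec s.j z

/-- the local automorphisms turn values into values -/
theorem given_val (hp : s.GivenBy Lv p) {σ : κ ≃ₐ[K] κ} {τ : C ≃ₐ[Lv] C}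
    (h : ∀ z, p.iot s.j (σ z) = τ (p.iot s.j z)) {x : N} {c : C} (hx : p.val x c) :
    p.val (s.s σ x) (τ c) := by
  refine hp τ σ (fun z c hc => ?_) x c hx
  have h1 := (iot_val s p z).unique hc
  rw [← h1, ← h]
  exact iot_val s p (σ z)

theorem given_mem (hp : s.GivenBy Lv p) {σ : κ ≃ₐ[K] κ} (h : DecL Lv (p.iot s.j) σ) (x : N) :
    s.s σ x ∈ p.W ↔ x ∈ p.W := by
  have key : ∀ σ : κ ≃ₐ[K] κ, ∀ τ : C ≃ₐ[Lv] C,
      (∀ z, p.iot s.j (σ z) = τ (p.iot s.j z)) → ∀ x ∈ p.W, s.s σ x ∈ p.W := by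
    intro σ τ h x hx
    obtain ⟨c, hc⟩ := Plc.val_of_mem hx
    exact (given_val hp h hc).mem
  obtain ⟨τ, hτ⟩ := h
  refine ⟨fun hx => ?_, key σ τ hτ x⟩
  have h1 := key σ⁻¹ τ⁻¹ (by
    intro z
    have h2 := hτ (σ⁻¹ z)
    have h3 : σ (σ⁻¹ z) = z := σ.apply_symm_apply z
    rw [h3] at h2
    rw [h2]
    exact (τ.symm_apply_apply _).symm) _ hx
  have h4 : s.s σ⁻¹ (s.s σ x) = x := by
    rw [map_inv]
    exact (s.s σ).symm_apply_apply x
  rwa [h4] at h1

/-- the values of the elements of the fixed field -/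
theorem fixL_val [Normal K κ] [CharZero Lv] [IsAlgClosure Lv C] (hp : s.GivenBy Lv p) (x : N)
    (hx : x ∈ fixL s) (hxW : x ∈ p.W) : ∃ z : Lv, algebraMap Lv C z = p.ρ ⟨x, hxW⟩ := by
  have : Algebra.IsAlgebraic Lv C := IsAlgClosure.isAlgebraic
  have : IsAlgClosed C := IsAlgClosure.isAlgClosed Lv
  have : IsGalois Lv C := ⟨⟩
  have h1 : p.ρ ⟨x, hxW⟩ ∈ (⊥ : IntermediateField Lv C) := by
    rw [InfiniteGalois.mem_bot_iff_fixed]
    intro τ
    obtain ⟨σ, hσ⟩ := exists_decL (p.iot s.j) τ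
    have h2 : p.val x (p.ρ ⟨x, hxW⟩) := ⟨hxW, rfl⟩
    have h3 := given_val hp hσ h2
    rw [hx σ] at h3
    exact h3.unique h2
  exact IntermediateField.mem_bot.1 h1

/-- the place of the fixed field with values in the local field -/
noncomputable def plcL [Normal K κ] [CharZero Lv] [IsAlgClosure Lv C] (hp : s.GivenBy Lv p) :
    Plc K (fixL s) Lv :=
  Pool.Agent.Y158.KL.subPlc (fixL s) p (fixL_val hp)

theorem plcL_val [Normal K κ] [CharZero Lv] [IsAlgClosure Lv C] {hp : s.GivenBy Lv p}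
    {x : fixL s} {c : Lv} (hx : (plcL hp).val x c) : p.val (x : N) (algebraMap Lv C c) :=
  Pool.Agent.Y158.KL.subPlc_val hx

end

end Pool.Agent.Y158.GR
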