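import Pool.Agent.Y158.GR.Glue
import Pool.Agent.Y158.GR.PlcL
import Pool.Agent.Y158.GR.KumD
import Pool.Agent.Y158.K2.Main

/-!
# Sections for the Fermat curve of regular prime exponent
-/

set_option autoImplicit false
set_option linter.all false

open Polynomial FF Pool.Agent.Y157.PS Pool.Agent.TH954 IsDedekindDomain NumberField

namespace Pool.Agent.Y158.GR

open Pool.Agent.Y158.KL (lam Kl KLem)

section

variable {K : Type} [Field K] [NumberField K] {ℓ : ℕ}
  [hp : Fact ℓ.Prime] [hK : IsCyclotomicExtension {ℓ} ℚ K] {ζ : K} (hζ : IsPrimitiveRoot ζ ℓ)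

include hK hζ in
theorem ell_notMem {v : HeightOneSpectrum (𝓞 K)} (hv : v ≠ lam hζ) : (ℓ : 𝓞 K) ∉ v.asIdeal := by
  intro h1
  have h2 := Pool.Agent.Y158.KL.other_pi hζ hv
  have h3 : v.intValuation (ℓ : 𝓞 K) = 1 := by
    rw [← Pool.Agent.Y158.KL.lam_assoc (v := v)
      (IsCyclotomicExtension.Rat.associated_zeta_sub_one_pow_prime ℓ hζ), map_pow, h2, one_pow]
  rw [HeightOneSpectrum.intValuation_eq_one_iff] at h3
  exact h3 h1

include hK hζ in
/-- there is a place which does not divide `ℓ` -/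
theorem exists_other (hodd : Odd ℓ) : ∃ v : HeightOneSpectrum (𝓞 K), v ≠ lam hζ := by
  have h2 : ¬ IsUnit (2 : 𝓞 K) := by
    intro h
    have h1 := (NumberField.isUnit_iff_norm (K := K) (x := (2 : 𝓞 K))).1 h
    have e : ((2 : 𝓞 K) : K) = algebraMap ℚ K 2 := by
      rw [map_ofNat (algebraMap ℚ K)]
      exact map_ofNat (algebraMap (𝓞 K) K) 2
    rw [RingOfIntegers.coe_norm, e, Algebra.norm_algebraMap, abs_pow] at h1
    have h3 : (1 : ℚ) < |(2 : ℚ)| := by norm_num
    have h4 := one_lt_pow₀ h3 (Module.finrank_pos (R := ℚ) (M := K)).ne'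
    rw [h1] at h4
    exact lt_irrefl _ h4
  obtain ⟨I, hI, h2I⟩ := exists_max_ideal_of_mem_nonunits h2
  have hI0 : I ≠ ⊥ := by
    rintro rfl
    rw [Ideal.mem_bot] at h2I
    exact two_ne_zero h2I
  refine ⟨⟨I, hI.isPrime, hI0⟩, fun h => ?_⟩
  have h3 : (2 : 𝓞 K) ∈ (lam hζ).asIdeal := by rw [← h]; exact h2I
  have h4 : (ℓ : 𝓞 K) ∈ (lam hζ).asIdeal := by
    rw [← HeightOneSpectrum.intValuation_lt_one_iff_mem, Pool.Agent.Y158.KL.lam_ell,
      ← WithZero.exp_zero, WithZero.exp_lt_exp]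
    have := hp.out.two_le
    omega
  obtain ⟨m, hm⟩ := hodd
  have h5 : (1 : 𝓞 K) ∈ (lam hζ).asIdeal := by
    have e : (1 : 𝓞 K) = (ℓ : 𝓞 K) - 2 * m := by
      rw [hm]
      push_cast
      ring
    rw [e]
    exact sub_mem h4 (Ideal.mul_mem_right _ _ h3)
  exact (lam hζ).isPrime.ne_top ((Ideal.eq_top_iff_one _).2 h5)

variable {κ : Type} [Field κ] [Algebra K κ]

include hK in
/-- the roots of unity are distinct modulo the places which do not divide `ℓ` -/
theorem good_mu {v : HeightOneSpectrum (𝓞 K)} (hv : v ≠ lam hζ) {V : ValuationSubring κ}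
    (hV : Above v V) : Good V (nthRootsFinset ℓ (1 : κ)) := by
  have hζκ : IsPrimitiveRoot (algebraMap K κ ζ) ℓ := hζ.map_of_injective (algebraMap K κ).injective
  haveI : NeZero ℓ := ⟨hp.out.ne_zero⟩
  have hmem : ∀ e ∈ nthRootsFinset ℓ (1 : κ), ∃ i : ℕ,
      e = algebraMap K κ (algebraMap (𝓞 K) K (hζ.toInteger ^ i)) := by
    intro e he
    rw [mem_nthRootsFinset hp.out.pos] at he
    obtain ⟨i, -, hi⟩ := hζκ.eq_pow_of_pow_eq_one he
    refine ⟨i, ?_⟩
    rw [← hi, ← map_pow, map_pow (algebraMap (𝓞 K) K)]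
    rfl
  refine ⟨fun e he => ?_, fun e he e' he' hne => ?_⟩
  · obtain ⟨i, rfl⟩ := hmem e he
    rw [hV, v.valuation_of_algebraMap]
    exact v.intValuation_le_one _
  · obtain ⟨i, rfl⟩ := hmem e he
    obtain ⟨j, rfl⟩ := hmem e' he'
    have hij : hζ.toInteger ^ i ≠ hζ.toInteger ^ j := fun h => hne (by rw [h])
    rw [← map_sub, ← map_sub, hV.isU, v.valuation_of_algebraMap,
      ← Pool.Agent.Y158.KL.lam_assoc (Pool.Agent.Y158.KL.diff_assoc hζ hij),
      Pool.Agent.Y158.KL.other_pi hζ hv]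

end

section

variable {K : Type} [Field K] [NumberField K] {ℓ : ℕ}
  [hp : Fact ℓ.Prime] [hK : IsCyclotomicExtension {ℓ} ℚ K] {ζ : K} (hζ : IsPrimitiveRoot ζ ℓ)
  {F Ω : Type} [Field F] [Field Ω] [Algebra K F] [Algebra F Ω] [Algebra K Ω]
  [IsScalarTower K F Ω] [IsAlgClosed Ω] [Algebra.IsAlgebraic F Ω]

include hK hζ in
/-- the covering field of the Fermat curve -/
theorem ferSetup (hodd : Odd ℓ) (x y : F) (hx : Transcendental K x)
    (hF : IntermediateField.adjoin K {x, y} = (⊤ : IntermediateField K F))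
    (hxy : x ^ ℓ + y ^ ℓ = 1) :
    ∃ (R M : Type) (_ : Field R) (_ : Field M) (_ : Algebra (algebraicClosure K Ω) R)
      (_ : Algebra R M) (_ : Algebra (algebraicClosure K Ω) M)
      (_ : IsScalarTower (algebraicClosure K Ω) R M) (x' : R) (Y : M)
      (eqv : M ≃+* geomPro ℓ K F Ω),
      Cov ℓ (algebraicClosure K Ω) R M x' (nthRootsFinset ℓ (1 : algebraicClosure K Ω)) Y ∧
      (∀ c : algebraicClosure K Ω, ((eqv (algebraMap (algebraicClosure K Ω) M c) :
        geomPro ℓ K F Ω) : Ω) = (c : Ω)) ∧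
      ((eqv (algebraMap R M x') : geomPro ℓ K F Ω) : Ω) = algebraMap F Ω x ∧
      ((eqv Y : geomPro ℓ K F Ω) : Ω) = (((-1 : algebraicClosure K Ω)) : Ω) * algebraMap F Ω y := by
  have hζκ : IsPrimitiveRoot (algebraMap K (algebraicClosure K Ω) ζ) ℓ :=
    hζ.map_of_injective (algebraMap K _).injective
  have hζΩ : IsPrimitiveRoot (algebraMap (algebraicClosure K Ω) Ω
    (algebraMap K (algebraicClosure K Ω) ζ)) ℓ :=
    hζκ.map_of_injective (algebraMap (algebraicClosure K Ω) Ω).injective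
  have hcard : (nthRootsFinset ℓ (1 : algebraicClosure K Ω)).card = ℓ := hζκ.card_nthRootsFinset
  have hℓ3 : 3 ≤ ℓ := by
    have h2 := hp.out.two_le
    obtain ⟨t, ht⟩ := hodd
    omega
  refine glue (nthRootsFinset ℓ (1 : algebraicClosure K Ω)) (by rw [hcard]) (by rw [hcard]; exact hℓ3)
    (-1) (neg_ne_zero.2 one_ne_zero) x y hx hF ?_
  have h1 := X_pow_sub_one_eq_prod hp.out.pos hζκ
  have h2 := congrArg (fun P : (algebraicClosure K Ω)[X] =>
    P.eval₂ (algebraMap (algebraicClosure K Ω) Ω) (algebraMap F Ω x)) h1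
  simp only [eval₂_sub, eval₂_pow, eval₂_X, eval₂_one] at h2
  rw [eval₂_finsetProd] at h2
  simp only [eval₂_sub, eval₂_X, eval₂_C] at h2
  have h3 : ((-1 : algebraicClosure K Ω) : Ω) = -1 := by push_cast; rfl
  rw [h3, neg_one_mul, Odd.neg_pow hodd]
  have h4 := congrArg (algebraMap F Ω) hxy
  rw [map_add, map_pow, map_pow, map_one] at h4
  have h5 : -(algebraMap F Ω y) ^ ℓ = (algebraMap F Ω x) ^ ℓ - 1 := by linear_combination -h4
  rw [h5, h2]
  rfl

/-- the compatibility of the section -/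
theorem compat_of {N : IntermediateField F Ω} (s : GalSection K F N (algebraicClosure K Ω))
    (hj : ∀ z, ((s.j z : N) : Ω) = (z : Ω)) :
    ∀ σ (c : algebraicClosure K Ω) (z : N), (z : Ω) = (c : Ω) → (s.s σ z : Ω) = (σ c : Ω) := by
  intro σ c z hz
  have h1 : z = s.j c := Subtype.ext (hz.trans (hj c).symm)
  rw [h1, s.sec, hj]

variable {C : Type} [Field C] [Algebra (Kl hζ) C] [Algebra K C] [IsScalarTower K (Kl hζ) C]
  [IsAlgClosure (Kl hζ) C]

include hK hζ in
/-- **a section which is given locally at the prime above `ℓ` by a point with `y = 0` comes from this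
point** -/
theorem ferB (hodd : Odd ℓ) (hcop : (classNumber K).Coprime ℓ) (hKL : KLem ℓ K) (x y : F)
    (hx : Transcendental K x)
    (hF : IntermediateField.adjoin K {x, y} = (⊤ : IntermediateField K F))
    (hxy : x ^ ℓ + y ^ ℓ = 1) (s : GalSection K F (geomPro ℓ K F Ω) (algebraicClosure K Ω))
    (hj : ∀ z, ((s.j z : geomPro ℓ K F Ω) : Ω) = (z : Ω)) (p : Plc K (geomPro ℓ K F Ω) C)
    (hpv : s.GivenBy (Kl hζ) p) (hy : p.val (algebraMap F (geomPro ℓ K F Ω) y) 0) :
    ∀ σ z, s.s σ z ∈ p.W ↔ z ∈ p.W := by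
  classical
  have hac : IsAlgClosure K (algebraicClosure K Ω) := inferInstance
  have hkb : IsAlgClosed (algebraicClosure K Ω) := hac.1
  have hch : CharZero (algebraicClosure K Ω) :=
    charZero_of_injective_algebraMap (algebraMap K (algebraicClosure K Ω)).injective
  have hcz : CharZero (Kl hζ) :=
    charZero_of_injective_algebraMap (Pool.Agent.Y158.KL.cm hζ).injective
  have hkalg : Algebra.IsAlgebraic K (algebraicClosure K Ω) := inferInstance
  have hℓ0 : ℓ ≠ 0 := hp.out.ne_zero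
  obtain ⟨R, M, i1, i2, i3, i4, i5, i6, x', Y, eqv, hC, hc, hx', hy'⟩ :=
    ferSetup (Ω := Ω) hζ hodd x y hx hF hxy
  have hcompat := compat_of s hj
  have hSec := sec_of (neg_ne_zero.2 one_ne_zero) hc hx' hy' s.s s.cont hcompat
  set sA := conjSec eqv s.s with hsA
  have hs' : ∀ σ z, eqv (sA σ z) = s.s σ (eqv z) := fun σ z => conjSec_apply eqv s.s σ z
  have hAct := Act.of_sec hSec
  have hsY : ∀ σ, sA σ Y = Y := by
    intro σ
    rw [hSec.fixy, map_neg, map_one, div_self (neg_ne_zero.2 one_ne_zero), map_one, one_mul]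
  have hcj : ∀ c : algebraicClosure K Ω, eqv (algebraMap (algebraicClosure K Ω) M c) = s.j c :=
    fun c => Subtype.ext ((hc c).trans (hj c).symm)
  have hx0 : eqv (algebraMap R M x') = algebraMap F (geomPro ℓ K F Ω) x := Subtype.ext hx'
  -- `y ≠ 0`
  have hy0 : y ≠ 0 := by
    rintro rfl
    rw [zero_pow hℓ0, add_zero] at hxy
    apply hx
    refine ⟨X ^ ℓ - 1, (monic_X_pow_sub_C (1 : K) hℓ0).ne_zero, ?_⟩
    simp [hxy]
  -- the valuation ring
  have hmem : ∀ z : M, z ∈ p.W.comap (eqv : M →+* geomPro ℓ K F Ω) ↔ eqv z ∈ p.W :=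
    fun z => Iff.rfl
  have hnon : ∀ z : M, z ∈ (p.W.comap (eqv : M →+* geomPro ℓ K F Ω)).nonunits ↔
      eqv z ∈ p.W.nonunits := fun z => comap_non eqv p.W z
  have hval0 : ∀ z : geomPro ℓ K F Ω, p.val z 0 → z ∈ p.W.nonunits := by
    intro z hz
    rw [nonunits_iff]
    refine ⟨hz.mem, ?_⟩
    by_cases h0 : z = 0
    · exact Or.inl h0
    · right
      intro h1
      obtain ⟨c, hc1⟩ := Plc.val_of_mem h1
      have h2 := hz.mul hc1
      rw [mul_inv_cancel₀ h0, zero_mul] at h2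
      exact zero_ne_one (h2.unique Plc.val_one)
  obtain ⟨W, hWO, -⟩ := hC.loc (p.W.comap (eqv : M →+* geomPro ℓ K F Ω)) (fun c => by
    rw [hmem, hcj]
    exact (iot_val s p c).mem) (by
    intro htop
    have h1 := hval0 _ hy
    have h2 : eqv.symm (algebraMap F (geomPro ℓ K F Ω) y) ∈
        (p.W.comap (eqv : M →+* geomPro ℓ K F Ω)).nonunits := by
      rw [hnon, eqv.apply_symm_apply]
      exact h1
    rw [htop, nonunits_iff] at h2
    rcases h2.2 with h3 | h3
    · have h4 : algebraMap F (geomPro ℓ K F Ω) y = 0 := by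
        rw [← eqv.apply_symm_apply (algebraMap F (geomPro ℓ K F Ω) y), h3, map_zero]
      exact hy0 ((map_eq_zero _).1 h4)
    · exact h3 trivial)
  -- the value of `x`
  obtain ⟨e, he, hWe⟩ : ∃ e ∈ nthRootsFinset ℓ (1 : algebraicClosure K Ω),
      0 < W.ord (algebraMap R M x' - algebraMap (algebraicClosure K Ω) M e) := by
    have hxW : algebraMap F (geomPro ℓ K F Ω) x ∈ p.W := by
      apply Plc.mem_of_pow_mem hp.out.pos
      have e : algebraMap F (geomPro ℓ K F Ω) x ^ ℓ =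
          1 - algebraMap F (geomPro ℓ K F Ω) y ^ ℓ := by
        rw [← map_pow, ← map_pow, ← map_one (algebraMap F (geomPro ℓ K F Ω)), ← map_sub]
        congr 1
        linear_combination hxy
      rw [e]
      exact sub_mem (one_mem _) (pow_mem hy.mem _)
    obtain ⟨ξ, hξ⟩ := Plc.val_of_mem hxW
    have hξ1 : ξ ^ ℓ = 1 := by
      have h1 := (hξ.pow ℓ).add (hy.pow ℓ)
      have h2 : algebraMap F (geomPro ℓ K F Ω) x ^ ℓ + algebraMap F (geomPro ℓ K F Ω) y ^ ℓ = 1 := by
        rw [← map_pow, ← map_pow, ← map_add, hxy, map_one]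
      rw [h2, zero_pow hℓ0, add_zero] at h1
      exact h1.unique Plc.val_one
    haveI : NeZero ℓ := ⟨hℓ0⟩
    have hζC : IsPrimitiveRoot (p.iot s.j (algebraMap K (algebraicClosure K Ω) ζ)) ℓ :=
      (hζ.map_of_injective (algebraMap K (algebraicClosure K Ω)).injective).map_of_injective
        (p.iot s.j).injective
    obtain ⟨i, -, hi⟩ := hζC.eq_pow_of_pow_eq_one hξ1
    refine ⟨(algebraMap K (algebraicClosure K Ω) ζ) ^ i, ?_, ?_⟩
    · rw [mem_nthRootsFinset hp.out.pos, ← map_pow, ← map_pow, ← pow_mul, mul_comm, pow_mul,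
        hζ.pow_eq_one, one_pow, map_one]
    · have hne : algebraMap R M x' - algebraMap (algebraicClosure K Ω) M
          ((algebraMap K (algebraicClosure K Ω) ζ) ^ i) ≠ 0 := by
        intro h0
        have h2 : Transcendental (algebraicClosure K Ω) (algebraMap R M x') :=
          (transcendental_algebraMap_iff (algebraMap R M).injective).2 hC.rat.trans
        apply h2
        rw [sub_eq_zero.1 h0]
        exact isAlgebraic_algebraMap _
      rw [← O_non_iff W hne, hWO, hnon]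
      apply hval0
      rw [map_sub, hx0, hcj]
      have h1 := hξ.sub (iot_val s p ((algebraMap K (algebraicClosure K Ω) ζ) ^ i))
      rw [map_pow (p.iot s.j), hi, sub_self] at h1
      exact h1
  -- the inertia generator
  obtain ⟨v₁, hv₁⟩ := exists_other hζ hodd
  obtain ⟨V₁, hV₁⟩ := exists_above (K := K) (algebraicClosure K Ω) v₁
  obtain ⟨-, hrot, -⟩ := hV₁.wgt (ell_notMem hζ hv₁) hC (good_mu hζ hv₁ hV₁)
  obtain ⟨c, hcW, hcY⟩ := exists_rot' hC hrot W he hWe
  have hμ := mu_fixed (κ := algebraicClosure K Ω) hζ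
  have hst : sA = cjA c sA := by
    refine rigid hkalg hC (fun σ e he => hμ σ e ((mem_nthRootsFinset hp.out.pos _).1 he)) hμ hAct
      (cjA_act c hAct) fun χ hχ1 hχ2 hχ3 hχ4 => ?_
    refine glb hζ hcop hKL (p.iot s.j) χ hχ1 hχ2 hχ3 (fun v hv => ?_) fun σ hσ => ?_
    · obtain ⟨V, hV⟩ := exists_above (K := K) (algebraicClosure K Ω) v
      obtain ⟨hl, -, O, hO, hu, hI⟩ := hV.wgt (ell_notMem hζ hv) hC (good_mu hζ hv hV)
      refine ⟨V, hV, fun σ hσ => hχ4 σ ?_⟩
      exact comm_of_ine hC hl hO hu hAct c (hI (-1) (neg_ne_zero.2 one_ne_zero)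
        (fun σ _ => by rw [map_neg, map_one]) sA hSec σ hσ)
    · refine hχ4 σ (comm_of_fixes hC hAct hμ W he hWe hcW (hsY σ) ?_)
      refine fixes_of_O W (sA σ) (σ : _ ≃+* _) (fun b => hAct.const σ b) fun z => ?_
      rw [hWO, hmem, hmem, hs']
      exact given_mem hpv hσ _
  intro σ z
  have h1 : sA σ = cjA c sA σ := by rw [← hst]
  have h2 := fixes_of_comm hC hAct W he hWe hcW hcY h1
  have h3 := O_of_fixes W (sA σ) h2 (eqv.symm z)
  rw [hWO, hmem, hmem, hs', eqv.apply_symm_apply] at h3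
  exact h3

end

end Pool.Agent.Y158.GR
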