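import Mathlib

/-!
# Automorphisms of `ℓ`-groups which are trivial modulo a nongenerating subgroup
-/

set_option autoImplicit false
set_option linter.all false

namespace Pool.Agent.Y158.GR

section

variable {G : Type} [Group G] [Finite G]

/-- an automorphism of prime order `q ≠ ℓ` of an `ℓ`-group which is trivial modulo a nongenerating
subgroup is trivial -/
theorem aut_prime {ℓ q : ℕ} [hℓ : Fact ℓ.Prime] [hq : Fact q.Prime] (hne : q ≠ ℓ) {m : ℕ}
    (hG : Nat.card G = ℓ ^ m) (Φ : Subgroup G)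
    (hΦ : ∀ K : Subgroup G, (∀ g : G, ∃ k ∈ K, g⁻¹ * k ∈ Φ) → K = ⊤)
    (β : G ≃* G) (hβ : ∀ g, g⁻¹ * β g ∈ Φ) (hβq : β ^ q = 1) : β = 1 := by
  classical
  let X := {f : G → G // ∀ g, g⁻¹ * f g ∈ Φ}
  have hfinX : Finite X := inferInstance
  letI : Fintype X := Fintype.ofFinite X
  have hΦβ : ∀ z ∈ Φ, β z ∈ Φ := by
    intro z hz
    have h1 := Φ.mul_mem hz (hβ z)
    rwa [mul_inv_cancel_left] at h1
  let act : (n : ℕ) → X → X := fun n f => ⟨fun g => (β ^ n) (f.1 g), by
    intro g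
    induction n with
    | zero => exact f.2 g
    | succ n ih =>
      have h1 : (β ^ (n + 1)) (f.1 g) = β ((β ^ n) (f.1 g)) := by rw [pow_succ']; rfl
      change g⁻¹ * (β ^ (n + 1)) (f.1 g) ∈ Φ
      change g⁻¹ * (β ^ n) (f.1 g) ∈ Φ at ih
      rw [h1]
      have h2 : g⁻¹ * β ((β ^ n) (f.1 g)) = (g⁻¹ * β g) * β (g⁻¹ * (β ^ n) (f.1 g)) := by
        rw [map_mul, map_inv]
        group
      rw [h2]
      exact Φ.mul_mem (hβ g) (hΦβ _ ih)⟩
  let F : Function.End X := act 1
  have hF : ∀ n : ℕ, F ^ n = act n := by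
    intro n
    induction n with
    | zero => rfl
    | succ n ih =>
      rw [pow_succ', ih]
      funext f
      apply Subtype.ext
      funext g
      change (β ^ 1) ((β ^ n) (f.1 g)) = (β ^ (n + 1)) (f.1 g)
      rw [pow_one, pow_succ']
      rfl
  have hFq : F ^ q ^ 1 = 1 := by
    rw [pow_one, hF]
    funext f
    apply Subtype.ext
    funext g
    change (β ^ q) (f.1 g) = f.1 g
    rw [hβq]
    rfl
  have hmod := Equiv.Perm.card_fixedPoints_modEq (f := F) (p := q) (n := 1) hFq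
  -- the cardinality of `X`
  have hcard : ∃ a : ℕ, Fintype.card X = ℓ ^ a := by
    have e : X ≃ (G → Φ) :=
      { toFun := fun f g => ⟨g⁻¹ * f.1 g, f.2 g⟩
        invFun := fun f => ⟨fun g => g * (f g : G), fun g => by
          rw [inv_mul_cancel_left]; exact (f g).2⟩
        left_inv := fun f => by
          apply Subtype.ext
          funext g
          exact mul_inv_cancel_left g _
        right_inv := fun f => by
          funext g
          apply Subtype.ext
          exact inv_mul_cancel_left g _ }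
    have h1 : Nat.card X = Nat.card Φ ^ Nat.card G := by
      rw [Nat.card_congr e, Nat.card_fun]
    obtain ⟨b, -, hb⟩ := (Nat.dvd_prime_pow hℓ.out).1 (hG ▸ Subgroup.card_subgroup_dvd_card Φ)
    refine ⟨b * Nat.card G, ?_⟩
    rw [← Nat.card_eq_fintype_card, h1, hb, ← pow_mul]
  have hnonempty : (Function.fixedPoints F).Nonempty := by
    by_contra hemp
    rw [Set.not_nonempty_iff_eq_empty] at hemp
    have h0 : Fintype.card (Function.fixedPoints F) = 0 := by
      rw [Fintype.card_eq_zero_iff, hemp]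
      exact Set.isEmpty_coe_sort.2 rfl
    rw [h0] at hmod
    obtain ⟨a, ha⟩ := hcard
    have h1 : q ∣ Fintype.card X := (Nat.modEq_zero_iff_dvd).1 hmod
    rw [ha] at h1
    exact hne ((Nat.prime_dvd_prime_iff_eq hq.out hℓ.out).1 (hq.out.dvd_of_dvd_pow h1))
  obtain ⟨f, hf⟩ := hnonempty
  have hf' : ∀ g, β (f.1 g) = f.1 g := by
    intro g
    have h1 : F f = f := hf
    have h2 := congrArg (fun f : X => f.1 g) h1
    exact h2
  have htop := hΦ (β.toMonoidHom.eqLocus (MonoidHom.id G)) (fun g => ⟨f.1 g, hf' g, f.2 g⟩)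
  ext g
  have : g ∈ β.toMonoidHom.eqLocus (MonoidHom.id G) := by rw [htop]; trivial
  exact this

/-- an automorphism of an `ℓ`-group which is trivial modulo a nongenerating subgroup has order a
power of `ℓ` -/
theorem aut_pow {ℓ : ℕ} [hℓ : Fact ℓ.Prime] {m : ℕ}
    (hG : Nat.card G = ℓ ^ m) (Φ : Subgroup G)
    (hΦ : ∀ K : Subgroup G, (∀ g : G, ∃ k ∈ K, g⁻¹ * k ∈ Φ) → K = ⊤)
    (α : G ≃* G) (hα : ∀ g, g⁻¹ * α g ∈ Φ) : ∃ n : ℕ, α ^ (ℓ ^ n) = 1 := by
  have hfin : Finite (G ≃* G) := Finite.of_injective (fun e : G ≃* G => (e : G → G))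
    (fun e e' h => MulEquiv.ext fun g => congrFun h g)
  have hpos : orderOf α ≠ 0 := (orderOf_pos α).ne'
  have hαΦ : ∀ z ∈ Φ, α z ∈ Φ := by
    intro z hz
    have h1 := Φ.mul_mem hz (hα z)
    rwa [mul_inv_cancel_left] at h1
  have hαn : ∀ (n : ℕ) (g : G), g⁻¹ * (α ^ n) g ∈ Φ := by
    intro n g
    induction n with
    | zero =>
      change g⁻¹ * g ∈ Φ
      rw [inv_mul_cancel]
      exact Φ.one_mem
    | succ n ih =>
      have h1 : (α ^ (n + 1)) g = α ((α ^ n) g) := by rw [pow_succ']; rfl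
      have h2 : g⁻¹ * α ((α ^ n) g) = (g⁻¹ * α g) * α (g⁻¹ * (α ^ n) g) := by
        rw [map_mul, map_inv]
        group
      rw [h1, h2]
      exact Φ.mul_mem (hα g) (hαΦ _ ih)
  have h := Nat.eq_prime_pow_of_unique_prime_dvd (n := orderOf α) (p := ℓ) hpos (by
    intro q hq hqd
    by_contra hne
    haveI : Fact q.Prime := ⟨hq⟩
    obtain ⟨j, hj⟩ := hqd
    have h1 := aut_prime (q := q) hne hG Φ hΦ (α ^ j) (hαn j) (by
      rw [← pow_mul, mul_comm, ← hj, pow_orderOf_eq_one])
    have h2 : orderOf α ∣ j := orderOf_dvd_of_pow_eq_one h1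
    have hj0 : 0 < j := by
      rcases Nat.eq_zero_or_pos j with h3 | h3
      · rw [h3, mul_zero] at hj
        exact absurd hj hpos
      · exact h3
    have h3 := Nat.le_of_dvd hj0 h2
    rw [hj] at h3
    have h4 := hq.two_le
    nlinarith)
  exact ⟨_, by rw [← h, pow_orderOf_eq_one]⟩

end

end Pool.Agent.Y158.GR
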