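import Pool.Agent.Y158.GR.Rat
import Pool.Agent.Y158.GR.Grp
import Pool.Agent.Y705.PS.PROL

/-!
# Powers of semilinear automorphisms commute with the Galois group of a level
-/

set_option autoImplicit false
set_option linter.all false

open Polynomial FF Pool.Agent.Y157.PS

namespace Pool.Agent.Y158.GR

section nongen

variable {R N : Type} [Field R] [Field N] [Algebra R N]

/-- the automorphisms which fix all `ℓ`-th roots of elements of `R` -/
def Phi (ℓ : ℕ) (R N : Type) [Field R] [Field N] [Algebra R N] : Subgroup (N ≃ₐ[R] N) where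
  carrier := {γ | ∀ η : N, (∃ r : R, algebraMap R N r = η ^ ℓ) → γ η = η}
  mul_mem' := by
    intro a b ha hb η hη
    rw [AlgEquiv.mul_apply, hb η hη, ha η hη]
  one_mem' := fun η _ => rfl
  inv_mem' := by
    intro a ha η hη
    have h1 := ha η hη
    have h2 : a⁻¹ (a η) = η := a.symm_apply_apply η
    rwa [h1] at h2

theorem mem_Phi {ℓ : ℕ} {γ : N ≃ₐ[R] N} : γ ∈ Phi ℓ R N ↔
    ∀ η : N, (∃ r : R, algebraMap R N r = η ^ ℓ) → γ η = η := Iff.rfl

/-- `Phi` is nongenerating -/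
theorem phi_nongen {ℓ : ℕ} [hℓ : Fact ℓ.Prime] [FiniteDimensional R N] [IsGalois R N] {ζ : R}
    (hζ : IsPrimitiveRoot ζ ℓ) {m : ℕ} (hm : Nat.card (N ≃ₐ[R] N) = ℓ ^ m)
    (K : Subgroup (N ≃ₐ[R] N)) (hK : ∀ g : N ≃ₐ[R] N, ∃ k ∈ K, g⁻¹ * k ∈ Phi ℓ R N) : K = ⊤ := by
  classical
  rcases eq_top_or_exists_le_coatom K with h | ⟨Q, hQ, hKQ⟩
  · exact h
  exfalso
  have hpg : IsPGroup ℓ (N ≃ₐ[R] N) := IsPGroup.of_card hm
  have hnil : Group.IsNilpotent (N ≃ₐ[R] N) := hpg.isNilpotent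
  have hQn : Q.Normal := Subgroup.NormalizerCondition.normal_of_coatom Q
    (normalizerCondition_of_isNilpotent) hQ
  have hidx : ∃ j : ℕ, Nat.card ((N ≃ₐ[R] N) ⧸ Q) = ℓ ^ (j + 1) := by
    obtain ⟨j, -, hj⟩ := (Nat.dvd_prime_pow hℓ.out).1 (hm ▸ Q.index_dvd_card)
    have h1 : Nat.card ((N ≃ₐ[R] N) ⧸ Q) = ℓ ^ j := by rw [← hj]; rfl
    rcases Nat.eq_zero_or_pos j with h0 | h0
    · exfalso
      rw [h0, pow_zero] at hj
      exact hQ.1 (Subgroup.index_eq_one.1 hj)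
    · exact ⟨j - 1, by rw [Nat.sub_add_cancel h0]; exact h1⟩
  obtain ⟨j, hj⟩ := hidx
  obtain ⟨χ0, hχ0⟩ := Pool.Agent.Y705.PS.exists_char ℓ hj hζ
  let χ : (N ≃ₐ[R] N) →* rootsOfUnity ℓ R := χ0.comp (QuotientGroup.mk' Q)
  have hχ : Function.Surjective χ := hχ0.comp (QuotientGroup.mk'_surjective Q)
  have hχQ : ∀ g ∈ Q, χ g = 1 := by
    intro g hg
    have h1 : QuotientGroup.mk' Q g = 1 := (QuotientGroup.eq_one_iff g).2 hg
    change χ0 (QuotientGroup.mk' Q g) = 1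
    rw [h1, map_one]
  let f : (N ≃ₐ[R] N) → Nˣ := fun σ => Units.map (algebraMap R N).toMonoidHom (χ σ : Rˣ)
  have hf : groupCohomology.IsMulCocycle₁ f := by
    intro g h
    ext
    have : g • (f h) = f h := by
      ext
      exact g.commutes _
    rw [this]
    simp only [f, map_mul, Subgroup.coe_mul, Units.val_mul, mul_comm]
  obtain ⟨β, hβ⟩ := groupCohomology.isMulCoboundary₁_of_isMulCocycle₁_of_aut_to_units f hf
  have h1 : ∀ σ : N ≃ₐ[R] N, σ (β : N) = (f σ : N) * β := by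
    intro σ
    have := hβ σ
    rw [div_eq_iff_eq_mul] at this
    have h2 := congrArg (fun u : Nˣ => (u : N)) this
    exact h2
  have h2 : ∃ r : R, algebraMap R N r = (β : N) ^ ℓ := by
    have h3 : (β : N) ^ ℓ ∈ (⊥ : IntermediateField R N) := by
      rw [IsGalois.mem_bot_iff_fixed]
      intro σ
      rw [map_pow, h1, mul_pow]
      have h4 : (f σ : N) ^ ℓ = 1 := by
        have h5 : ((χ σ : Rˣ)) ^ ℓ = 1 := (χ σ).2
        have h6 : (f σ) ^ ℓ = 1 := by
          simp only [f]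
          rw [← map_pow, h5, map_one]
        have := congrArg (fun u : Nˣ => (u : N)) h6
        simpa using this
      rw [h4, one_mul]
    exact IntermediateField.mem_bot.mp h3
  obtain ⟨σ, hσ⟩ := hχ ⟨hζ.isUnit hℓ.out.ne_zero |>.unit, by
    rw [mem_rootsOfUnity]
    ext
    simp [hζ.pow_eq_one]⟩
  obtain ⟨k, hk, hkΦ⟩ := hK σ
  have h3 := mem_Phi.1 hkΦ β h2
  have h4 : k (β : N) = σ β := by
    have h5 := congrArg σ h3
    rw [AlgEquiv.mul_apply] at h5
    have h6 : σ (σ⁻¹ (k (β : N))) = k β := σ.apply_symm_apply _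
    rw [h6] at h5
    exact h5
  have h5 : (f k : N) = 1 := by
    simp only [f, hχQ k (hKQ hk)]
    simp
  rw [h1, h1, h5] at h4
  have h6 : (f σ : N) = 1 := (mul_right_cancel₀ β.ne_zero h4).symm
  have h7 : algebraMap R N ζ = 1 := by
    rw [← h6]
    simp only [f, hσ]
    rfl
  have h8 : ζ = 1 := (algebraMap R N).injective (by rw [h7, map_one])
  rw [h8] at hζ
  exact hℓ.out.one_lt.ne' (hζ.unique IsPrimitiveRoot.one)

end nongen

section conj

variable {R N : Type} [Field R] [Field N] [Algebra R N]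

/-- conjugation by a ring automorphism of `N` which maps `R` to itself -/
def cj (φ : N ≃+* N) (h : ∀ r : R, ∃ r' : R, φ (algebraMap R N r) = algebraMap R N r')
    (h' : ∀ r : R, ∃ r' : R, φ.symm (algebraMap R N r) = algebraMap R N r') :
    (N ≃ₐ[R] N) ≃* (N ≃ₐ[R] N) where
  toFun γ := AlgEquiv.ofRingEquiv (f := (φ.symm.trans (γ : N ≃+* N)).trans φ) (by
    intro r
    obtain ⟨r', hr'⟩ := h' r
    change φ (γ (φ.symm (algebraMap R N r))) = _
    rw [hr', γ.commutes, ← hr', φ.apply_symm_apply])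
  invFun γ := AlgEquiv.ofRingEquiv (f := (φ.trans (γ : N ≃+* N)).trans φ.symm) (by
    intro r
    obtain ⟨r', hr'⟩ := h r
    change φ.symm (γ (φ (algebraMap R N r))) = _
    rw [hr', γ.commutes, ← hr', φ.symm_apply_apply])
  left_inv γ := by
    ext z
    change φ.symm (φ (γ (φ.symm (φ z)))) = γ z
    rw [φ.symm_apply_apply, φ.symm_apply_apply]
  right_inv γ := by
    ext z
    change φ (φ.symm (γ (φ (φ.symm z)))) = γ z
    rw [φ.apply_symm_apply, φ.apply_symm_apply]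
  map_mul' γ γ' := by
    ext z
    change φ (γ (γ' (φ.symm z))) = φ (γ (φ.symm (φ (γ' (φ.symm z)))))
    rw [φ.symm_apply_apply]

theorem cj_apply (φ : N ≃+* N) (h : ∀ r : R, ∃ r' : R, φ (algebraMap R N r) = algebraMap R N r')
    (h' : ∀ r : R, ∃ r' : R, φ.symm (algebraMap R N r) = algebraMap R N r') (γ : N ≃ₐ[R] N)
    (z : N) : cj φ h h' γ z = φ (γ (φ.symm z)) := rfl

theorem cj_pow (φ : N ≃+* N) (h : ∀ r : R, ∃ r' : R, φ (algebraMap R N r) = algebraMap R N r')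
    (h' : ∀ r : R, ∃ r' : R, φ.symm (algebraMap R N r) = algebraMap R N r') (n : ℕ)
    (γ : N ≃ₐ[R] N) (z : N) : ((cj φ h h') ^ n) γ ((φ ^ n : RingAut N) z) =
      (φ ^ n : RingAut N) (γ z) := by
  induction n with
  | zero => rfl
  | succ n ih =>
    have e1 : ((cj φ h h') ^ (n + 1)) γ = cj φ h h' (((cj φ h h') ^ n) γ) := by
      rw [pow_succ']; rfl
    have e2 : ∀ w : N, ((φ ^ (n + 1) : RingAut N)) w = φ ((φ ^ n : RingAut N) w) := by
      intro w
      rw [pow_succ']; rfl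
    rw [e1, e2, e2, cj_apply, φ.symm_apply_apply, ih]

end conj

section

variable {ℓ : ℕ} [hℓ : Fact ℓ.Prime] {κ R M : Type} [Field κ] [IsAlgClosed κ] [CharZero κ]
  [Field R] [Field M] [Algebra κ R] [Algebra R M] [Algebra κ M] [IsScalarTower κ R M] {x : R}
  {B : Finset κ} {Y : M} {k : Type} [Field k] [Algebra k κ]

theorem SA.inv {ψ : RingAut M} {σ : κ ≃ₐ[k] κ} (h : SA k x ψ σ) :
    SA k x (ψ⁻¹ : RingAut M) σ⁻¹ := by
  have e : ∀ z, (ψ⁻¹ : RingAut M) (ψ z) = z := fun z => ψ.symm_apply_apply z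
  refine ⟨fun c => ?_, ?_⟩
  · have h1 := h.const (σ⁻¹ c)
    have h2 : σ (σ⁻¹ c) = c := σ.apply_symm_apply c
    rw [h2] at h1
    rw [← h1, e]
  · conv_lhs => rw [← h.fixx]
    exact e _

theorem SA.one : SA k x (1 : RingAut M) (1 : κ ≃ₐ[k] κ) := ⟨fun c => rfl, rfl⟩

theorem SA.mul {ψ ψ' : RingAut M} {σ σ' : κ ≃ₐ[k] κ} (h : SA k x ψ σ) (h' : SA k x ψ' σ') :
    SA k x (ψ * ψ' : RingAut M) (σ * σ') := by
  refine ⟨fun c => ?_, ?_⟩
  · change ψ (ψ' (algebraMap κ M c)) = _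
    rw [h'.const, h.const]
    rfl
  · change ψ (ψ' (algebraMap R M x)) = _
    rw [h'.fixx, h.fixx]

/-- `ψ` maps `R` to itself -/
theorem SA.mapR (hR : RatF κ x) {ψ : M ≃+* M} {σ : κ ≃ₐ[k] κ} (h : SA k x ψ σ) (z : R) :
    ∃ z' : R, ψ (algebraMap R M z) = algebraMap R M z' := by
  have hz : z ∈ IntermediateField.adjoin κ {x} := by rw [hR.gen]; trivial
  induction hz using IntermediateField.adjoin_induction with
  | mem y hy =>
    rw [Set.mem_singleton_iff] at hy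
    subst hy
    exact ⟨y, h.fixx⟩
  | algebraMap c =>
    refine ⟨algebraMap κ R (σ c), ?_⟩
    rw [← IsScalarTower.algebraMap_apply, h.const, ← IsScalarTower.algebraMap_apply]
  | add a b _ _ ha hb =>
    obtain ⟨a', ha⟩ := ha
    obtain ⟨b', hb⟩ := hb
    exact ⟨a' + b', by rw [map_add, map_add, ha, hb, map_add]⟩
  | inv a _ ha =>
    obtain ⟨a', ha⟩ := ha
    exact ⟨a'⁻¹, by rw [map_inv₀, map_inv₀, ha, map_inv₀]⟩
  | mul a b _ _ ha hb =>
    obtain ⟨a', ha⟩ := ha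
    obtain ⟨b', hb⟩ := hb
    exact ⟨a' * b', by rw [map_mul, map_mul, ha, hb, map_mul]⟩

/-- **a power of `ψ` commutes with the Galois group of the level `N`** -/
theorem commute_pow (hC : Cov ℓ κ R M x B Y) {ψ : RingAut M} {σ : κ ≃ₐ[k] κ} (h : SA k x ψ σ)
    (hσB : ∀ e ∈ B, σ e = e) (hσμ : ∀ c : κ, c ^ ℓ = 1 → σ c = c) {N : IntermediateField R M}
    (hN : Lev ℓ N) (hψN : ∀ z, ψ z ∈ N ↔ z ∈ N) :
    ∃ n : ℕ, ∀ (γ : M ≃ₐ[R] M), ∀ z ∈ N,
      (ψ ^ (ℓ ^ n) : RingAut M) (γ z) = γ ((ψ ^ (ℓ ^ n) : RingAut M) z) := by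
  classical
  haveI := hN.fin
  haveI := hN.gal
  obtain ⟨m, hm⟩ := hN.card
  have hcard : Nat.card (N ≃ₐ[R] N) = ℓ ^ m := by rw [IsGalois.card_aut_eq_finrank, hm]
  -- the restriction of `ψ`
  let φ : N ≃+* N :=
    { toFun := fun z => ⟨ψ z, (hψN z).2 z.2⟩
      invFun := fun z => ⟨ψ.symm z, by rw [← hψN, RingEquiv.apply_symm_apply]; exact z.2⟩
      left_inv := fun z => Subtype.ext (ψ.symm_apply_apply _)
      right_inv := fun z => Subtype.ext (ψ.apply_symm_apply _)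
      map_mul' := fun z w => Subtype.ext (map_mul ψ _ _)
      map_add' := fun z w => Subtype.ext (map_add ψ _ _) }
  have hφ : ∀ z : N, ((φ z : N) : M) = ψ z := fun z => rfl
  have hφs : ∀ z : N, ((φ.symm z : N) : M) = (ψ⁻¹ : RingAut M) z := fun z => rfl
  have hφR : ∀ r : R, ∃ r' : R, φ (algebraMap R N r) = algebraMap R N r' := by
    intro r
    obtain ⟨r', hr'⟩ := h.mapR hC.rat r
    exact ⟨r', Subtype.ext hr'⟩
  have hφR' : ∀ r : R, ∃ r' : R, φ.symm (algebraMap R N r) = algebraMap R N r' := by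
    intro r
    obtain ⟨r', hr'⟩ := h.inv.mapR hC.rat r
    exact ⟨r', Subtype.ext hr'⟩
  have hprim : ∃ ζ : R, IsPrimitiveRoot ζ ℓ := by
    haveI : NeZero ℓ := ⟨hℓ.out.ne_zero⟩
    haveI : NeZero (ℓ : κ) := ⟨Nat.cast_ne_zero.2 hℓ.out.ne_zero⟩
    obtain ⟨ζ, hζ⟩ := HasEnoughRootsOfUnity.exists_primitiveRoot κ ℓ
    exact ⟨algebraMap κ R ζ, hζ.map_of_injective (algebraMap κ R).injective⟩
  obtain ⟨ζ, hζ⟩ := hprim
  -- the inverse fixes `B` and the roots of unity
  have hσB' : ∀ e ∈ B, σ⁻¹ e = e := by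
    intro e he
    have h1 : σ⁻¹ (σ e) = e := σ.symm_apply_apply e
    rwa [hσB e he] at h1
  obtain ⟨n, hn⟩ := aut_pow hcard (Phi ℓ R N) (fun K hK => phi_nongen hζ hcard K hK)
    (cj φ hφR hφR') (by
      intro g
      rw [mem_Phi]
      intro η hη
      by_cases hη0 : η = 0
      · rw [hη0, map_zero]
      have hη0' : (η : M) ≠ 0 := fun h0 => hη0 (Subtype.ext h0)
      obtain ⟨r, hr0, hr⟩ := SA.root hC h.inv hσB' (fun r => h.inv.mapR hC.rat r) hη0' (by
        obtain ⟨r, hr⟩ := hη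
        exact ⟨r, congrArg Subtype.val hr⟩)
      have e1 : φ.symm η = algebraMap R N r * η := Subtype.ext hr
      obtain ⟨f, hf⟩ := hη
      have h2 : (g η / η) ^ ℓ = 1 := by
        rw [div_pow, ← map_pow, ← hf, g.commutes, div_self]
        rw [hf]
        exact pow_ne_zero _ hη0
      obtain ⟨c, hc, hcN⟩ := Pool.Agent.Y748.PS.rou_const (κ := κ) (M := M) hℓ.out.pos
        (z := ((g η / η : N) : M)) (congrArg Subtype.val h2)
      have e2 : g η = algebraMap R N (algebraMap κ R c) * η := by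
        have h3 : g η / η = algebraMap R N (algebraMap κ R c) := by
          apply Subtype.ext
          rw [← hcN, IsScalarTower.algebraMap_apply κ R M]
          rfl
        rw [← h3, div_mul_cancel₀ _ hη0]
      have e3 : φ (algebraMap R N (algebraMap κ R c)) = algebraMap R N (algebraMap κ R c) := by
        apply Subtype.ext
        rw [hφ]
        change ψ (algebraMap R M (algebraMap κ R c)) = algebraMap R M (algebraMap κ R c)
        rw [← IsScalarTower.algebraMap_apply, h.const, hσμ c hc]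
      have e4 : φ (algebraMap R N r * η) = η := by rw [← e1, φ.apply_symm_apply]
      have e5 : cj φ hφR hφR' g η = algebraMap R N (algebraMap κ R c) * η := by
        rw [cj_apply, e1, map_mul, g.commutes, e2, ← mul_assoc, mul_comm (algebraMap R N r),
          mul_assoc, map_mul, e3, e4]
      rw [AlgEquiv.mul_apply, e5, ← e2]
      exact g.symm_apply_apply η)
  refine ⟨n, fun γ z hz => ?_⟩
  have hφpow : ∀ (j : ℕ) (w : N), (((φ ^ j : RingAut N) w : N) : M) = (ψ ^ j : RingAut M) w := by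
    intro j
    induction j with
    | zero => intro w; rfl
    | succ j ih =>
      intro w
      rw [pow_succ', pow_succ']
      change ψ (((φ ^ j : RingAut N) w : N) : M) = ψ ((ψ ^ j : RingAut M) w)
      rw [ih]
  have h1 := cj_pow φ hφR hφR' (ℓ ^ n) (γ.restrictNormal N) ⟨z, hz⟩
  rw [hn] at h1
  change (γ.restrictNormal N) ((φ ^ (ℓ ^ n) : RingAut N) ⟨z, hz⟩) = _ at h1
  have h2 := congrArg (fun w : N => (w : M)) h1
  beta_reduce at h2
  rw [hφpow] at h2
  have h3 := AlgEquiv.restrictNormal_commutes γ N ((φ ^ (ℓ ^ n) : RingAut N) ⟨z, hz⟩)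
  have h4 := AlgEquiv.restrictNormal_commutes γ N ⟨z, hz⟩
  change (((γ.restrictNormal N) ((φ ^ (ℓ ^ n) : RingAut N) ⟨z, hz⟩) : N) : M) =
    γ (((φ ^ (ℓ ^ n) : RingAut N) ⟨z, hz⟩ : N) : M) at h3
  change (((γ.restrictNormal N) ⟨z, hz⟩ : N) : M) = γ z at h4
  rw [h3, hφpow, h4] at h2
  exact h2.symm

end

end Pool.Agent.Y158.GR
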