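import Pool.Agent.Y158.GR.Fer

/-!
# Sections for the Fermat curve of regular prime exponent (2)
-/

set_option autoImplicit false
set_option linter.all false

open Polynomial FF Pool.Agent.Y157.PS Pool.Agent.TH954 IsDedekindDomain NumberField

namespace Pool.Agent.Y158.GR

open Pool.Agent.Y158.KL (lam Kl KLem)

section

/-- algebraic elements on the Fermat curve -/
theorem trans_swap {K F : Type} [Field K] [Field F] [Algebra K F] {n : ℕ} (hn : 0 < n) {x y : F}
    (hxy : x ^ n + y ^ n = 1) (hx : Transcendental K x) : Transcendental K y := by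
  intro hy
  apply hx
  have h1 : IsAlgebraic K (x ^ n) := by
    have e : x ^ n = 1 - y ^ n := by linear_combination hxy
    rw [e]
    exact isAlgebraic_one.sub (hy.pow n)
  exact h1.of_pow hn

variable {K : Type} [Field K] [NumberField K] {ℓ : ℕ}
  [hp : Fact ℓ.Prime] [hK : IsCyclotomicExtension {ℓ} ℚ K] {ζ : K} (hζ : IsPrimitiveRoot ζ ℓ)
  {F Ω : Type} [Field F] [Field Ω] [Algebra K F] [Algebra F Ω] [Algebra K Ω]
  [IsScalarTower K F Ω] [IsAlgClosed Ω] [Algebra.IsAlgebraic F Ω]
  {C : Type} [Field C] [Algebra (Kl hζ) C] [Algebra K C] [IsScalarTower K (Kl hζ) C]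
  [IsAlgClosure (Kl hζ) C]

include hK hζ in
/-- **Kummer's theorem for sections which are given locally at the prime above `ℓ`** -/
theorem ferK (hodd : Odd ℓ) (hcop : (classNumber K).Coprime ℓ) (hKL : KLem ℓ K) (x y : F)
    (hx : Transcendental K x)
    (hF : IntermediateField.adjoin K {x, y} = (⊤ : IntermediateField K F))
    (hxy : x ^ ℓ + y ^ ℓ = 1) (s : GalSection K F (geomPro ℓ K F Ω) (algebraicClosure K Ω))
    (hj : ∀ z, ((s.j z : geomPro ℓ K F Ω) : Ω) = (z : Ω)) (p : Plc K (geomPro ℓ K F Ω) C)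
    (hpv : s.GivenBy (Kl hζ) p) :
    p.val (algebraMap F (geomPro ℓ K F Ω) x) 0 ∨ p.val (algebraMap F (geomPro ℓ K F Ω) y) 0 ∨
      p.val (algebraMap F (geomPro ℓ K F Ω) x)⁻¹ 0 := by
  classical
  have hac : IsAlgClosure K (algebraicClosure K Ω) := inferInstance
  have hkb : IsAlgClosed (algebraicClosure K Ω) := hac.1
  have hch : CharZero (algebraicClosure K Ω) :=
    charZero_of_injective_algebraMap (algebraMap K (algebraicClosure K Ω)).injective
  have hcz : CharZero (Kl hζ) :=
    charZero_of_injective_algebraMap (Pool.Agent.Y158.KL.cm hζ).injective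
  have hkalg : Algebra.IsAlgebraic K (algebraicClosure K Ω) := inferInstance
  have hnorm : Normal K (algebraicClosure K Ω) := IsAlgClosure.normal K _
  obtain ⟨R, M, i1, i2, i3, i4, i5, i6, x', Y, eqv, hC, hc, hx', hy'⟩ :=
    ferSetup (Ω := Ω) hζ hodd x y hx hF hxy
  have hcompat := compat_of s hj
  have hSec := sec_of (neg_ne_zero.2 one_ne_zero) hc hx' hy' s.s s.cont hcompat
  have hs' : ∀ σ z, eqv (conjSec eqv s.s σ z) = s.s σ (eqv z) := fun σ z =>
    conjSec_apply eqv s.s σ z
  let φ : fixL s →+* M := (eqv.symm : geomPro ℓ K F Ω →+* M).comp (algebraMap (fixL s) _)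
  have hφ : ∀ l : fixL s, eqv (φ l) = (l : geomPro ℓ K F Ω) := fun l => eqv.apply_symm_apply _
  have hFx : Fx (κ := algebraicClosure K Ω) (conjSec eqv s.s) φ := by
    refine ⟨fun c => ?_, fun l σ => ?_, fun z hz => ?_⟩
    · apply eqv.injective
      apply Subtype.ext
      rw [hφ, hc]
      rfl
    · apply eqv.injective
      rw [hs', hφ]
      exact l.2 σ
    · refine ⟨⟨eqv z, fun σ => by rw [← hs', hz σ]⟩, ?_⟩
      apply eqv.injective
      rw [hφ]
  have hkum := kumG hζ hC (Act.of_sec hSec) hFx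
  have hdat := datG hζ hC (fun v V hv hV => good_mu hζ hv hV) (neg_ne_zero.2 one_ne_zero)
    (fun v V hv hV σ hσ => by rw [map_neg, map_one]) hSec hFx
  have hXY : (⟨_, F_fixL s x⟩ : fixL s) ^ ℓ + (⟨_, F_fixL s y⟩ : fixL s) ^ ℓ = 1 := by
    apply Subtype.ext
    change (algebraMap F (geomPro ℓ K F Ω) x) ^ ℓ + (algebraMap F (geomPro ℓ K F Ω) y) ^ ℓ = 1
    rw [← map_pow, ← map_pow, ← map_add, hxy, map_one]
  rcases Pool.Agent.Y158.K2.core_main hζ hodd hcop hKL hkum hdat (plcL hpv) hXY with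
    h | h | ⟨-, h⟩
  · left
    have h1 := plcL_val h
    rwa [map_zero] at h1
  · right; left
    have h1 := plcL_val h
    rwa [map_zero] at h1
  · right; right
    have h1 := plcL_val h
    rwa [map_zero] at h1

include hK hζ in
/-- **the section is the one of a rational point** -/
theorem ferAll (hodd : Odd ℓ) (hcop : (classNumber K).Coprime ℓ) (hKL : KLem ℓ K) (x y : F)
    (hx : Transcendental K x)
    (hF : IntermediateField.adjoin K {x, y} = (⊤ : IntermediateField K F))
    (hxy : x ^ ℓ + y ^ ℓ = 1) (s : GalSection K F (geomPro ℓ K F Ω) (algebraicClosure K Ω))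
    (hj : ∀ z, ((s.j z : geomPro ℓ K F Ω) : Ω) = (z : Ω)) (p : Plc K (geomPro ℓ K F Ω) C)
    (hpv : s.GivenBy (Kl hζ) p) :
    (p.val (algebraMap F (geomPro ℓ K F Ω) x) 0 ∨ p.val (algebraMap F (geomPro ℓ K F Ω) y) 0 ∨
      p.val (algebraMap F (geomPro ℓ K F Ω) x)⁻¹ 0) ∧ ∀ σ z, s.s σ z ∈ p.W ↔ z ∈ p.W := by
  have h0 := ferK hζ hodd hcop hKL x y hx hF hxy s hj p hpv
  refine ⟨h0, ?_⟩
  have hℓ := hp.out.pos
  have hx0 : x ≠ 0 := by
    rintro rfl
    exact hx isAlgebraic_zero
  have hxℓ : x ^ ℓ ≠ 0 := pow_ne_zero _ hx0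
  rcases h0 with h | h | h
  · refine ferB hζ hodd hcop hKL y x (trans_swap hℓ hxy hx) ?_ (by rw [add_comm]; exact hxy) s hj p
      hpv h
    rw [Set.pair_comm]
    exact hF
  · exact ferB hζ hodd hcop hKL x y hx hF hxy s hj p hpv h
  · have hxy2 : (-y / x) ^ ℓ + (x⁻¹) ^ ℓ = 1 := by
      rw [div_pow, Odd.neg_pow hodd, inv_pow]
      field_simp
      linear_combination -hxy
    refine ferB hζ hodd hcop hKL (-y / x) x⁻¹ ?_ ?_ hxy2 s hj p hpv (by rw [map_inv₀]; exact h)
    · refine trans_swap hℓ (x := x⁻¹) (by rw [add_comm]; exact hxy2) ?_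
      intro h1
      apply hx
      rw [← inv_inv x]
      exact h1.inv
    · rw [eq_top_iff, ← hF, IntermediateField.adjoin_le_iff]
      have h1 : x⁻¹ ∈ IntermediateField.adjoin K {-y / x, x⁻¹} :=
        IntermediateField.subset_adjoin K _ (by simp)
      have h2 : -y / x ∈ IntermediateField.adjoin K {-y / x, x⁻¹} :=
        IntermediateField.subset_adjoin K _ (by simp)
      have h3 : x ∈ IntermediateField.adjoin K {-y / x, x⁻¹} := by
        have := inv_mem h1
        rwa [inv_inv] at this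
      intro z hz
      rcases hz with hz | hz
      · rw [hz]
        exact h3
      · rw [Set.mem_singleton_iff] at hz
        rw [hz, SetLike.mem_coe]
        have h4 := neg_mem (mul_mem h2 h3)
        rwa [div_mul_cancel₀ _ hx0, neg_neg] at h4

end

end Pool.Agent.Y158.GR
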