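import Pool.Agent.Y158.GR.Fer2
import Pool.Agent.Y674.PS.Fun
import Pool.Agent.Y158.KL.Hil7

/-!
# Sections for curves with a map to a Fermat curve of regular prime exponent
-/

set_option autoImplicit false
set_option linter.all false

open Polynomial FF Pool.Agent.Y157.PS Pool.Agent.TH954 IsDedekindDomain NumberField

namespace Pool.Agent.Y158.GR

open Pool.Agent.Y158.KL (lam Kl KLem)

section res

variable {K N N₀ C : Type} [Field K] [Field N] [Field N₀] [Field C] [Algebra K N] [Algebra K N₀]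
  [Algebra K C]

/-- restriction of a place -/
noncomputable def resPlc (i : N₀ →+* N) (hi : ∀ c : K, i (algebraMap K N₀ c) = algebraMap K N c)
    (p : Plc K N C) : Plc K N₀ C where
  W := p.W.comap i
  ρ := p.ρ.comp (i.restrict (p.W.comap i) p.W (fun _ hx => hx))
  loc := by
    intro x hx
    rw [ValuationSubring.mem_comap, map_inv₀]
    exact p.loc ⟨i x, x.2⟩ hx
  comm := by
    intro c
    obtain ⟨h1, h2⟩ := p.comm c
    have h3 : i (algebraMap K N₀ c) ∈ p.W := by rw [hi]; exact h1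
    refine ⟨h3, ?_⟩
    rw [← h2]
    change p.ρ ⟨i (algebraMap K N₀ c), h3⟩ = _
    congr 1
    exact Subtype.ext (hi c)

variable {i : N₀ →+* N} {hi : ∀ c : K, i (algebraMap K N₀ c) = algebraMap K N c} {p : Plc K N C}

theorem resPlc_val {x : N₀} {c : C} : (resPlc i hi p).val x c ↔ p.val (i x) c := Iff.rfl

theorem resPlc_mem {x : N₀} : x ∈ (resPlc i hi p).W ↔ i x ∈ p.W := Iff.rfl

end res

section closure

variable {K F Ω B : Type} [Field K] [Field F] [Field Ω] [Field B] [Algebra K F]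
  [Algebra F Ω] [Algebra K Ω] [Algebra K B] [IsScalarTower K F Ω] [IsAlgClosed Ω]
  [IsAlgClosure K B]

/-- the algebraic closure `B` is the one in `Ω` -/
theorem exists_eB (f : B →ₐ[K] Ω) : ∃ e : B ≃ₐ[K] algebraicClosure K Ω, ∀ b, ((e b :
    algebraicClosure K Ω) : Ω) = f b := by
  have h1 : IsAlgClosure K (algebraicClosure K Ω) := inferInstance
  have h2 : Algebra.IsAlgebraic K B := IsAlgClosure.isAlgebraic
  have hmem : ∀ b, f b ∈ algebraicClosure K Ω := by
    intro b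
    rw [mem_algebraicClosure_iff]
    exact IsAlgebraic.algHom f (Algebra.IsAlgebraic.isAlgebraic b)
  let g : B →ₐ[K] algebraicClosure K Ω := f.codRestrict (algebraicClosure K Ω).toSubalgebra hmem
  let e0 : algebraicClosure K Ω ≃ₐ[K] B := IsAlgClosure.equiv K _ _
  have h3 : Function.Bijective ((e0 : algebraicClosure K Ω →ₐ[K] B).comp g) :=
    Algebra.IsAlgebraic.algHom_bijective _
  have h4 : Function.Bijective g := by
    refine ⟨g.toRingHom.injective, fun z => ?_⟩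
    obtain ⟨b, hb⟩ := h3.2 (e0 z)
    exact ⟨b, e0.injective hb⟩
  exact ⟨AlgEquiv.ofBijective g h4, fun b => rfl⟩

end closure

section main

variable {K : Type} [Field K] [NumberField K] {ℓ : ℕ}
  [hp : Fact ℓ.Prime] [hK : IsCyclotomicExtension {ℓ} ℚ K] {ζ : K} (hζ : IsPrimitiveRoot ζ ℓ)
  {F Ω B : Type} [Field F] [Field Ω] [Field B] [Algebra K F] [Algebra F Ω] [Algebra K Ω]
  [Algebra K B] [IsScalarTower K F Ω] [IsAlgClosed Ω] [Algebra.IsAlgebraic F Ω]
  [IsAlgClosure K B]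
  {C : Type} [Field C] [Algebra (Kl hζ) C] [Algebra K C] [IsScalarTower K (Kl hζ) C]
  [IsAlgClosure (Kl hζ) C]

/-- `F` is algebraic over a subfield which contains a power of `x` -/
theorem alg_sub {K F : Type} [Field K] [Field F] [Algebra K F] {x : F}
    (hFx : Algebra.IsAlgebraic (IntermediateField.adjoin K {x}) F) (F₀ : IntermediateField K F)
    {m : ℕ} (hm : m ≠ 0) (h : x ^ m ∈ F₀) : Algebra.IsAlgebraic F₀ F := by
  have h1 : IsIntegral F₀ x := by
    apply IsIntegral.of_pow (Nat.pos_of_ne_zero hm)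
    exact isIntegral_algebraMap (x := (⟨_, h⟩ : F₀))
  have hxE : x ∈ algebraicClosure F₀ F := by
    rw [mem_algebraicClosure_iff]
    exact h1.isAlgebraic
  have hle : IntermediateField.adjoin K {x} ≤ (algebraicClosure F₀ F).restrictScalars K := by
    rw [IntermediateField.adjoin_le_iff]
    intro z hz
    rw [Set.mem_singleton_iff] at hz
    rw [hz]
    exact hxE
  refine ⟨fun z => ?_⟩
  have h2 : IsAlgebraic (IntermediateField.adjoin K {x}) z := hFx.isAlgebraic z
  have h3 : IsAlgebraic (algebraicClosure F₀ F) z := by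
    obtain ⟨q, hq, hqz⟩ := h2
    let i : IntermediateField.adjoin K {x} →+* algebraicClosure F₀ F :=
      (algebraMap (IntermediateField.adjoin K {x}) F).codRestrict
        (algebraicClosure F₀ F).toSubfield (fun w => hle w.2)
    refine ⟨q.map i, (Polynomial.map_ne_zero_iff i.injective).2 hq, ?_⟩
    rw [aeval_def, eval₂_map]
    exact hqz
  exact h3.restrictScalars F₀

include hK hζ in
theorem genMain (hodd : Odd ℓ) (hcop : (classNumber K).Coprime ℓ) (hKL : KLem ℓ K) {m : ℕ}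
    (hm : m ≠ 0) (x y : F) (hx : Transcendental K x)
    (hFx : Algebra.IsAlgebraic (IntermediateField.adjoin K {x}) F)
    (hxy : x ^ (ℓ * m) + y ^ (ℓ * m) = 1) (N : IntermediateField F Ω)
    (hN : ∀ z ∈ geomPro ℓ K (IntermediateField.adjoin K {x ^ m, y ^ m}) Ω, z ∈ N)
    (s : GalSection K F N B) (p : Plc K N C) (hpv : s.GivenBy (Kl hζ) p) :
    (p.val (algebraMap F N x) 0 ∨ p.val (algebraMap F N y) 0 ∨ p.val (algebraMap F N x)⁻¹ 0) ∧
      ∀ (g : B ≃ₐ[K] B) (z : N),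
        (z : Ω) ∈ geomPro ℓ K (IntermediateField.adjoin K {x ^ m, y ^ m}) Ω →
        (s.s g z ∈ p.W ↔ z ∈ p.W) := by
  obtain ⟨F₀, hF₀⟩ : ∃ F₀ : IntermediateField K F,
    F₀ = IntermediateField.adjoin K {x ^ m, y ^ m} := ⟨_, rfl⟩
  have hxm : x ^ m ∈ F₀ := by
    rw [hF₀]; exact IntermediateField.subset_adjoin K _ (by simp)
  have hym : y ^ m ∈ F₀ := by
    rw [hF₀]; exact IntermediateField.subset_adjoin K _ (by simp)
  rw [← hF₀] at hN ⊢
  have hmpos : 0 < m := Nat.pos_of_ne_zero hm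
  haveI hFF : Algebra.IsAlgebraic F₀ F := alg_sub hFx F₀ hm hxm
  haveI hFΩ : Algebra.IsAlgebraic F₀ Ω := Algebra.IsAlgebraic.trans F₀ F Ω
  have htop : IntermediateField.adjoin K {(⟨x ^ m, hxm⟩ : F₀), ⟨y ^ m, hym⟩} =
      (⊤ : IntermediateField K F₀) := by
    apply IntermediateField.map_injective F₀.val
    rw [IntermediateField.adjoin_map, Set.image_pair, ← AlgHom.fieldRange_eq_map,
      IntermediateField.fieldRange_val]
    exact hF₀.symm
  have hx0 : Transcendental K (⟨x ^ m, hxm⟩ : F₀) := by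
    rw [← transcendental_algebraMap_iff (R := K) (A := F) (algebraMap F₀ F).injective]
    exact fun h => hx (IsAlgebraic.of_pow hmpos h)
  have hxy0 : (⟨x ^ m, hxm⟩ : F₀) ^ ℓ + (⟨y ^ m, hym⟩ : F₀) ^ ℓ = 1 := by
    apply Subtype.ext
    change (x ^ m) ^ ℓ + (y ^ m) ^ ℓ = 1
    rw [← pow_mul, ← pow_mul, mul_comm m ℓ, hxy]
  have halg : Algebra.IsAlgebraic (IntermediateField.adjoin K {(⟨x ^ m, hxm⟩ : F₀)}) F₀ :=
    alg_of_eqn hp.out.pos (1 - X ^ ℓ) 1 one_ne_zero (⟨x ^ m, hxm⟩ : F₀) ⟨y ^ m, hym⟩ (by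
      rw [map_one, one_mul, map_sub, map_pow, aeval_X, map_one]
      linear_combination hxy0) htop
  haveI : IsAlgClosure F₀ Ω := ⟨inferInstance, inferInstance⟩
  obtain ⟨-, hst⟩ := a_inrt ℓ K F₀ Ω (⟨x ^ m, hxm⟩ : F₀) hx0 halg
  -- the restriction
  obtain ⟨Φ, hΦc, hΦ⟩ := Pool.Agent.Y674.PS.restr' (F₀ := F₀) (Ω₀ := Ω) (F := F) (Ω := Ω)
    (algebraMap F₀ F) (RingHom.id Ω) (fun a => rfl) (geomPro ℓ K F₀ Ω) N hN (fun σ z hz =>
      ⟨σ z, hst (σ.restrictScalars F₀) z hz, rfl⟩)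
  have hΦ' : ∀ (e : N ≃ₐ[F] N) (z : N) (w : geomPro ℓ K F₀ Ω), (w : Ω) = (z : Ω) →
      ((Φ e w : geomPro ℓ K F₀ Ω) : Ω) = ((e z : N) : Ω) := hΦ
  -- the algebraic closures
  haveI : IsScalarTower K N Ω := IsScalarTower.of_algebraMap_eq fun _ => rfl
  obtain ⟨eB, heB⟩ := exists_eB (Ω := Ω) ((IsScalarTower.toAlgHom K N Ω).comp s.j)
  have heB' : ∀ b, ((s.j b : N) : Ω) = ((eB b : algebraicClosure K Ω) : Ω) := fun b => (heB b).symm
  let j₀ : algebraicClosure K Ω →ₐ[K] geomPro ℓ K F₀ Ω :=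
    { toFun := fun z => ⟨(z : Ω), const_geomPro ℓ K z⟩
      map_one' := rfl
      map_mul' := fun _ _ => rfl
      map_zero' := rfl
      map_add' := fun _ _ => rfl
      commutes' := fun c => rfl }
  have hj₀ : ∀ z, ((j₀ z : geomPro ℓ K F₀ Ω) : Ω) = (z : Ω) := fun z => rfl
  let s₀ : GalSection K F₀ (geomPro ℓ K F₀ Ω) (algebraicClosure K Ω) :=
    { j := j₀
      s := (Φ.comp s.s).comp (AlgEquiv.autCongr eB.symm : _ →* _)
      cont := (hΦc.comp s.cont).comp (Pool.Agent.Y674.PS.conj_cont eB.symm)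
      sec := by
        intro σ z
        apply Subtype.ext
        have h1 := hΦ' (s.s (AlgEquiv.autCongr eB.symm σ)) (s.j (eB.symm z)) (j₀ z) (by
          rw [heB', eB.apply_symm_apply, hj₀])
        have h2 : (AlgEquiv.autCongr eB.symm σ) (eB.symm z) = eB.symm (σ z) := by
          change eB.symm (σ (eB (eB.symm z))) = _
          rw [eB.apply_symm_apply]
        rw [s.sec, h2, heB', eB.apply_symm_apply] at h1
        exact h1 }
  have hs₀ : ∀ σ (z : N) (w : geomPro ℓ K F₀ Ω), (w : Ω) = (z : Ω) →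
      ((s₀.s σ w : geomPro ℓ K F₀ Ω) : Ω) =
        ((s.s (AlgEquiv.autCongr eB.symm σ) z : N) : Ω) := fun σ z w h => hΦ' _ z w h
  -- the place
  let i : geomPro ℓ K F₀ Ω →+* N :=
    { toFun := fun w => ⟨(w : Ω), hN _ w.2⟩
      map_one' := rfl
      map_mul' := fun _ _ => rfl
      map_zero' := rfl
      map_add' := fun _ _ => rfl }
  have hi : ∀ w, ((i w : N) : Ω) = (w : Ω) := fun w => rfl
  have hiK : ∀ c : K, i (algebraMap K (geomPro ℓ K F₀ Ω) c) = algebraMap K N c := fun c =>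
    Subtype.ext rfl
  have his : ∀ σ w, i (s₀.s σ w) = s.s (AlgEquiv.autCongr eB.symm σ) (i w) := fun σ w =>
    Subtype.ext (hs₀ σ (i w) w rfl)
  have hij : ∀ z, i (j₀ z) = s.j (eB.symm z) := fun z => by
    apply Subtype.ext
    rw [hi, hj₀, heB', eB.apply_symm_apply]
  have hpv₀ : s₀.GivenBy (Kl hζ) (resPlc i hiK p) := by
    intro τ σ h w c hw
    rw [resPlc_val] at hw ⊢
    rw [his]
    refine hpv τ _ (fun z c' hz => ?_) _ _ hw
    have h1 := h (eB z) c' (by
      rw [resPlc_val]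
      change p.val (i (j₀ (eB z))) c'
      rw [hij, eB.symm_apply_apply]
      exact hz)
    rw [resPlc_val] at h1
    change p.val (i (j₀ (σ (eB z)))) (τ c') at h1
    rw [hij] at h1
    exact h1
  obtain ⟨h1, h2⟩ := ferAll (C := C) hζ hodd hcop hKL _ _ hx0 htop hxy0 s₀ hj₀
    (resPlc i hiK p) hpv₀
  have hpow : ∀ {w : N}, p.val (w ^ m) 0 → p.val w 0 := by
    intro w hw
    obtain ⟨c, hc⟩ := Plc.val_of_mem (Plc.mem_of_pow_mem hmpos hw.mem)
    have h3 := (hc.pow m).unique hw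
    have h4 : c = 0 := pow_eq_zero_iff hm |>.1 h3
    rwa [h4] at hc
  have hiF : ∀ z : F₀, i (algebraMap F₀ (geomPro ℓ K F₀ Ω) z) = algebraMap F N (z : F) := fun z =>
    Subtype.ext rfl
  refine ⟨?_, fun g z hz => ?_⟩
  · rcases h1 with h1 | h1 | h1
    · left
      apply hpow
      rw [resPlc_val, hiF] at h1
      rw [← map_pow]
      exact h1
    · right; left
      apply hpow
      rw [resPlc_val, hiF] at h1
      rw [← map_pow]
      exact h1
    · right; right
      apply hpow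
      rw [resPlc_val, map_inv₀, hiF] at h1
      rw [inv_pow, ← map_pow]
      exact h1
  · have h3 := h2 (AlgEquiv.autCongr eB g) ⟨(z : Ω), hz⟩
    rw [resPlc_mem, resPlc_mem, his] at h3
    have h4 : i ⟨(z : Ω), hz⟩ = z := Subtype.ext rfl
    have h5 : AlgEquiv.autCongr eB.symm (AlgEquiv.autCongr eB g) = g := by
      ext b
      change eB.symm (eB (g (eB.symm (eB b)))) = g b
      rw [eB.symm_apply_apply, eB.symm_apply_apply]
    rwa [h4, h5] at h3

/-- the geometrically pro-`ℓ` extension is contained in the maximal unramified extension -/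
theorem geomPro_unr {K F Ω : Type} [Field K] [CharZero K] [Field F] [Field Ω] [Algebra K F]
    [Algebra F Ω] [Algebra K Ω] [IsScalarTower K F Ω] [IsAlgClosed Ω] [Algebra.IsAlgebraic F Ω]
    (ℓ : ℕ) [hp : Fact ℓ.Prime] {m : ℕ}
    (hm : m ≠ 0) (x y : F) (hx : Transcendental K x)
    (hFx : Algebra.IsAlgebraic (IntermediateField.adjoin K {x}) F)
    (hxy : x ^ (ℓ * m) + y ^ (ℓ * m) = 1) (U : Set (ValuationSubring F))
    (hU : ∀ O ∈ U, ∀ c : K, algebraMap K F c ∈ O) :
    ∀ z ∈ geomPro ℓ K (IntermediateField.adjoin K {x ^ m, y ^ m}) Ω,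
      z ∈ Pool.Agent.W620.SC.unramified F Ω U := by
  obtain ⟨F₀, hF₀⟩ : ∃ F₀ : IntermediateField K F,
    F₀ = IntermediateField.adjoin K {x ^ m, y ^ m} := ⟨_, rfl⟩
  have hxm : x ^ m ∈ F₀ := by
    rw [hF₀]; exact IntermediateField.subset_adjoin K _ (by simp)
  have hym : y ^ m ∈ F₀ := by
    rw [hF₀]; exact IntermediateField.subset_adjoin K _ (by simp)
  rw [← hF₀]
  have hmpos : 0 < m := Nat.pos_of_ne_zero hm
  haveI hFF : Algebra.IsAlgebraic F₀ F := alg_sub hFx F₀ hm hxm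
  haveI hFΩ : Algebra.IsAlgebraic F₀ Ω := Algebra.IsAlgebraic.trans F₀ F Ω
  have htop : IntermediateField.adjoin K {(⟨x ^ m, hxm⟩ : F₀), ⟨y ^ m, hym⟩} =
      (⊤ : IntermediateField K F₀) := by
    apply IntermediateField.map_injective F₀.val
    rw [IntermediateField.adjoin_map, Set.image_pair, ← AlgHom.fieldRange_eq_map,
      IntermediateField.fieldRange_val]
    exact hF₀.symm
  have hx0 : Transcendental K (⟨x ^ m, hxm⟩ : F₀) := by
    rw [← transcendental_algebraMap_iff (R := K) (A := F) (algebraMap F₀ F).injective]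
    exact fun h => hx (IsAlgebraic.of_pow hmpos h)
  have hxy0 : (⟨x ^ m, hxm⟩ : F₀) ^ ℓ + (⟨y ^ m, hym⟩ : F₀) ^ ℓ = 1 := by
    apply Subtype.ext
    change (x ^ m) ^ ℓ + (y ^ m) ^ ℓ = 1
    rw [← pow_mul, ← pow_mul, mul_comm m ℓ, hxy]
  have halg : Algebra.IsAlgebraic (IntermediateField.adjoin K {(⟨x ^ m, hxm⟩ : F₀)}) F₀ :=
    alg_of_eqn hp.out.pos (1 - X ^ ℓ) 1 one_ne_zero (⟨x ^ m, hxm⟩ : F₀) ⟨y ^ m, hym⟩ (by
      rw [map_one, one_mul, map_sub, map_pow, aeval_X, map_one]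
      linear_combination hxy0) htop
  haveI : IsAlgClosure F₀ Ω := ⟨inferInstance, inferInstance⟩
  obtain ⟨h1, -⟩ := a_inrt ℓ K F₀ Ω (⟨x ^ m, hxm⟩ : F₀) hx0 halg
  intro z hz
  rw [Pool.Agent.W620.SC.mem_unramified]
  intro W hW τ hτ
  refine h1 W (fun c => ?_) (τ.restrictScalars F₀) (fun y => ?_) (fun y hy => ?_) z hz
  · have h4 := hU _ hW c
    rw [ValuationSubring.mem_comap] at h4
    rwa [IsScalarTower.algebraMap_apply K F Ω]
  · constructor
    · intro hy
      have h3 := (Pool.Agent.W620.SC.inertia_spec (inv_mem hτ) hy).1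
      have h4 : (τ⁻¹ : Ω ≃ₐ[F] Ω) (τ y) = y := τ.symm_apply_apply y
      change (τ⁻¹ : Ω ≃ₐ[F] Ω) (τ y) ∈ W at h3
      rw [h4] at h3
      exact h3
    · intro hy
      exact (Pool.Agent.W620.SC.inertia_spec hτ hy).1
  · exact (Pool.Agent.W620.SC.inertia_spec hτ hy).2

end main

end Pool.Agent.Y158.GR
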