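import Pool.Agent.Y158.GR.NumV
import Pool.Agent.Y158.KL.Case2c

/-!
# Characters which are unramified outside `ℓ` and trivial at the prime above `ℓ`
-/

set_option autoImplicit false
set_option linter.all false

open Polynomial FF Pool.Agent.Y157.PS IsDedekindDomain NumberField WithZero

namespace Pool.Agent.Y158.GR

section loc

variable {K κ L C : Type} [Field K] [Field κ] [Algebra K κ] [Field L] [Field C] [Algebra K L]
  [Algebra L C] [Algebra K C] [IsScalarTower K L C]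

/-- the local automorphisms -/
def DecL (L : Type) [Field L] [Algebra L C] (ι : κ →ₐ[K] C) (σ : κ ≃ₐ[K] κ) : Prop :=
  ∃ τ : C ≃ₐ[L] C, ∀ z, ι (σ z) = τ (ι z)

theorem exists_decL [Normal K κ] (ι : κ →ₐ[K] C) (τ : C ≃ₐ[L] C) :
    ∃ σ : κ ≃ₐ[K] κ, ∀ z, ι (σ z) = τ (ι z) := by
  let e : κ ≃ₐ[K] ι.fieldRange := AlgEquiv.ofInjectiveField ι
  have he : ∀ z, ((e z : ι.fieldRange) : C) = ι z := fun z => rfl
  haveI : Normal K ι.fieldRange := Normal.of_algEquiv e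
  let τK : C ≃ₐ[K] C := τ.restrictScalars K
  refine ⟨e.trans ((τK.restrictNormal ι.fieldRange).trans e.symm), fun z => ?_⟩
  have h1 : e (e.symm ((τK.restrictNormal ι.fieldRange) (e z))) =
      (τK.restrictNormal ι.fieldRange) (e z) := e.apply_symm_apply _
  change ι (e.symm ((τK.restrictNormal ι.fieldRange) (e z))) = _
  rw [← he, h1]
  exact AlgEquiv.restrictNormal_commutes τK ι.fieldRange (e z)

theorem locfix [Normal K κ] [CharZero L] [IsAlgClosure L C] (ι : κ →ₐ[K] C) {c : κ}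
    (hc : ∀ σ : κ ≃ₐ[K] κ, DecL L ι σ → σ c = c) : ∃ w : L, algebraMap L C w = ι c := by
  have : Algebra.IsAlgebraic L C := IsAlgClosure.isAlgebraic
  have : IsAlgClosed C := IsAlgClosure.isAlgClosed L
  have : IsGalois L C := ⟨⟩
  have h1 : ι c ∈ (⊥ : IntermediateField L C) := by
    rw [InfiniteGalois.mem_bot_iff_fixed]
    intro τ
    obtain ⟨σ, hσ⟩ := exists_decL ι τ
    rw [← hσ, hc σ ⟨τ, hσ⟩]
  exact IntermediateField.mem_bot.1 h1

end loc

variable {K κ : Type} [Field K] [NumberField K] [Field κ] [Algebra K κ] [IsAlgClosure K κ] {ℓ : ℕ}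
  [hp : Fact ℓ.Prime] [hK : IsCyclotomicExtension {ℓ} ℚ K] {ζ : K} (hζ : IsPrimitiveRoot ζ ℓ)

include hK hζ in
theorem mu_fixed (σ : κ ≃ₐ[K] κ) (c : κ) (hc : c ^ ℓ = 1) : σ c = c := by
  haveI : NeZero ℓ := ⟨hp.out.ne_zero⟩
  have h1 : IsPrimitiveRoot (algebraMap K κ ζ) ℓ := hζ.map_of_injective (algebraMap K κ).injective
  obtain ⟨i, -, hi⟩ := h1.eq_pow_of_pow_eq_one hc
  rw [← hi, map_pow, σ.commutes]

/-- **a character of order `ℓ` which is unramified outside `ℓ` and trivial at the prime above `ℓ` is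
trivial**, for regular `ℓ` -/
theorem glb (hcop : (classNumber K).Coprime ℓ) (hKL : Pool.Agent.Y158.KL.KLem ℓ K)
    {C : Type} [Field C] [Algebra (Pool.Agent.Y158.KL.Kl hζ) C] [Algebra K C]
    [IsScalarTower K (Pool.Agent.Y158.KL.Kl hζ) C] [IsAlgClosure (Pool.Agent.Y158.KL.Kl hζ) C]
    (ι : κ →ₐ[K] C) (χ : (κ ≃ₐ[K] κ) → κ) (hχ1 : ∀ σ, χ σ ^ ℓ = 1)
    (hχ2 : ∀ σ τ, χ (σ * τ) = χ σ * χ τ)
    (hχ3 : ∃ E : IntermediateField K κ, FiniteDimensional K E ∧ ∀ σ ∈ E.fixingSubgroup, χ σ = 1)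
    (hI : ∀ v : HeightOneSpectrum (𝓞 K), v ≠ Pool.Agent.Y158.KL.lam hζ →
      ∃ V : ValuationSubring κ, Above v V ∧ ∀ σ, Ine V σ → χ σ = 1)
    (hD : ∀ σ, DecL (Pool.Agent.Y158.KL.Kl hζ) ι σ → χ σ = 1) : ∀ σ, χ σ = 1 := by
  have : Algebra.IsAlgebraic K κ := IsAlgClosure.isAlgebraic
  have : IsAlgClosed κ := IsAlgClosure.isAlgClosed K
  have : Normal K κ := IsAlgClosure.normal K κ
  have : IsGalois K κ := IsGalois.mk
  have hcz : CharZero (Pool.Agent.Y158.KL.Kl hζ) :=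
    charZero_of_injective_algebraMap (Pool.Agent.Y158.KL.cm hζ).injective
  have hℓ0 : ℓ ≠ 0 := hp.out.ne_zero
  have hodd' : 0 < ℓ := hp.out.pos
  have hμ := mu_fixed (κ := κ) hζ
  obtain ⟨E, hE, hEχ⟩ := hχ3
  obtain ⟨c, hc, hcχ⟩ := Pool.Agent.Y655.PS.resolvent (⊤ : Subgroup (κ ≃ₐ[K] κ)) χ
    (fun σ _ h => by
      have := hχ1 σ
      rw [h, zero_pow hℓ0] at this
      exact zero_ne_one this)
    (fun σ _ σ' _ => hχ2 σ σ') (fun σ _ σ' _ => hμ σ _ (hχ1 σ')) E (fun σ h _ => hEχ σ h)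
  have hcχ' : ∀ σ, σ c = χ σ * c := fun σ => hcχ σ trivial
  -- the number
  obtain ⟨a, ha⟩ : ∃ a : K, algebraMap K κ a = c ^ ℓ := by
    have h1 : c ^ ℓ ∈ (⊥ : IntermediateField K κ) := by
      rw [InfiniteGalois.mem_bot_iff_fixed]
      intro σ
      rw [map_pow, hcχ', mul_pow, hχ1, one_mul]
    exact IntermediateField.mem_bot.1 h1
  have ha0 : a ≠ 0 := by
    rintro rfl
    rw [map_zero] at ha
    exact pow_ne_zero ℓ hc ha.symm
  -- the local root
  obtain ⟨w, hw⟩ := locfix (L := Pool.Agent.Y158.KL.Kl hζ) ι (c := c) (fun σ hσ => by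
    rw [hcχ', hD σ hσ, one_mul])
  have hwa : w ^ ℓ = Pool.Agent.Y158.KL.cm hζ a := by
    apply (algebraMap (Pool.Agent.Y158.KL.Kl hζ) C).injective
    rw [map_pow, hw, ← map_pow, ← ha, ι.commutes, IsScalarTower.algebraMap_apply K
      (Pool.Agent.Y158.KL.Kl hζ) C]
    rfl
  obtain ⟨u, k, hk, hu⟩ := Pool.Agent.Y158.KL.exists_unit_mul_pow hodd' hcop a ha0 (by
    intro v
    by_cases hv : v = Pool.Agent.Y158.KL.lam hζ
    · subst hv
      refine ⟨Pool.Agent.Y158.KL.V hζ w, ?_⟩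
      rw [← map_pow, hwa, Pool.Agent.Y158.KL.V_cm]
    · obtain ⟨V, hV, hVχ⟩ := hI v hv
      obtain ⟨t, ht⟩ := hV.pow (ℓ := ℓ) (by
        intro h1
        have h2 := Pool.Agent.Y158.KL.other_pi hζ hv
        have h3 : v.intValuation (ℓ : 𝓞 K) = 1 := by
          rw [← Pool.Agent.Y158.KL.lam_assoc (v := v)
            (IsCyclotomicExtension.Rat.associated_zeta_sub_one_pow_prime ℓ hζ), map_pow, h2,
            one_pow]
        rw [HeightOneSpectrum.intValuation_eq_one_iff] at h3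
        exact h3 h1) hc (fun σ hσ => by rw [hcχ', hVχ σ hσ, one_mul]) ha
      exact ⟨_, ht⟩)
  -- the unit is an `ℓ`-th power
  have hk' : Pool.Agent.Y158.KL.cm hζ k ≠ 0 := (_root_.map_ne_zero _).2 hk
  set w' := w / Pool.Agent.Y158.KL.cm hζ k with hw'
  have hw'u : w' ^ ℓ = Pool.Agent.Y158.KL.om hζ u := by
    rw [hw', div_pow, hwa, hu, map_mul, map_pow, mul_div_assoc,
      div_self (pow_ne_zero _ hk'), mul_one]
    rfl
  have hVw : Pool.Agent.Y158.KL.V hζ w' = 1 := by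
    have h1 : Pool.Agent.Y158.KL.V hζ w' ^ ℓ = 1 := by
      rw [← map_pow, hw'u, Pool.Agent.Y158.KL.V_unit]
    exact (pow_eq_one_iff_of_nonneg zero_le hℓ0).1 h1
  obtain ⟨n, hn⟩ := Pool.Agent.Y158.KL.pow_near hζ (w := w') hVw.le
  obtain ⟨η, hη⟩ := hKL u n (by
    apply Pool.Agent.Y158.KL.ell_dvd_of hζ
    rw [← Pool.Agent.Y158.KL.V_om, map_sub, map_intCast, ← hw'u]
    exact hn)
  -- conclusion
  have hcK : ∃ b : K, algebraMap K κ b = c := by
    have h1 : (c / algebraMap K κ (algebraMap (𝓞 K) K η * k)) ^ ℓ = 1 := by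
      have h2 : algebraMap K κ (algebraMap (𝓞 K) K η * k) ^ ℓ = c ^ ℓ := by
        rw [← map_pow, ← ha, mul_pow, hu, ← map_pow, hη]
        push_cast
        rfl
      rw [div_pow, h2, div_self (pow_ne_zero _ hc)]
    haveI : NeZero ℓ := ⟨hℓ0⟩
    have h3 : IsPrimitiveRoot (algebraMap K κ ζ) ℓ :=
      hζ.map_of_injective (algebraMap K κ).injective
    obtain ⟨i, -, hi⟩ := h3.eq_pow_of_pow_eq_one h1
    have h4 : algebraMap K κ (algebraMap (𝓞 K) K η * k) ≠ 0 := by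
      rw [_root_.map_ne_zero]
      refine mul_ne_zero ?_ hk
      exact (map_ne_zero_iff _ (FaithfulSMul.algebraMap_injective (𝓞 K) K)).2 η.ne_zero
    refine ⟨ζ ^ i * (algebraMap (𝓞 K) K η * k), ?_⟩
    rw [map_mul, map_pow, hi, div_mul_cancel₀ _ h4]
  obtain ⟨b, hb⟩ := hcK
  intro σ
  have h1 := hcχ' σ
  rw [← hb, σ.commutes, hb] at h1
  exact (mul_right_cancel₀ hc (by rw [one_mul, ← h1])).symm

end Pool.Agent.Y158.GR
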