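import Pool.Agent.Y655.PS.Kum

/-!
# The weight argument at places of good reduction, part 1: characters of the inertia group

(After helper157's project PS, in particular `Pool.Agent.Y655.PS.Kum`.)
-/

set_option autoImplicit false
set_option linter.all false

namespace Pool.Agent.Y158.GR

open Pool.Agent.Y157.PS Pool.Agent.Y655.PS Finset

/-- the setting: `V` lies over the discrete valuation ring `A`, `ℓ` is a unit, and the inertia group
fixes `δ` -/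
structure GB (ℓ : ℕ) (A k κ : Type) [CommRing A] [IsDomain A] [IsDiscreteValuationRing A]
    [Field k] [Field κ] [Algebra A k] [Algebra k κ] [Algebra A κ] [IsScalarTower A k κ]
    (V : ValuationSubring κ) (ϖ : A) (δ : κ) : Prop where
  lunit : IsUnit (ℓ : A)
  mem : ∀ a : A, algebraMap A κ a ∈ V
  non : ∀ a ∈ IsLocalRing.maximalIdeal A, algebraMap A κ a ∈ V.nonunits
  irr : Irreducible ϖ
  δ0 : δ ≠ 0
  δI : ∀ σ : κ ≃ₐ[k] κ, Ine V σ → σ δ = δ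

/-- an auxiliary root of the uniformiser -/
theorem GB.toBase {ℓ : ℕ} [hℓ : Fact ℓ.Prime] {A k κ : Type} [CommRing A] [IsDomain A]
    [IsDiscreteValuationRing A]
    [Field k] [Field κ] [Algebra A k] [Algebra k κ] [Algebra A κ] [IsScalarTower A k κ]
    [IsFractionRing A k] [IsAlgClosed κ] {V : ValuationSubring κ} {ϖ : A} {δ : κ}
    (h : GB ℓ A k κ V ϖ δ) : ∃ δ' : κ, Base ℓ A k κ V ϖ δ' 1 := by
  obtain ⟨δ', hδ'⟩ := IsAlgClosed.exists_pow_nat_eq (algebraMap A κ ϖ) hℓ.out.pos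
  have hinjA : Function.Injective (algebraMap A κ) := by
    rw [IsScalarTower.algebraMap_eq A k κ]
    exact (algebraMap k κ).injective.comp (IsFractionRing.injective A k)
  have hπ0 : algebraMap A κ ϖ ≠ 0 := by
    rw [Ne, map_eq_zero_iff _ hinjA]
    exact h.irr.ne_zero
  refine ⟨δ', h.lunit, h.mem, h.non, h.irr, ?_, ⟨algebraMap A k ϖ, ?_⟩, ?_⟩
  · intro h1
    have h2 : (ℓ : ℤ) ≤ 1 := Int.le_of_dvd one_pos h1
    have := hℓ.out.two_le
    omega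
  · rw [hδ', ← IsScalarTower.algebraMap_apply]
  · rw [hδ', zpow_one, div_self hπ0]
    refine ⟨one_ne_zero, one_mem _, ?_⟩
    rw [inv_one]
    exact one_mem _

theorem kum0 (hINE : S_INE) (ℓ : ℕ) [hℓ : Fact ℓ.Prime] (A k κ : Type) [CommRing A] [IsDomain A]
    [IsDiscreteValuationRing A] [Field k] [Field κ] [Algebra A k] [Algebra k κ] [Algebra A κ]
    [IsScalarTower A k κ] [IsFractionRing A k] [CharZero k] [IsAlgClosure k κ]
    [Finite (IsLocalRing.ResidueField A)]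
    (V : ValuationSubring κ) (ϖ : A) (δ : κ) (hB : GB ℓ A k κ V ϖ δ) (q : ℕ)
    (φ : κ ≃ₐ[k] κ) (hφ : Fro V q φ) (n : ℕ) (χ : (κ ≃ₐ[k] κ) → κ)
    (hχ1 : ∀ σ, Ine V σ → χ σ ^ (ℓ ^ n) = 1)
    (hχ2 : ∀ σ σ', Ine V σ → Ine V σ' → χ (σ * σ') = χ σ * χ σ')
    (hχE : ∃ E : IntermediateField k κ, FiniteDimensional k E ∧
        ∀ σ ∈ E.fixingSubgroup, Ine V σ → χ σ = 1) (σ : κ ≃ₐ[k] κ) (hσ : Ine V σ) :
    χ (φ * σ * φ⁻¹) = χ σ ^ q := by
  have : Algebra.IsAlgebraic k κ := IsAlgClosure.isAlgebraic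
  have : IsAlgClosed κ := IsAlgClosure.isAlgClosed k
  have : Normal k κ := IsAlgClosure.normal k κ
  have : IsGalois k κ := IsGalois.mk
  have hℓ0 : ℓ ≠ 0 := hℓ.out.ne_zero
  -- `ℓ` is a unit
  have hℓV : IsU V (ℓ : κ) := by
    obtain ⟨u, hu⟩ := hB.lunit
    have h1 : (ℓ : κ) * algebraMap A κ (↑u⁻¹ : A) = 1 := by
      rw [← map_natCast (algebraMap A κ) ℓ, ← map_mul, ← hu, Units.mul_inv, map_one]
    refine ⟨left_ne_zero_of_mul_eq_one h1, ?_, ?_⟩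
    · rw [← map_natCast (algebraMap A κ) ℓ]; exact hB.mem _
    · rw [← eq_inv_of_mul_eq_one_right h1]; exact hB.mem _
  obtain ⟨N, hN⟩ : ∃ N : ℕ, N = ℓ ^ n := ⟨_, rfl⟩
  have hN0 : N ≠ 0 := by rw [hN]; exact pow_ne_zero _ hℓ0
  have hNV : IsU V (N : κ) := by
    rw [hN, Nat.cast_pow]; exact isU_pow V hℓV n
  rw [← hN] at hχ1
  -- the uniformiser
  obtain ⟨π, hπ⟩ : ∃ π : κ, π = algebraMap A κ ϖ := ⟨_, rfl⟩
  have hinjA : Function.Injective (algebraMap A κ) := by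
    rw [IsScalarTower.algebraMap_eq A k κ]
    exact (algebraMap k κ).injective.comp (IsFractionRing.injective A k)
  have hπ0 : π ≠ 0 := by
    rw [hπ, Ne, map_eq_zero_iff _ hinjA]
    exact hB.irr.ne_zero
  have hπfix : ∀ σ : κ ≃ₐ[k] κ, σ π = π := by
    intro σ
    rw [hπ, IsScalarTower.algebraMap_apply A k κ, AlgEquiv.commutes]
  have hvπ : V.valuation π ≠ 0 := (V.valuation.ne_zero_iff).2 hπ0
  have hII : ∀ τ : κ ≃ₐ[k] κ, τ ∈ II (k := k) V δ ↔ Ine V τ := fun τ =>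
    ⟨fun h => h.1, fun h => ⟨h, hB.δI τ h⟩⟩
  -- the Kummer generator
  obtain ⟨E, hEf, hE⟩ := hχE
  obtain ⟨c, hc, hcχ⟩ := resolvent (II (k := k) V δ) χ
    (fun σ hσ => by
      have := hχ1 σ hσ.1
      intro h
      rw [h, zero_pow hN0] at this
      exact zero_ne_one this)
    (fun σ hσ σ' hσ' => hχ2 σ σ' hσ.1 hσ'.1)
    (fun σ hσ σ' hσ' => ine_root V hN0 hNV hσ.1 (hχ1 σ' hσ'.1)) E
    (fun σ h1 h2 => hE σ h1 h2.1)
  have hcN : ∀ σ : κ ≃ₐ[k] κ, Ine V σ → σ (c ^ N) = c ^ N := by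
    intro σ hσ
    rw [map_pow, hcχ σ ((hII σ).2 hσ), mul_pow, hχ1 σ hσ, one_mul]
  obtain ⟨i, hi⟩ := hINE A k κ V ϖ hB.mem hB.non hB.irr (c ^ N) (pow_ne_zero N hc) hcN
  rw [isU_iff, ← hπ, map_div₀, map_zpow₀, div_eq_one_iff_eq (zpow_ne_zero _ hvπ)] at hi
  -- the unit and its root
  obtain ⟨ρ, hρ⟩ : ∃ ρ : κ, ρ ^ N = c ^ N / π ^ i :=
    IsAlgClosed.exists_pow_nat_eq _ (Nat.pos_of_ne_zero hN0)
  have hρU : IsU V ρ := by
    refine isU_of_pow V hN0 ?_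
    rw [hρ, isU_iff, map_div₀, map_zpow₀, hi, div_self]
    exact zpow_ne_zero _ hvπ
  have hρfix : ∀ σ : κ ≃ₐ[k] κ, Ine V σ → σ ρ = ρ := by
    intro σ hσ
    have h1 : (σ ρ / ρ) ^ N = 1 := by
      have h2 : σ (ρ ^ N) = ρ ^ N := by
        rw [hρ, map_div₀, map_zpow₀, hcN σ hσ, hπfix σ]
      rw [div_pow, ← map_pow, h2, div_self (pow_ne_zero _ hρU.1)]
    have h2 : σ ρ / ρ = 1 := by
      refine root_one V hNV h1 ?_
      have : σ ρ / ρ - 1 = ρ⁻¹ * (σ ρ - ρ) := by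
        have := hρU.1
        field_simp
      rw [this]
      exact mem_mul_non V hρU.2.2 (hσ.2 ρ hρU.2.1)
    exact (div_eq_one_iff_eq hρU.1).1 h2
  obtain ⟨c', hc'⟩ : ∃ c' : κ, c' = c / ρ := ⟨_, rfl⟩
  have hc'0 : c' ≠ 0 := by rw [hc']; exact div_ne_zero hc hρU.1
  have hc'χ : ∀ σ : κ ≃ₐ[k] κ, Ine V σ → σ c' = χ σ * c' := by
    intro σ hσ
    rw [hc', map_div₀, hcχ σ ((hII σ).2 hσ), hρfix σ hσ, mul_div_assoc]
  have hc'N : c' ^ N = π ^ i := by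
    rw [hc', div_pow, hρ]
    have := pow_ne_zero N hc
    have := zpow_ne_zero i hπ0
    field_simp
  have hmem' : Ine V (φ * σ * φ⁻¹) := ine_conj V hφ.1 hσ
  -- `φ⁻¹ c' = ξ c'`
  obtain ⟨ξ, hξ⟩ : ∃ ξ : κ, ξ = φ⁻¹ c' / c' := ⟨_, rfl⟩
  have hξN : ξ ^ N = 1 := by
    have : φ⁻¹ (c' ^ N) = c' ^ N := by rw [hc'N, map_zpow₀, hπfix φ⁻¹]
    rw [hξ, div_pow, ← map_pow, this, div_self (pow_ne_zero _ hc'0)]
  have hξc : φ⁻¹ c' = ξ * c' := by rw [hξ, div_mul_cancel₀ _ hc'0]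
  have h1 : (φ * σ * φ⁻¹) c' = φ (χ σ) * c' := by
    show φ (σ (φ⁻¹ c')) = φ (χ σ) * c'
    rw [hξc, map_mul, ine_root V hN0 hNV hσ hξN, hc'χ σ hσ]
    have : ξ * (χ σ * c') = χ σ * (ξ * c') := by ring
    rw [this, map_mul, ← hξc]
    congr 1
    exact φ.apply_symm_apply c'
  have h2 := hc'χ _ hmem'
  rw [h1] at h2
  rw [← mul_right_cancel₀ hc'0 h2]
  -- Frobenius on roots of unity
  have hχσ := hχ1 σ hσ
  have hU : IsU V (χ σ) := isU_of_pow V hN0 (by rw [hχσ, isU_iff, map_one])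
  have h3 : φ (χ σ) / χ σ ^ q = 1 := by
    refine root_one V hNV ?_ ?_
    · rw [div_pow, ← map_pow, hχσ, map_one, ← pow_mul, mul_comm, pow_mul, hχσ, one_pow, div_one]
    · have : φ (χ σ) / χ σ ^ q - 1 = (χ σ ^ q)⁻¹ * (φ (χ σ) - χ σ ^ q) := by
        have := pow_ne_zero q hU.1
        field_simp
      rw [this]
      exact mem_mul_non V (isU_pow V hU q).2.2 (hφ.2 _ hU.2.1)
  exact (div_eq_one_iff_eq (pow_ne_zero q hU.1)).1 h3

/-- powers of Frobenius elements -/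
theorem fro_pow {k κ : Type} [Field k] [Field κ] [Algebra k κ] {V : ValuationSubring κ} {q : ℕ}
    {φ : κ ≃ₐ[k] κ} (h : Fro V q φ) (r : ℕ) : Fro V (q ^ r) (φ ^ r) := by
  refine ⟨dec_pow V h.1 r, fun z hz => ?_⟩
  induction r with
  | zero =>
    rw [pow_zero, pow_zero, pow_one, AlgEquiv.one_apply, sub_self, non_iff, map_zero]
    exact zero_lt_one
  | succ r ih =>
    have h1 : (φ ^ r) z ∈ V := (dec_pow V h.1 r z).2 hz
    have h2 := h.2 _ h1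
    have h3 : (φ ^ (r + 1)) z = φ ((φ ^ r) z) := by rw [pow_succ']; rfl
    have h4 : ((φ ^ r) z) ^ q - (z ^ (q ^ r)) ^ q ∈ V.nonunits := by
      rw [← geom_sum₂_mul]
      exact mem_mul_non V (sum_mem fun i _ => mul_mem (pow_mem h1 _)
        (pow_mem (pow_mem hz (q ^ r)) _)) ih
    have h5 : (φ ^ (r + 1)) z - z ^ (q ^ (r + 1)) =
        (φ ((φ ^ r) z) - ((φ ^ r) z) ^ q) + (((φ ^ r) z) ^ q - (z ^ (q ^ r)) ^ q) := by
      rw [h3, ← pow_mul, ← pow_succ]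
      ring
    rw [h5]
    exact non_add V h2 h4

end Pool.Agent.Y158.GR
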