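import Pool.Agent.Y748.PS.WGT
import Pool.Agent.Y158.GR.Kum

/-!
# The weight argument at places of good reduction, part 2

(After helper157's project PS, in particular `Pool.Agent.Y748.PS.WGT`.)
-/

set_option autoImplicit false
set_option linter.all false

open Polynomial FF Pool.Agent.Y157.PS Pool.Agent.Y748.PS

namespace Pool.Agent.Y158.GR

section

variable {A k κ R M : Type} [CommRing A] [IsDomain A]
    [IsDiscreteValuationRing A] [Field k] [Field κ] [Algebra A k] [Algebra k κ] [Algebra A κ]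
    [IsScalarTower A k κ] [IsFractionRing A k] [CharZero k] [IsAlgClosure k κ]
    [Finite (IsLocalRing.ResidueField A)] [Field R] [Field M] [Algebra κ R] [Algebra R M]
    [Algebra κ M] [IsScalarTower κ R M]

theorem GB.ell {ℓ : ℕ} {V : ValuationSubring κ} {ϖ : A} {δ : κ}
    (hB : GB ℓ A k κ V ϖ δ) : IsU V (ℓ : κ) := by
  obtain ⟨a, ha⟩ := hB.lunit.exists_right_inv
  have h1 : (ℓ : κ) * algebraMap A κ a = 1 := by
    rw [← map_natCast (algebraMap A κ) ℓ, ← map_mul, ha, map_one]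
  have h2 : (ℓ : κ) ≠ 0 := left_ne_zero_of_mul_eq_one h1
  refine ⟨h2, ?_, ?_⟩
  · have := hB.mem (ℓ : A)
    rwa [map_natCast] at this
  · rw [← eq_inv_of_mul_eq_one_right h1]
    exact hB.mem a

variable {ℓ : ℕ} [Fact ℓ.Prime] [IsAlgClosed κ] [CharZero κ] {V : ValuationSubring κ}
  {ϖ : A} {δ : κ} {x : R} {B : Finset κ} {Y : M} {s : (κ ≃ₐ[k] κ) →* RingAut M}
  {O : ValuationSubring M}

theorem chi_kum' (hINE : S_INE) (hB : GB ℓ A k κ V ϖ δ) (hG2 : S_G2)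
    (hC : Cov ℓ κ R M x B Y) (hO : Gauss V (algebraMap R M x) O)
    (hu : ∀ O' : ValuationSubring M, Gauss V (algebraMap R M x) O' → O' = O)
    (hs : Sec k κ R M x Y δ s)
    (hex : ∀ σ : κ ≃ₐ[k] κ, Ine V σ → ∃ γ : M ≃ₐ[R] M, Rel O s σ γ)
    {q : ℕ} {φ : κ ≃ₐ[k] κ} (hφ : Fro V q φ)
    {h : M} (hh : h ≠ 0) {n : ℕ} {χ : (κ ≃ₐ[k] κ) → κ}
    (hχ : ∀ σ, Ine V σ → σ δ = δ → χ σ ^ (ℓ ^ n) = 1 ∧
      ∀ γ : M ≃ₐ[R] M, Rel O s σ γ → γ h = algebraMap κ M (χ σ) * h)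
    {σ : κ ≃ₐ[k] κ} (hσ : Ine V σ) :
    χ (φ * σ * φ⁻¹) = χ σ ^ q := by
  have hχ' : ∀ σ, Ine V σ → χ σ ^ (ℓ ^ n) = 1 ∧
      ∀ γ : M ≃ₐ[R] M, Rel O s σ γ → γ h = algebraMap κ M (χ σ) * h :=
    fun σ h1 => hχ σ h1 (hB.δI σ h1)
  refine kum0 hINE ℓ A k κ V ϖ δ hB q φ hφ n χ (fun σ h1 => (hχ' σ h1).1) ?_ ?_ σ hσ
  · intro σ σ' h1 h1'
    obtain ⟨γ, hγ⟩ := hex σ h1
    obtain ⟨γ', hγ'⟩ := hex σ' h1'
    have h3 := (hχ' (σ * σ') (ine_mul h1 h1')).2 _ (Rel.mul hO hu hs h1.1 hγ hγ')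
    rw [AlgEquiv.mul_apply, (hχ' σ' h1').2 γ' hγ', map_mul, gal_const, (hχ' σ h1).2 γ hγ,
      ← mul_assoc, ← map_mul] at h3
    have h4 := mul_right_cancel₀ hh h3
    have h5 := (algebraMap κ M).injective h4
    rw [← h5, mul_comm]
  · obtain ⟨c, hc0, hc⟩ := (hG2 ℓ κ R M x B Y hC V O hO).1 h hh
    obtain ⟨E2, hE2, hE2'⟩ := hs.cont h
    haveI := hE2
    have halg : Algebra.IsAlgebraic k κ := IsAlgClosure.isAlgebraic
    haveI : FiniteDimensional k (IntermediateField.adjoin k {c}) :=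
      IntermediateField.adjoin.finiteDimensional (halg.isAlgebraic c).isIntegral
    refine ⟨IntermediateField.adjoin k {c} ⊔ E2, inferInstance, fun σ hσE h1 => ?_⟩
    rw [IntermediateField.mem_fixingSubgroup_iff] at hσE
    have h3 : σ c = c := hσE c ((le_sup_left : IntermediateField.adjoin k {c} ≤ _)
      (IntermediateField.mem_adjoin_simple_self k c))
    have h4 : s σ h = h := hE2' σ (by
      rw [IntermediateField.mem_fixingSubgroup_iff]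
      exact fun y hy => hσE y ((le_sup_right : E2 ≤ _) hy))
    obtain ⟨γ, hγ⟩ := hex σ h1
    have h5 := hγ _ hc.2.1
    rw [map_div₀, map_div₀, gal_const, hs.const, h3, h4, (hχ' σ h1).2 γ hγ] at h5
    have h6 : algebraMap κ M (χ σ) - 1 ∈ O.nonunits := by
      have h7 : algebraMap κ M (χ σ) - 1 = (h / algebraMap κ M c)⁻¹ *
          (algebraMap κ M (χ σ) * h / algebraMap κ M c - h / algebraMap κ M c) := by
        have hc1 : algebraMap κ M c ≠ 0 := by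
          rw [Ne, FaithfulSMul.algebraMap_eq_zero_iff]; exact hc0
        field_simp
      rw [h7]
      exact nu_mul hc.2.2 h5
    have h8 : algebraMap κ M (χ σ) = 1 := by
      refine rou_eq_one (m := ℓ ^ n) ?_ (by rw [← map_pow, (hχ' σ h1).1, map_one]) h6
      have := isU_pow (isU_alg hO hB.ell) n
      rw [map_natCast] at this
      rwa [Nat.cast_pow]
    exact (algebraMap κ M).injective (by rw [h8, map_one])

/-- the weight argument -/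
theorem frob_fix' (hINE : S_INE) (hB : GB ℓ A k κ V ϖ δ) (hG2 : S_G2)
    (hC : Cov ℓ κ R M x B Y) (hO : Gauss V (algebraMap R M x) O)
    (hu : ∀ O' : ValuationSubring M, Gauss V (algebraMap R M x) O' → O' = O)
    (hs : Sec k κ R M x Y δ s)
    (hex : ∀ σ : κ ≃ₐ[k] κ, Ine V σ → ∃ γ : M ≃ₐ[R] M, Rel O s σ γ)
    {q : ℕ} (hcop : Nat.Coprime q ℓ)
    {φ : κ ≃ₐ[k] κ} (hφ : Fro V q φ) (hφδ : φ δ = δ)
    {h : M} (hh : h ≠ 0) {n : ℕ} (hL : h ^ (ℓ ^ n) ∈ LL R V O s δ)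
    {γ : M ≃ₐ[R] M} (hγ : γ ∈ GI (R := R) V O s δ) :
    γ (s φ h / h) = s φ h / h := by
  have hl := hB.ell
  have hR := hC.rat
  have hh2 : s φ h ≠ 0 := by rw [Ne, EmbeddingLike.map_eq_zero_iff]; exact hh
  have hL2 : (s φ h) ^ (ℓ ^ n) ∈ LL R V O s δ := by
    rw [← map_pow]
    exact LL_s hO hu hR hs hφ.1 hφδ hL
  obtain ⟨χ₁, hχ₁⟩ := chi_exists hG2 hC hl hO hu hex hh hL
  obtain ⟨χ₂, hχ₂⟩ := chi_exists hG2 hC hl hO hu hex hh2 hL2
  obtain ⟨σ, h1, h2, h3⟩ := hγ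
  have hc1 : Ine V (φ * σ * φ⁻¹) := ine_conj hφ.1 h1
  have hc2 : (φ * σ * φ⁻¹) δ = δ := hB.δI _ hc1
  have h4 := (hχ₂ _ hc1 hc2).2 _ (h3.conj hO hu hR hs hφ.1)
  rw [chi_kum' hINE hB hG2 hC hO hu hs hex hφ hh2 hχ₂ h1, conj_apply, s_inv_apply,
    (hχ₁ σ h1 h2).2 γ h3, map_mul, hs.const, frob_rou hl hφ (hχ₁ σ h1 h2).1] at h4
  have h5 := (algebraMap κ M).injective (mul_right_cancel₀ hh2 h4)
  have h6 : χ₁ σ = χ₂ σ := eq_of_pow_eq (pow_pos (Fact.out : ℓ.Prime).pos n) (hχ₁ σ h1 h2).1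
    (hχ₂ σ h1 h2).1 h5 (Nat.Coprime.pow_right n hcop)
  have h7 : algebraMap κ M (χ₂ σ) ≠ 0 := by
    rw [Ne, FaithfulSMul.algebraMap_eq_zero_iff]
    intro h8
    have := (hχ₂ σ h1 h2).1
    rw [h8, zero_pow (pow_pos (Fact.out : ℓ.Prime).pos n).ne'] at this
    exact zero_ne_one this
  rw [map_div₀, (hχ₁ σ h1 h2).2 γ h3, (hχ₂ σ h1 h2).2 γ h3, h6, mul_div_mul_left _ _ h7]

end

/-- **the weight argument at places of good reduction**: the inertia group acts trivially on the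
residue field -/
theorem wgt0 (hG2 : S_G2) (hG3 : S_G3) (hPROL : S_PROL) (hDIVS : S_DIVS) (hFINS : S_FINS)
    (hFIXF : S_FIXF) (hSURJ : S_SURJ) (hINE : S_INE) (hFRO : S_FRO)
    (ℓ : ℕ) [Fact ℓ.Prime] (A k κ R M : Type) [CommRing A] [IsDomain A]
    [IsDiscreteValuationRing A] [Field k] [Field κ] [Algebra A k] [Algebra k κ] [Algebra A κ]
    [IsScalarTower A k κ] [IsFractionRing A k] [CharZero k] [IsAlgClosure k κ]
    [Finite (IsLocalRing.ResidueField A)] [Field R] [Field M] [Algebra κ R] [Algebra R M]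
    [Algebra κ M] [IsScalarTower κ R M] (V : ValuationSubring κ) (ϖ : A) (δ : κ)
    (hB : GB ℓ A k κ V ϖ δ) (x : R) (B : Finset κ) (Y : M) (hC : Cov ℓ κ R M x B Y)
    (hGood : Good V B) (F : Type) [Field F] (r : V →+* F) (hr : Res V r) (D : Disc ℓ V r)
    (s : (κ ≃ₐ[k] κ) →* RingAut M) (hs : Sec k κ R M x Y δ s)
    (O : ValuationSubring M) (hO : Gauss V (algebraMap R M x) O)
    (hu : ∀ O' : ValuationSubring M, Gauss V (algebraMap R M x) O' → O' = O) :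
    ∀ σ, Ine V σ → ∀ z ∈ O, s σ z - z ∈ O.nonunits := by
  haveI : IsAlgClosed κ := IsAlgClosure.isAlgClosed k
  haveI : CharZero κ := charZero_of_injective_algebraMap (algebraMap k κ).injective
  haveI : CharZero R := charZero_of_injective_algebraMap (algebraMap κ R).injective
  haveI halg : Algebra.IsAlgebraic k κ := IsAlgClosure.isAlgebraic
  have hl := hB.ell
  have hδ : δ ≠ 0 := hB.δ0
  obtain ⟨δ', hB'⟩ := hB.toBase
  obtain ⟨p, a, hp, hchar, ha, hq, hF, hcop⟩ := res_facts hB' hr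
  haveI : Fact p.Prime := ⟨hp⟩
  obtain ⟨φ0, hφ0⟩ := hFRO A k κ V hB.mem hB.non
  obtain ⟨r0, hr0, hφδ⟩ := Pool.Agent.Y655.PS.fin_orbit φ0 δ
  obtain ⟨φ, hφe⟩ : ∃ φ : κ ≃ₐ[k] κ, φ = φ0 ^ r0 := ⟨_, rfl⟩
  obtain ⟨q, hqe⟩ : ∃ q : ℕ, q = Nat.card (IsLocalRing.ResidueField A) ^ r0 := ⟨_, rfl⟩
  have hφ : Fro V q φ := by rw [hφe, hqe]; exact fro_pow hφ0 r0
  rw [← hφe] at hφδ
  have hqp : q = p ^ (a * r0) := by rw [hqe, hq, pow_mul]
  have hqF : ∀ c : F, ∃ m : ℕ, 0 < m ∧ c ^ (q ^ m) = c := by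
    intro c
    obtain ⟨m, hm, hc⟩ := hF c
    refine ⟨m, hm, ?_⟩
    have h1 : ∀ j : ℕ, c ^ (Nat.card (IsLocalRing.ResidueField A) ^ (m * j)) = c := by
      intro j
      induction j with
      | zero => simp
      | succ j ih => rw [Nat.mul_succ, pow_add, pow_mul, ih, hc]
    rw [hqe, ← pow_mul, mul_comm r0 m]
    exact h1 r0
  have hqcop : Nat.Coprime q ℓ := by rw [hqe]; exact Nat.Coprime.pow_left _ hcop
  have hex : ∀ σ : κ ≃ₐ[k] κ, Ine V σ → ∃ γ : M ≃ₐ[R] M, Rel O s σ γ :=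
    fun σ hσ => Rel.exists hG3 hC hO hu hs hσ
  have hY := Y_mem_LL hC hGood hl hδ hO hs
  have hroot : ∀ h : M, h ^ ℓ ∈ LL R V O s δ → h ∈ LL R V O s δ := by
    intro h hh
    by_cases h0 : h = 0
    · rw [h0]; exact zero_mem _
    intro g γ hγ
    have h1 : g h ≠ 0 := by rw [Ne, EmbeddingLike.map_eq_zero_iff]; exact h0
    have h2 : (g h) ^ ℓ ∈ LL R V O s δ := by
      rw [← map_pow]; exact LL_gal hh g
    obtain ⟨N, hLev, hm1, hYN, hNL, hNs⟩ := exists_level halg hC hO hu hs hφ.1 hφδ h2 hY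
    obtain ⟨g0, m0, w, hg0, hg0m, hw, heq⟩ := hSURJ ℓ M N.toSubfield (s φ) hNs
      (hDIVS ℓ κ R M x B Y hC N hLev hYN) (hFINS ℓ κ R M x B Y hC N hLev hYN)
      (hFIXF ℓ κ R M x B Y hC F V r hr hGood hl D p q (a * r0) (Nat.mul_pos ha hr0) hqp
        hqF O hO hu N hLev hYN (s φ) (φ : κ ≃+* κ) (fun c => hs.const φ c) (hs.fixx φ) hNs hφ.1
        hφ.2) (g h) 1 h1 (by rw [pow_one]; exact hm1)
    rw [heq, map_mul, frob_fix' hINE hB hG2 hC hO hu hs hex hqcop hφ hφδ hg0 (hNL hg0m) hγ,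
      LL_fix (hNL hw) hγ]
  have hprim : ∃ ζ : R, IsPrimitiveRoot ζ ℓ := by
    haveI : NeZero ℓ := ⟨(Fact.out : ℓ.Prime).ne_zero⟩
    haveI : NeZero (ℓ : κ) := ⟨hl.1⟩
    obtain ⟨ζ, hζ⟩ := HasEnoughRootsOfUnity.exists_primitiveRoot κ ℓ
    exact ⟨algebraMap κ R ζ, hζ.map_of_injective (algebraMap κ R).injective⟩
  have htop := hPROL ℓ R M hprim hC.gal hC.pow (LL R V O s δ) hroot
  intro σ hσ z hz
  obtain ⟨γ, hγ⟩ := hex σ hσ
  have h1 : z ∈ LL R V O s δ := by rw [htop]; trivial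
  have h2 := hγ z hz
  rw [LL_fix h1 ⟨σ, hσ, hB.δI σ hσ, hγ⟩] at h2
  have h3 := neg_mem h2
  rwa [neg_sub] at h3

end Pool.Agent.Y158.GR
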