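import Pool.Agent.Y157.PS.All
import Pool.Agent.Y158.GR.Wgt

/-!
# The weight argument at places of good reduction: the result
-/

set_option autoImplicit false
set_option linter.all false

open Polynomial FF Pool.Agent.Y157.PS

namespace Pool.Agent.Y158.GR

/-- the Gauss valuation at a place of good reduction, and the action of inertia -/
theorem wgtU {ℓ : ℕ} [Fact ℓ.Prime] {A k κ R M : Type} [CommRing A] [IsDomain A]
    [IsDiscreteValuationRing A] [Field k] [Field κ] [Algebra A k] [Algebra k κ] [Algebra A κ]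
    [IsScalarTower A k κ] [IsFractionRing A k] [CharZero k] [IsAlgClosure k κ]
    [Finite (IsLocalRing.ResidueField A)] [Field R] [Field M] [Algebra κ R] [Algebra R M]
    [Algebra κ M] [IsScalarTower κ R M] {V : ValuationSubring κ}
    (hVa : ∀ a : A, algebraMap A κ a ∈ V)
    (hVm : ∀ a ∈ IsLocalRing.maximalIdeal A, algebraMap A κ a ∈ V.nonunits)
    (hℓ : IsUnit (ℓ : A)) {x : R} {B : Finset κ} {Y : M} (hC : Cov ℓ κ R M x B Y)
    (hGood : Good V B) :
    HasRot κ R M x B Y V ∧ ∃ O : ValuationSubring M, Gauss V (algebraMap R M x) O ∧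
      (∀ O' : ValuationSubring M, Gauss V (algebraMap R M x) O' → O' = O) ∧
      ∀ δ : κ, δ ≠ 0 → (∀ σ : κ ≃ₐ[k] κ, Ine V σ → σ δ = δ) →
      ∀ s : (κ ≃ₐ[k] κ) →* RingAut M, Sec k κ R M x Y δ s →
        ∀ σ, Ine V σ → ∀ z ∈ O, s σ z - z ∈ O.nonunits := by
  haveI : IsAlgClosed κ := IsAlgClosure.isAlgClosed k
  haveI : CharZero κ := charZero_of_injective_algebraMap (algebraMap k κ).injective
  obtain ⟨F0, iF0, r, hr, ⟨D⟩⟩ := a_ndisc A k κ V hVa hVm ℓ hℓ
  have hrot := a_gex ℓ κ R M x B Y hC F0 V r hr hGood D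
  have hun := a_gun ℓ κ R M x B Y hC V hrot
  obtain ⟨e, he⟩ : B.Nonempty := by
    rw [← Finset.card_pos]
    have := hC.three
    omega
  obtain ⟨O, c, W, hO, -⟩ := hrot e he
  obtain ⟨ϖ, hϖ⟩ := IsDiscreteValuationRing.exists_irreducible A
  refine ⟨hrot, O, hO, fun O' hO' => hun O' O hO' hO, fun δ hδ0 hδI s hs => ?_⟩
  exact wgt0 a_g2 a_g3 a_prol a_divs a_fins a_fixf a_surj a_ine Pool.Agent.Y183.PS.fro ℓ A k κ R M
    V ϖ δ ⟨hℓ, hVa, hVm, hϖ, hδ0, hδI⟩ x B Y hC hGood F0 r hr D s hs O hO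
    (fun O' hO' => hun O' O hO' hO)

end Pool.Agent.Y158.GR
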