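import Pool.Agent.Y157.PS.NumF
import Pool.Agent.Y158.GR.Use

/-!
# Valuation rings of the algebraic closure of a number field
-/

set_option autoImplicit false
set_option linter.all false

open Polynomial FF Pool.Agent.Y157.PS IsDedekindDomain NumberField

namespace Pool.Agent.Y158.GR

variable {K κ : Type} [Field K] [NumberField K] [Field κ] [Algebra K κ]

/-- the valuation ring `V` of the algebraic closure is above the place `v` -/
def Above (v : HeightOneSpectrum (𝓞 K)) (V : ValuationSubring κ) : Prop :=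
  ∀ z : K, algebraMap K κ z ∈ V ↔ v.valuation K z ≤ 1

theorem exists_above (κ : Type) [Field κ] [Algebra K κ] (v : HeightOneSpectrum (𝓞 K)) :
    ∃ V : ValuationSubring κ, Above v V := by
  obtain ⟨V, hV⟩ := a_extv K κ (v.valuation K).valuationSubring
  refine ⟨V, fun z => ?_⟩
  have h1 : algebraMap K κ z ∈ V ↔ z ∈ V.comap (algebraMap K κ) := Iff.rfl
  rw [h1, hV, Valuation.mem_valuationSubring_iff]

theorem Above.isU {v : HeightOneSpectrum (𝓞 K)} {V : ValuationSubring κ} (h : Above v V) (z : K) :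
    IsU V (algebraMap K κ z) ↔ v.valuation K z = 1 := by
  unfold IsU
  rw [← map_inv₀, h, h, map_inv₀]
  constructor
  · rintro ⟨h1, h2, h3⟩
    have hz : z ≠ 0 := by rintro rfl; exact h1 (map_zero _)
    have h4 : v.valuation K z ≠ 0 := (Valuation.ne_zero_iff _).2 hz
    exact le_antisymm h2 ((inv_le_one₀ (zero_lt_iff.2 h4)).1 h3)
  · intro h1
    refine ⟨?_, h1.le, by rw [h1, inv_one]⟩
    intro h0
    have hz : z = 0 := (map_eq_zero _).1 h0
    rw [hz, map_zero] at h1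
    exact zero_ne_one h1

theorem Above.non {v : HeightOneSpectrum (𝓞 K)} {V : ValuationSubring κ} (h : Above v V) (z : K) :
    algebraMap K κ z ∈ V.nonunits ↔ v.valuation K z < 1 := by
  constructor
  · intro h1
    have h2 := (h z).1 (non_mem h1)
    refine lt_of_le_of_ne h2 fun h3 => ?_
    exact ((h.isU z).2 h3).not_nonunit h1
  · intro h1
    by_contra h2
    have h3 := isU_of_not_nonunit ((h z).2 h1.le) h2
    rw [h.isU] at h3
    exact absurd h3 h1.ne

theorem Above.ideal {v : HeightOneSpectrum (𝓞 K)} {V : ValuationSubring κ} (h : Above v V)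
    (a : 𝓞 K) (ha : a ∈ v.asIdeal) : algebraMap K κ (algebraMap (𝓞 K) K a) ∈ V.nonunits := by
  rw [h.non, v.valuation_of_algebraMap, v.intValuation_lt_one_iff_mem]
  exact ha

/-- the discrete valuation ring of `v` -/
theorem Above.data {v : HeightOneSpectrum (𝓞 K)} {V : ValuationSubring κ} (h : Above v V) (ℓ : ℕ)
    (hℓ : (ℓ : 𝓞 K) ∉ v.asIdeal) :
    ∃ (A : Type) (_ : CommRing A) (_ : IsDomain A) (_ : IsDiscreteValuationRing A)
      (_ : Algebra A K), Finite (IsLocalRing.ResidueField A) ∧ IsFractionRing A K ∧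
      IsUnit (ℓ : A) ∧ (∀ a : A, algebraMap K κ (algebraMap A K a) ∈ V) ∧
        ∀ a ∈ IsLocalRing.maximalIdeal A, algebraMap K κ (algebraMap A K a) ∈ V.nonunits := by
  obtain ⟨A, i1, i2, i3, i4, h1, h2, h3, h4, -⟩ := num_data v ℓ hℓ 1 (by
    rw [leadingCoeff_one]
    intro h5
    exact v.isPrime.ne_top ((Ideal.eq_top_iff_one _).2 h5)) (by
    rw [Polynomial.map_one]
    exact separable_one) 1 0 (by rw [pow_zero, Ideal.one_eq_top]; trivial) (by
    rw [zero_add, pow_one]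
    intro h5
    exact v.isPrime.ne_top ((Ideal.eq_top_iff_one _).2 h5))
  obtain ⟨h5, h6⟩ := h4 κ V h.ideal
  exact ⟨A, i1, i2, i3, i4, h1, h2, h3, h5, h6⟩

/-- the elements fixed by the inertia group have the value of an element of `K` -/
theorem Above.ine [IsAlgClosure K κ] {v : HeightOneSpectrum (𝓞 K)} {V : ValuationSubring κ}
    (h : Above v V) {ℓ : ℕ} (hℓ : (ℓ : 𝓞 K) ∉ v.asIdeal) {c : κ} (hc : c ≠ 0)
    (hfix : ∀ σ : κ ≃ₐ[K] κ, Ine V σ → σ c = c) : ∃ t : K, t ≠ 0 ∧ IsU V (c / algebraMap K κ t) := by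
  obtain ⟨A, i1, i2, i3, i4, h1, h2, h3, h5, h6⟩ := h.data ℓ hℓ
  letI : Algebra A κ := ((algebraMap K κ).comp (algebraMap A K)).toAlgebra
  haveI : IsScalarTower A K κ := IsScalarTower.of_algebraMap_eq fun _ => rfl
  obtain ⟨ϖ, hϖ⟩ := IsDiscreteValuationRing.exists_irreducible A
  obtain ⟨j, hj⟩ := a_ine A K κ V ϖ h5 h6 hϖ c hc hfix
  have hϖ0 : algebraMap A K ϖ ≠ 0 := by
    rw [Ne, map_eq_zero_iff _ (IsFractionRing.injective A K)]
    exact hϖ.ne_zero
  refine ⟨algebraMap A K ϖ ^ j, zpow_ne_zero _ hϖ0, ?_⟩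
  rw [map_zpow₀]
  exact hj

/-- Kummer characters which are trivial on inertia -/
theorem Above.pow [IsAlgClosure K κ] {v : HeightOneSpectrum (𝓞 K)} {V : ValuationSubring κ}
    (h : Above v V) {ℓ : ℕ} (hℓ : (ℓ : 𝓞 K) ∉ v.asIdeal) {c : κ} (hc : c ≠ 0)
    (hfix : ∀ σ : κ ≃ₐ[K] κ, Ine V σ → σ c = c) {a : K} (ha : algebraMap K κ a = c ^ ℓ) :
    ∃ t : K, v.valuation K a = (v.valuation K t) ^ ℓ := by
  obtain ⟨t, ht, hU⟩ := h.ine hℓ hc hfix
  refine ⟨t, ?_⟩
  have h1 : IsU V (algebraMap K κ (a / t ^ ℓ)) := by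
    rw [map_div₀, map_pow, ha, ← div_pow]
    exact Pool.Agent.Y748.PS.isU_pow hU ℓ
  rw [h.isU, map_div₀, map_pow] at h1
  have h2 : v.valuation K t ^ ℓ ≠ 0 := pow_ne_zero _ ((Valuation.ne_zero_iff _).2 ht)
  exact (div_eq_one_iff_eq h2).1 h1

/-- the weight argument over a number field -/
theorem Above.wgt [IsAlgClosure K κ] {v : HeightOneSpectrum (𝓞 K)} {V : ValuationSubring κ}
    (h : Above v V) {ℓ : ℕ} [Fact ℓ.Prime] (hℓ : (ℓ : 𝓞 K) ∉ v.asIdeal)
    {R M : Type} [Field R] [Field M] [Algebra κ R] [Algebra R M] [Algebra κ M]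
    [IsScalarTower κ R M] {x : R} {B : Finset κ} {Y : M} (hC : Cov ℓ κ R M x B Y)
    (hGood : Good V B) : IsU V (ℓ : κ) ∧
    HasRot κ R M x B Y V ∧ ∃ O : ValuationSubring M, Gauss V (algebraMap R M x) O ∧
      (∀ O' : ValuationSubring M, Gauss V (algebraMap R M x) O' → O' = O) ∧
      ∀ δ : κ, δ ≠ 0 → (∀ σ : κ ≃ₐ[K] κ, Ine V σ → σ δ = δ) →
      ∀ s : (κ ≃ₐ[K] κ) →* RingAut M, Sec K κ R M x Y δ s →
        ∀ σ, Ine V σ → ∀ z ∈ O, s σ z - z ∈ O.nonunits := by
  obtain ⟨A, i1, i2, i3, i4, h1, h2, h3, h5, h6⟩ := h.data ℓ hℓ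
  letI : Algebra A κ := ((algebraMap K κ).comp (algebraMap A K)).toAlgebra
  haveI : IsScalarTower A K κ := IsScalarTower.of_algebraMap_eq fun _ => rfl
  refine ⟨?_, wgtU (k := K) h5 h6 h3 hC hGood⟩
  rw [← map_natCast (algebraMap K κ) ℓ, h.isU, ← map_natCast (algebraMap (𝓞 K) K) ℓ,
    v.valuation_of_algebraMap, v.intValuation_eq_one_iff]
  exact hℓ

end Pool.Agent.Y158.GR
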