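import Pool.Agent.Y158.GR.Gen

/-!
# The rational point
-/

set_option autoImplicit false
set_option linter.all false

open Pool.Agent.TH954

namespace Pool.Agent.Y158.GR

variable {K N C : Type} [Field K] [Field N] [Field C] [Algebra K N] [Algebra K C]

theorem val_root {p : Plc K N C} {ℓ : ℕ} (hℓ : 0 < ℓ) {ζ : K} (hζ : IsPrimitiveRoot ζ ℓ) {w : N}
    {c : C} (hw : p.val (w ^ ℓ) c) (hc : c = 1) : ∃ i : ℕ, p.val w (algebraMap K C (ζ ^ i)) := by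
  obtain ⟨ξ, hξ⟩ := Plc.val_of_mem (Plc.mem_of_pow_mem hℓ hw.mem)
  have h1 : ξ ^ ℓ = 1 := by
    rw [← hc]
    exact (hξ.pow ℓ).unique hw
  haveI : NeZero ℓ := ⟨hℓ.ne'⟩
  obtain ⟨i, -, hi⟩ := (hζ.map_of_injective (algebraMap K C).injective).eq_pow_of_pow_eq_one h1
  refine ⟨i, ?_⟩
  rw [map_pow, hi]
  exact hξ

/-- a place on `x y z = 0` is above a rational point -/
theorem rat_pt {p : Plc K N C} {ℓ : ℕ} (hℓ : 0 < ℓ) (hodd : Odd ℓ) {ζ : K}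
    (hζ : IsPrimitiveRoot ζ ℓ) {X Y : N} (hX : X ≠ 0) (hXY : X ^ ℓ + Y ^ ℓ = 1)
    (h : p.val X 0 ∨ p.val Y 0 ∨ p.val X⁻¹ 0) :
    ∃ a b c : K, a ^ ℓ + b ^ ℓ = c ^ ℓ ∧ a * b * c = 0 ∧ (a ≠ 0 ∨ b ≠ 0) ∧ ∃ u : N, u ≠ 0 ∧
      p.val (u * X) (algebraMap K C a) ∧ p.val (u * Y) (algebraMap K C b) ∧
      p.val u (algebraMap K C c) := by
  have hζ0 : ∀ i : ℕ, ζ ^ i ≠ 0 := fun i => pow_ne_zero i (hζ.ne_zero hℓ.ne')
  have hζi : ∀ i : ℕ, (ζ ^ i) ^ ℓ = 1 := fun i => by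
    rw [← pow_mul, mul_comm, pow_mul, hζ.pow_eq_one, one_pow]
  have h10 : (0 : K) ^ ℓ = 0 := zero_pow hℓ.ne'
  rcases h with h | h | h
  · have h1 : p.val (Y ^ ℓ) (1 - 0 ^ ℓ) := by
      have e : Y ^ ℓ = 1 - X ^ ℓ := by linear_combination hXY
      rw [e]
      exact Plc.val_one.sub (h.pow ℓ)
    obtain ⟨i, hi⟩ := val_root hℓ hζ h1 (by rw [zero_pow hℓ.ne', sub_zero])
    refine ⟨0, ζ ^ i, 1, by rw [h10, hζi, one_pow, zero_add], by ring, Or.inr (hζ0 i), 1,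
      one_ne_zero, ?_, ?_, ?_⟩
    · rw [one_mul, map_zero]; exact h
    · rw [one_mul]; exact hi
    · rw [map_one]; exact Plc.val_one
  · have h1 : p.val (X ^ ℓ) (1 - 0 ^ ℓ) := by
      have e : X ^ ℓ = 1 - Y ^ ℓ := by linear_combination hXY
      rw [e]
      exact Plc.val_one.sub (h.pow ℓ)
    obtain ⟨i, hi⟩ := val_root hℓ hζ h1 (by rw [zero_pow hℓ.ne', sub_zero])
    refine ⟨ζ ^ i, 0, 1, by rw [h10, hζi, one_pow, add_zero], by ring, Or.inl (hζ0 i), 1,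
      one_ne_zero, ?_, ?_, ?_⟩
    · rw [one_mul]; exact hi
    · rw [one_mul, map_zero]; exact h
    · rw [map_one]; exact Plc.val_one
  · have h1 : p.val ((-(X⁻¹ * Y)) ^ ℓ) (1 - 0 ^ ℓ) := by
      have e : (-(X⁻¹ * Y)) ^ ℓ = 1 - (X⁻¹) ^ ℓ := by
        rw [Odd.neg_pow hodd, mul_pow, inv_pow]
        have := pow_ne_zero ℓ hX
        field_simp
        linear_combination -hXY
      rw [e]
      exact Plc.val_one.sub (h.pow ℓ)
    obtain ⟨i, hi⟩ := val_root hℓ hζ h1 (by rw [zero_pow hℓ.ne', sub_zero])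
    refine ⟨1, -ζ ^ i, 0, ?_, by ring, Or.inl one_ne_zero, X⁻¹, inv_ne_zero hX, ?_, ?_, ?_⟩
    · rw [Odd.neg_pow hodd, h10, hζi, one_pow]
      ring
    · rw [inv_mul_cancel₀ hX, map_one]
      exact Plc.val_one
    · rw [map_neg]
      have h2 := Plc.val_zero.sub hi
      rwa [zero_sub, zero_sub, neg_neg] at h2
    · rw [map_zero]
      exact h

end Pool.Agent.Y158.GR
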