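import Pool.Agent.Y248.PS.GunA
import Pool.Agent.Y748.PS.W2
import Pool.Agent.Y157.PS.Loc

/-!
# Elements of `M` with an `ℓ`-th power in `κ(x)`
-/

set_option autoImplicit false
set_option linter.all false

open Polynomial FF Pool.Agent.Y157.PS

namespace Pool.Agent.Y158.GR

section

variable {ℓ : ℕ} [hℓ : Fact ℓ.Prime] {κ R M : Type} [Field κ] [IsAlgClosed κ] [CharZero κ]
  [Field R] [Field M] [Algebra κ R] [Algebra R M] [Algebra κ M] [IsScalarTower κ R M] {x : R}
  {B : Finset κ} {Y : M}

/-- a polynomial over an algebraically closed field whose root multiplicities are divisible by `ℓ` -/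
theorem poly_pow (P : κ[X]) (hP : P ≠ 0) (h : ∀ b : κ, ℓ ∣ P.rootMultiplicity b) :
    ∃ (c : κ) (Q : κ[X]), c ≠ 0 ∧ Q ≠ 0 ∧ P = C c * Q ^ ℓ := by
  classical
  have hsp := IsAlgClosed.splits P
  have h1 := hsp.eq_prod_roots
  obtain ⟨s, hs⟩ : ∃ s : Multiset κ, P.roots = ℓ • s := by
    refine ⟨∑ b ∈ P.roots.toFinset, (P.roots.count b / ℓ) • ({b} : Multiset κ), ?_⟩
    ext a
    rw [Multiset.count_nsmul, Multiset.count_sum']
    have h2 : ∀ b ∈ P.roots.toFinset, Multiset.count a ((P.roots.count b / ℓ) • ({b} : Multiset κ)) =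
        if a = b then P.roots.count a / ℓ else 0 := by
      intro b _
      rw [Multiset.count_nsmul, Multiset.count_singleton]
      split_ifs with hab
      · rw [hab, mul_one]
      · rw [mul_zero]
    rw [Finset.sum_congr rfl h2, Finset.sum_ite_eq]
    split_ifs with ha
    · have h3 := h a
      rw [← Polynomial.count_roots] at h3
      rw [Nat.mul_div_cancel' h3]
    · rw [Multiset.mem_toFinset] at ha
      rw [Multiset.count_eq_zero_of_notMem ha, mul_zero]
  refine ⟨P.leadingCoeff, (s.map (X - C ·)).prod, leadingCoeff_ne_zero.2 hP, ?_, ?_⟩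
  · intro h0
    rw [Multiset.prod_eq_zero_iff, Multiset.mem_map] at h0
    obtain ⟨a, -, ha⟩ := h0
    exact X_sub_C_ne_zero a ha
  · conv_lhs => rw [h1]
    rw [hs, Multiset.map_nsmul, Multiset.prod_nsmul]

/-- an element of `M` with `ℓ`-th power in `κ(x)` and with orders divisible by `ℓ` above the branch
points is in `κ(x)` -/
theorem root_in_R (hC : Cov ℓ κ R M x B Y) {u : M} (hu0 : u ≠ 0)
    (hu : ∃ r : R, algebraMap R M r = u ^ ℓ)
    (hB : ∀ W : Place κ M, ∀ e ∈ B, 0 < W.ord (algebraMap R M x - algebraMap κ M e) →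
      (ℓ : ℤ) ∣ W.ord u) : ∃ r : R, algebraMap R M r = u := by
  obtain ⟨r, hr⟩ := hu
  obtain ⟨p, q, hq, hpq⟩ := hC.rat.exists_div r
  have htr : Transcendental κ (algebraMap R M x) := by
    rw [transcendental_algebraMap_iff (algebraMap R M).injective]
    exact hC.rat.trans
  have hr0 : r ≠ 0 := by
    rintro rfl
    rw [map_zero] at hr
    exact pow_ne_zero ℓ hu0 hr.symm
  have hp : aeval x p ≠ 0 := by
    intro h0; apply hr0; rw [hpq, h0, zero_div]
  have hp' : p ≠ 0 := by rintro rfl; exact hp (map_zero _)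
  have hq' : q ≠ 0 := by rintro rfl; exact hq (map_zero _)
  obtain ⟨n, hn⟩ : ∃ n, ℓ = n + 1 := ⟨ℓ - 1, by have := hℓ.out.pos; omega⟩
  set P := p * q ^ n with hP
  have hP0 : P ≠ 0 := mul_ne_zero hp' (pow_ne_zero _ hq')
  have e1 : ∀ f : κ[X], algebraMap R M (aeval x f) = aeval (algebraMap R M x) f := fun f =>
    (aeval_algebraMap_apply M x f).symm
  have hq1 : aeval (algebraMap R M x) q ≠ 0 := by
    rw [← e1]; exact (_root_.map_ne_zero _).2 hq
  set u' := u * aeval (algebraMap R M x) q with hu'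
  have hu'0 : u' ≠ 0 := mul_ne_zero hu0 hq1
  have hu'ℓ : u' ^ ℓ = aeval (algebraMap R M x) P := by
    rw [hu', mul_pow, ← hr, hpq, map_div₀, e1, e1, hP, map_mul, map_pow, hn, pow_succ]
    field_simp
  obtain ⟨c, Q, hc, hQ, hPQ⟩ := poly_pow (ℓ := ℓ) P hP0 (by
    intro b
    obtain ⟨W, hW⟩ := Pool.Agent.Y248.PS.exists_place hC b
    obtain ⟨-, h1⟩ := Pool.Agent.Y248.PS.ord_eval W hW hP0
    rw [← hu'ℓ, W.ord_pow] at h1
    have hℓ0 : (ℓ : ℤ) ≠ 0 := by exact_mod_cast hℓ.out.ne_zero
    by_cases hb : b ∈ B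
    · obtain ⟨-, h2⟩ := Pool.Agent.Y248.PS.ord_eval W hW hq'
      have hWe : W.ord (algebraMap R M x - algebraMap κ M b) = ℓ := by
        rcases hC.loc' W with ⟨e', he', h3, h4⟩ | ⟨a, ha, h3⟩ | h3
        · by_cases heb : e' = b
          · rw [← heb]; exact h3
          · exfalso
            have h5 : 0 < W.ord (algebraMap R M x - algebraMap κ M e') := by
              rw [h3]; exact_mod_cast hℓ.out.pos
            have := ord_sub_const h5 heb
            omega
        · exfalso
          by_cases hba : b = a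
          · exact ha (hba ▸ hb)
          · have := ord_sub_const hW hba
            omega
        · exfalso
          have h4 := reg_of_pos hW
          have hx0 : algebraMap R M x ≠ 0 := by
            intro h0; rw [h0, W.ord_zero] at h3; omega
          have := (W.reg_iff hx0).1 h4
          omega
      rw [hWe] at h1 h2
      obtain ⟨j, hj⟩ := hB W b hb hW
      have h3 : W.ord u' = ℓ * j + (q.rootMultiplicity b : ℤ) * ℓ := by
        rw [hu', W.ord_mul hu0 hq1, hj, h2]
      have h4 : (P.rootMultiplicity b : ℤ) = W.ord u' := by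
        apply mul_right_cancel₀ hℓ0
        rw [← h1, mul_comm]
      have h5 : (ℓ : ℤ) ∣ (P.rootMultiplicity b : ℤ) := by
        rw [h4, h3]
        exact ⟨j + q.rootMultiplicity b, by ring⟩
      exact_mod_cast h5
    · have hWe : W.ord (algebraMap R M x - algebraMap κ M b) = 1 := by
        rcases hC.loc' W with ⟨e', he', h3, h4⟩ | ⟨a, ha, h3⟩ | h3
        · exfalso
          have hne : e' ≠ b := fun h => hb (h ▸ he')
          have h5 : 0 < W.ord (algebraMap R M x - algebraMap κ M e') := by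
            rw [h3]; exact_mod_cast hℓ.out.pos
          have := ord_sub_const h5 hne
          omega
        · by_cases hba : b = a
          · rw [hba]; exact h3
          · exfalso
            have := ord_sub_const hW hba
            omega
        · exfalso
          have h4 := reg_of_pos hW
          have hx0 : algebraMap R M x ≠ 0 := by
            intro h0; rw [h0, W.ord_zero] at h3; omega
          have := (W.reg_iff hx0).1 h4
          omega
      rw [hWe, mul_one] at h1
      have h5 : (ℓ : ℤ) ∣ (P.rootMultiplicity b : ℤ) := ⟨_, h1.symm⟩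
      exact_mod_cast h5)
  have hQ1 : aeval (algebraMap R M x) Q ≠ 0 := fun h => htr ⟨Q, hQ, h⟩
  obtain ⟨d, hd, -⟩ := const_of_pow (κ := κ) (z := u' / aeval (algebraMap R M x) Q) (a := c)
    hℓ.out.pos (by
      rw [div_pow, hu'ℓ, hPQ, map_mul, map_pow, aeval_C, mul_div_assoc,
        div_self (pow_ne_zero _ hQ1), mul_one])
  refine ⟨algebraMap κ R d * aeval x Q / aeval x q, ?_⟩
  rw [map_div₀, map_mul, e1, e1, ← IsScalarTower.algebraMap_apply, hd, hu']
  field_simp

variable {k : Type} [Field k] [Algebra k κ]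

/-- the semilinear automorphisms of `M` which fix `x` -/
structure SA (k : Type) [Field k] [Algebra k κ] (x : R) (ψ : M ≃+* M) (σ : κ ≃ₐ[k] κ) : Prop where
  const : ∀ c, ψ (algebraMap κ M c) = algebraMap κ M (σ c)
  fixx : ψ (algebraMap R M x) = algebraMap R M x

/-- a semilinear automorphism multiplies the `ℓ`-th roots of elements of `κ(x)` by elements of
`κ(x)` -/
theorem SA.root (hC : Cov ℓ κ R M x B Y) {ψ : M ≃+* M} {σ : κ ≃ₐ[k] κ} (h : SA k x ψ σ)
    (hσB : ∀ e ∈ B, σ e = e) (hψR : ∀ r : R, ∃ r' : R, ψ (algebraMap R M r) = algebraMap R M r')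
    {η : M} (hη : η ≠ 0) (hηR : ∃ r : R, algebraMap R M r = η ^ ℓ) :
    ∃ r : R, r ≠ 0 ∧ ψ η = algebraMap R M r * η := by
  obtain ⟨f, hf⟩ := hηR
  have hf0 : f ≠ 0 := by
    rintro rfl
    rw [map_zero] at hf
    exact pow_ne_zero ℓ hη hf.symm
  have hψη : ψ η ≠ 0 := (map_ne_zero_iff ψ ψ.injective).2 hη
  obtain ⟨f', hf'⟩ := hψR f
  obtain ⟨r, hr⟩ := root_in_R hC (u := ψ η / η) (div_ne_zero hψη hη) (by
    refine ⟨f' / f, ?_⟩
    rw [map_div₀, ← hf', hf, div_pow, map_pow]) (by
    intro W e he hWe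
    set W' := Place.comapEquiv W ψ (σ : κ ≃+* κ) (fun c => h.const c) with hW'
    have e1 : ∀ z, W'.ord z = W.ord (ψ z) := fun z => rfl
    have hW'e : W'.ord (algebraMap R M x - algebraMap κ M e) =
        W.ord (algebraMap R M x - algebraMap κ M e) := by
      rw [e1, map_sub, h.fixx, h.const, hσB e he]
    obtain ⟨n, hn⟩ := ord_ratF (M := M) hC.rat e f hf0
    have h1 := hn W hWe
    have h2 := hn W' (by rw [hW'e]; exact hWe)
    rw [hW'e, hf, W'.ord_pow] at h2
    rw [hf, W.ord_pow] at h1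
    have hℓ0 : (ℓ : ℤ) ≠ 0 := by exact_mod_cast hℓ.out.ne_zero
    have h3 : W'.ord η = W.ord η := mul_left_cancel₀ hℓ0 (h2.trans h1.symm)
    rw [W.ord_div hψη hη, ← e1, h3, sub_self]
    exact dvd_zero _)
  refine ⟨r, ?_, ?_⟩
  · rintro rfl
    rw [map_zero] at hr
    exact div_ne_zero hψη hη hr.symm
  · rw [hr, div_mul_cancel₀ _ hη]

end

end Pool.Agent.Y158.GR
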